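import Pool.Agent.H97.XC.Defs
import Pool.Agent.H87.SA2.RAD
import Mathlib.RingTheory.Polynomial.Resultant.Basic

/-! # [XC-DISC] An explicit Bezout relation

Proof. `exists_rad f hf` (`Pool/Agent/H87/SA2/RAD.lean`): `f1 ∣ f`, `f ∣ f1^k`, with a Bezout
relation. `f` squarefree: `f ∣ f1` (`Squarefree.dvd_pow_iff_dvd` or similar; `k = 0` means `f = 1`,
excluded by `1 ≤ d`), both monic, so `f = f1`, and `f`, `f'` are coprime over
`L = FractionRing ℤ[X]`. Let `c = resultant f (derivative f) d (d - 1)`, the determinant of the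
Sylvester matrix. `c ≠ 0`: `resultant_map_map` for `algebraMap ℤ[X] L` and `resultant_ne_zero`
(`natDegree (derivative f) = d - 1` in characteristic `0`). Bezout:
`exists_mul_add_mul_eq_C_resultant` (`m = d ≠ 0`). Size: every entry of the matrix is `0` or a
coefficient of `f` or of `f'`, so of degree `≤ m` with coefficients `≤ d B`; the product of
`2 d - 1` of them has degree `≤ (2 d - 1) m` and coefficients `≤ ((m + 1) d B)^(2 d - 1)`
(`prod_bd` below), the determinant is a signed sum of `(2 d - 1)!` such products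
(`Matrix.det_apply`, `Finset.sum`, `Fintype.card_perm`). -/

namespace Pool.Agent.H97.XC

open Finset Polynomial Pool.Agent.H87.SA2

theorem disc_mul_bd (p r : ℤ[X]) (m A R : ℕ) (hp : p.natDegree ≤ m)
    (hA : ∀ j, |p.coeff j| ≤ (A : ℤ)) (hR : ∀ j, |r.coeff j| ≤ (R : ℤ)) (j : ℕ) :
    |(p * r).coeff j| ≤ (((m + 1) * A * R : ℕ) : ℤ) := by
  rw [coeff_mul, Finset.Nat.sum_antidiagonal_eq_sum_range_succ_mk]
  have h1 : ∑ k ∈ range j.succ, p.coeff k * r.coeff (j - k) =
      ∑ k ∈ (range j.succ).filter (fun k => k ≤ m), p.coeff k * r.coeff (j - k) := by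
    symm
    apply Finset.sum_filter_of_ne
    intro k _ hk
    by_contra hkm
    apply hk
    rw [coeff_eq_zero_of_natDegree_lt (by omega), zero_mul]
  rw [h1]
  refine (Finset.abs_sum_le_sum_abs _ _).trans ?_
  have h2 : ∀ k ∈ (range j.succ).filter (fun k => k ≤ m),
      |p.coeff k * r.coeff (j - k)| ≤ (A : ℤ) * R := by
    intro k _
    rw [abs_mul]
    exact mul_le_mul (hA k) (hR _) (abs_nonneg _) (Int.natCast_nonneg _)
  refine (Finset.sum_le_card_nsmul _ _ _ h2).trans ?_
  have h3 : ((range j.succ).filter (fun k => k ≤ m)).card ≤ m + 1 := by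
    refine (Finset.card_le_card (t := range (m + 1)) ?_).trans (Finset.card_range _).le
    intro k hk
    rw [Finset.mem_filter] at hk
    rw [Finset.mem_range]
    omega
  rw [nsmul_eq_mul]
  push_cast
  have h4 : ((((range j.succ).filter (fun k => k ≤ m)).card : ℕ) : ℤ) ≤ (m : ℤ) + 1 := by
    exact_mod_cast h3
  rw [mul_assoc]
  exact mul_le_mul_of_nonneg_right h4 (by positivity)

theorem prod_bd {ι : Type*} (s : Finset ι) (p : ι → ℤ[X]) (m A : ℕ)
    (hd : ∀ i ∈ s, (p i).natDegree ≤ m) (hA : ∀ i ∈ s, ∀ j, |(p i).coeff j| ≤ (A : ℤ)) :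
    (∏ i ∈ s, p i).natDegree ≤ s.card * m ∧
      ∀ j, |(∏ i ∈ s, p i).coeff j| ≤ ((((m + 1) * A) ^ s.card : ℕ) : ℤ) := by
  classical
  induction s using Finset.induction_on with
  | empty =>
    constructor
    · simp
    · intro j
      rw [Finset.prod_empty, Finset.card_empty, pow_zero, coeff_one]
      split_ifs <;> simp
  | insert i s hi ih =>
    obtain ⟨ih1, ih2⟩ := ih (fun k hk => hd k (Finset.mem_insert_of_mem hk))
      (fun k hk => hA k (Finset.mem_insert_of_mem hk))
    rw [Finset.prod_insert hi, Finset.card_insert_of_notMem hi]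
    constructor
    · refine natDegree_mul_le.trans ?_
      have := hd i (Finset.mem_insert_self i s)
      nlinarith
    · intro j
      refine (disc_mul_bd (p i) _ m A _ (hd i (Finset.mem_insert_self i s))
        (hA i (Finset.mem_insert_self i s)) ih2 j).trans (le_of_eq ?_)
      congr 1
      ring

theorem sqf_bez {f : ℤ[X][X]} (hf : f.Monic) (hsq : Squarefree f) :
    ∃ (a b : ℤ[X][X]) (c : ℤ[X]), c ≠ 0 ∧ a * f + b * derivative f = C c := by
  obtain ⟨f1, k, h1, h2, h3, h4⟩ := exists_rad f hf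
  by_cases hk : k = 0
  · subst hk
    rw [pow_zero] at h3
    have h5 : f = 1 := hf.isUnit_iff.1 (isUnit_of_dvd_one h3)
    refine ⟨1, 0, 1, one_ne_zero, ?_⟩
    rw [h5]
    simp
  · have h5 : f ∣ f1 := (hsq.dvd_pow_iff_dvd hk).1 h3
    have h6 : f = f1 := eq_of_monic_of_associated hf h1 (associated_of_dvd_dvd h5 h2)
    rw [h6]
    exact h4

theorem disc_entry {f : ℤ[X][X]} {d m B : ℕ} (hd : f.natDegree = d) (hd1 : 1 ≤ d)
    (hB : Bd f m B) (i j : Fin (d + (d - 1))) :
    (sylvester f (derivative f) d (d - 1) i j).natDegree ≤ m ∧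
      ∀ k, |(sylvester f (derivative f) d (d - 1) i j).coeff k| ≤ ((d * B : ℕ) : ℤ) := by
  have hdB : (B : ℤ) ≤ ((d * B : ℕ) : ℤ) := by
    exact_mod_cast Nat.le_mul_of_pos_left B hd1
  have h0 : (0 : ℤ[X]).natDegree ≤ m ∧ ∀ k, |(0 : ℤ[X]).coeff k| ≤ ((d * B : ℕ) : ℤ) := by
    constructor
    · simp
    · intro k
      rw [coeff_zero, abs_zero]
      exact Int.natCast_nonneg _
  have h1 : ∀ l, ((derivative f).coeff l).natDegree ≤ m ∧
      ∀ k, |((derivative f).coeff l).coeff k| ≤ ((d * B : ℕ) : ℤ) := by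
    intro l
    by_cases hl : d < l + 1
    · rw [coeff_derivative, coeff_eq_zero_of_natDegree_lt (by omega), zero_mul]
      exact h0
    · have h2 : (derivative f).coeff l = C ((l : ℤ) + 1) * f.coeff (l + 1) := by
        rw [coeff_derivative, mul_comm]
        congr 1
        simp
      rw [h2]
      constructor
      · exact (natDegree_C_mul_le _ _).trans (hB.deg (l + 1))
      · intro k
        rw [coeff_C_mul, abs_mul]
        have h3 := hB.le (l + 1) k
        have h4 : |((l : ℤ) + 1)| ≤ (d : ℤ) := by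
          rw [abs_of_nonneg (by positivity)]
          omega
        push_cast
        exact mul_le_mul h4 h3 (abs_nonneg _) (Int.natCast_nonneg _)
  have h2 : ∀ l, (f.coeff l).natDegree ≤ m ∧
      ∀ k, |(f.coeff l).coeff k| ≤ ((d * B : ℕ) : ℤ) := fun l =>
    ⟨hB.deg l, fun k => (hB.le l k).trans hdB⟩
  induction j using Fin.addCases with
  | left j =>
    simp only [sylvester, Matrix.of_apply, Fin.addCases_left]
    split_ifs
    · exact h1 _
    · exact h0
  | right j =>
    simp only [sylvester, Matrix.of_apply, Fin.addCases_right]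
    split_ifs
    · exact h2 _
    · exact h0

theorem disc_bd {f : ℤ[X][X]} {d m B : ℕ} (hf : f.Monic) (hd : f.natDegree = d) (hd1 : 1 ≤ d)
    (hB : Bd f m B) (hB1 : 1 ≤ B) (hsq : Squarefree f) :
    ∃ (a b : ℤ[X][X]) (c : ℤ[X]), c ≠ 0 ∧ a * f + b * derivative f = C c ∧
      c.natDegree ≤ 2 * d * m ∧
      ∀ i, |c.coeff i| ≤ (((2 * d).factorial * ((m + 1) * (d * B)) ^ (2 * d) : ℕ) : ℤ) := by
  have hfd : (derivative f).natDegree ≤ d - 1 := by
    rw [← hd]
    exact natDegree_derivative_le f
  obtain ⟨p, q, _, _, hpq⟩ := exists_mul_add_mul_eq_C_resultant (m := d) (n := d - 1) f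
    (derivative f) hd.le hfd (Or.inl (by omega))
  have hbase : 1 ≤ (m + 1) * (d * B) := Nat.one_le_iff_ne_zero.2 (by positivity)
  refine ⟨p, q, resultant f (derivative f) d (d - 1), ?_, ?_, ?_, ?_⟩
  · obtain ⟨a, b, c0, hc0, hbez⟩ := sqf_bez hf hsq
    let L := FractionRing ℤ[X]
    have hinj : Function.Injective (algebraMap ℤ[X] L) := IsFractionRing.injective ℤ[X] L
    have hchar : CharZero L := charZero_of_injective_algebraMap hinj
    intro h0
    have h1 : (f.map (algebraMap ℤ[X] L)).natDegree = d := by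
      rw [hf.natDegree_map, hd]
    have h2 : (derivative (f.map (algebraMap ℤ[X] L))).natDegree = d - 1 := by
      rw [natDegree_derivative, h1]
    have h3 : IsCoprime (f.map (algebraMap ℤ[X] L)) (derivative (f.map (algebraMap ℤ[X] L))) := by
      refine ⟨C (algebraMap ℤ[X] L c0)⁻¹ * a.map (algebraMap ℤ[X] L),
        C (algebraMap ℤ[X] L c0)⁻¹ * b.map (algebraMap ℤ[X] L), ?_⟩
      have h4 := congrArg (Polynomial.map (algebraMap ℤ[X] L)) hbez
      rw [Polynomial.map_add, Polynomial.map_mul, Polynomial.map_mul, Polynomial.map_C,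
        ← derivative_map] at h4
      have h5 : algebraMap ℤ[X] L c0 ≠ 0 := by
        intro h6
        exact hc0 (hinj (by rw [h6, map_zero]))
      rw [mul_assoc, mul_assoc, ← mul_add, h4, ← C_mul, inv_mul_cancel₀ h5, C_1]
    have h4 := resultant_ne_zero _ _ h3
    apply h4
    rw [h1, h2, derivative_map, resultant_map_map, h0, map_zero]
  · rw [mul_comm p, mul_comm q]
    exact hpq
  · rw [resultant, Matrix.det_apply']
    apply natDegree_sum_le_of_forall_le
    intro σ _
    refine natDegree_mul_le.trans ?_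
    rw [natDegree_intCast, zero_add]
    refine ((prod_bd univ (fun i => sylvester f (derivative f) d (d - 1) (σ i) i) m (d * B)
      (fun i _ => (disc_entry hd hd1 hB (σ i) i).1)
      (fun i _ => (disc_entry hd hd1 hB (σ i) i).2)).1).trans ?_
    rw [Finset.card_univ, Fintype.card_fin]
    apply Nat.mul_le_mul_right
    omega
  · intro k
    rw [resultant, Matrix.det_apply', finsetSum_coeff]
    refine (Finset.abs_sum_le_sum_abs _ _).trans ?_
    refine (Finset.sum_le_card_nsmul _ _ ((((m + 1) * (d * B)) ^ (2 * d) : ℕ) : ℤ) ?_).trans ?_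
    · intro σ _
      have h1 := (prod_bd univ (fun i => sylvester f (derivative f) d (d - 1) (σ i) i) m (d * B)
        (fun i _ => (disc_entry hd hd1 hB (σ i) i).1)
        (fun i _ => (disc_entry hd hd1 hB (σ i) i).2)).2 k
      rw [Finset.card_univ, Fintype.card_fin] at h1
      have h2 : ((((m + 1) * (d * B)) ^ (d + (d - 1)) : ℕ) : ℤ) ≤
          ((((m + 1) * (d * B)) ^ (2 * d) : ℕ) : ℤ) := by
        exact_mod_cast Nat.pow_le_pow_right hbase (by omega)
      refine le_trans (le_of_eq ?_) (h1.trans h2)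
      rcases Int.units_eq_one_or (Equiv.Perm.sign σ) with h3 | h3
      · rw [h3]
        simp
      · rw [h3]
        simp
    · rw [Finset.card_univ, Fintype.card_perm, Fintype.card_fin, nsmul_eq_mul, Nat.cast_mul]
      apply mul_le_mul_of_nonneg_right _ (Int.natCast_nonneg _)
      exact_mod_cast Nat.factorial_le (by omega)

end Pool.Agent.H97.XC
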