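import Pool.Agent.H87.SA2.SCAM

/-! # [XC-NEAR] Explicit separability of the fibres

Proof. `near_zero_bd`: `t = a / N`, `0 < t ≤ 1 / (Hc + 2)`. With `μ = c.natTrailingDegree`,
`c(t) = t^μ (c_μ + ∑_(i > μ) c_i t^(i - μ))`, `|c_μ| ≥ 1`,
`|∑_(i > μ) c_i t^(i - μ)| ≤ Hc t / (1 - t) ≤ Hc / (Hc + 1) < 1`. Alternative: induction on the degree
using `c = X * c' + C (c 0)` (`divX`): if `c 0 = 0`, pass to `c'`; if `c 0 ≠ 0`,
`|c(t)| ≥ 1 - Hc t / (1 - t) > 0`.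
`exists_sepa_bd`: as `Pool.Agent.H87.SA2.exists_sepa` (`Pool/Agent/H87/SA2/SCAM.lean`), with
`near_zero_bd` instead of `near_zero`. -/

namespace Pool.Agent.H97.XC

open Finset Polynomial Pool.Agent.H87.SA2 Pool.Agent.H87.SA Pool.Agent.H97.GA

theorem near_split (c : ℤ[X]) (t : ℂ) : c.eval₂ (Int.castRingHom ℂ) t =
    c.divX.eval₂ (Int.castRingHom ℂ) t * t + ((c.coeff 0 : ℤ) : ℂ) := by
  conv_lhs => rw [← Polynomial.divX_mul_X_add c]
  rw [eval₂_add, eval₂_mul, eval₂_X, eval₂_C]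
  rfl

theorem near_upper (Hc : ℕ) (t : ℝ) (h0 : 0 < t) (h1 : t ≤ 1) : ∀ n : ℕ, ∀ c : ℤ[X],
    c.natDegree ≤ n → (∀ i, |c.coeff i| ≤ (Hc : ℤ)) →
      (1 - t) * ‖c.eval₂ (Int.castRingHom ℂ) (t : ℂ)‖ ≤ Hc := by
  intro n
  induction n with
  | zero =>
    intro c hn hle
    rw [Polynomial.eq_C_of_natDegree_le_zero hn, eval₂_C]
    have h2 : ‖(Int.castRingHom ℂ) (c.coeff 0)‖ ≤ Hc := by
      rw [eq_intCast, Complex.norm_intCast]
      have := hle 0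
      exact_mod_cast this
    have h3 := norm_nonneg ((Int.castRingHom ℂ) (c.coeff 0))
    nlinarith
  | succ n ih =>
    intro c hn hle
    have h4 := ih c.divX (by rw [Polynomial.natDegree_divX_eq_natDegree_tsub_one]; omega)
      (fun i => by rw [coeff_divX]; exact hle _)
    rw [near_split]
    have h2 : ‖((c.coeff 0 : ℤ) : ℂ)‖ ≤ Hc := by
      rw [Complex.norm_intCast]
      have := hle 0
      exact_mod_cast this
    have h5 : ‖c.divX.eval₂ (Int.castRingHom ℂ) (t : ℂ) * t + ((c.coeff 0 : ℤ) : ℂ)‖ ≤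
        ‖c.divX.eval₂ (Int.castRingHom ℂ) (t : ℂ)‖ * t + ‖((c.coeff 0 : ℤ) : ℂ)‖ := by
      refine (norm_add_le _ _).trans ?_
      rw [norm_mul, Complex.norm_real, Real.norm_of_nonneg h0.le]
    nlinarith [norm_nonneg (c.divX.eval₂ (Int.castRingHom ℂ) (t : ℂ)),
      norm_nonneg ((c.coeff 0 : ℤ) : ℂ)]

theorem near_aux (Hc : ℕ) (t : ℝ) (h0 : 0 < t) (h1 : t * (Hc + 2) ≤ 1) : ∀ n : ℕ, ∀ c : ℤ[X],
    c.natDegree ≤ n → c ≠ 0 → (∀ i, |c.coeff i| ≤ (Hc : ℤ)) →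
      c.eval₂ (Int.castRingHom ℂ) (t : ℂ) ≠ 0 := by
  intro n
  induction n with
  | zero =>
    intro c hn hc hle
    rw [Polynomial.eq_C_of_natDegree_le_zero hn] at hc ⊢
    rw [eval₂_C]
    intro h
    apply hc
    have h2 : ((c.coeff 0 : ℤ) : ℂ) = 0 := h
    rw [Int.cast_eq_zero.1 h2, C_0]
  | succ n ih =>
    intro c hn hc hle
    have hd : c.divX.natDegree ≤ n := by
      rw [Polynomial.natDegree_divX_eq_natDegree_tsub_one]; omega
    have hle' : ∀ i, |c.divX.coeff i| ≤ (Hc : ℤ) := fun i => by rw [coeff_divX]; exact hle _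
    rw [near_split]
    have ht : (t : ℂ) ≠ 0 := by exact_mod_cast h0.ne'
    by_cases hc0 : c.coeff 0 = 0
    · have h3 : c.divX ≠ 0 := by
        intro h
        apply hc
        rw [← Polynomial.divX_mul_X_add c, h, hc0]
        simp
      rw [hc0, Int.cast_zero, add_zero]
      exact mul_ne_zero (ih _ hd h3 hle') ht
    · have hHc : (0 : ℝ) ≤ Hc := Nat.cast_nonneg Hc
      have ht1 : t ≤ 1 := by nlinarith
      have h4 := near_upper Hc t h0 ht1 _ c.divX le_rfl hle'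
      intro h5
      have h6 : ‖((c.coeff 0 : ℤ) : ℂ)‖ = ‖c.divX.eval₂ (Int.castRingHom ℂ) (t : ℂ)‖ * t := by
        have h7 : ((c.coeff 0 : ℤ) : ℂ) = -(c.divX.eval₂ (Int.castRingHom ℂ) (t : ℂ) * t) := by
          linear_combination h5
        rw [h7, norm_neg, norm_mul, Complex.norm_real, Real.norm_of_nonneg h0.le]
      have h8 : (1 : ℝ) ≤ ‖((c.coeff 0 : ℤ) : ℂ)‖ := by
        rw [Complex.norm_intCast]
        exact_mod_cast Int.one_le_abs hc0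
      have h9 : t * (Hc + 1) < 1 := by nlinarith
      have h10 : (0 : ℝ) < 1 - t := by nlinarith
      nlinarith [norm_nonneg (c.divX.eval₂ (Int.castRingHom ℂ) (t : ℂ))]

theorem near_zero_bd {c : ℤ[X]} (hc : c ≠ 0) (Hc : ℕ) (hle : ∀ i, |c.coeff i| ≤ (Hc : ℤ))
    (a N : ℕ) (ha : 1 ≤ a) (hN : (Hc + 2) * a ≤ N) :
    c.eval₂ (Int.castRingHom ℂ) ((a : ℂ) * ((N : ℂ))⁻¹) ≠ 0 := by
  have haR : (0 : ℝ) < a := by exact_mod_cast ha
  have hNpos : 0 < N := lt_of_lt_of_le (Nat.mul_pos (by omega) (by omega)) hN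
  have hNR : (0 : ℝ) < N := by exact_mod_cast hNpos
  have hNa : ((Hc : ℝ) + 2) * a ≤ N := by exact_mod_cast hN
  have h1 : ((a : ℂ) * ((N : ℂ))⁻¹) = (((a : ℝ) * ((N : ℝ))⁻¹ : ℝ) : ℂ) := by
    push_cast
    rfl
  rw [h1]
  refine near_aux Hc _ (by positivity) ?_ _ c le_rfl hc hle
  rw [← div_eq_mul_inv, div_mul_eq_mul_div, div_le_one hNR]
  linarith

theorem exists_sepa_bd {f : ℤ[X][X]} {d m : ℕ} (hf : f.Monic) (hd : f.natDegree = d)
    (hm : ∀ j, (f.coeff j).natDegree ≤ m) (A B : ℤ[X][X]) (c : ℤ[X]) (hc : c ≠ 0)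
    (hbez : A * f + B * derivative f = C c) (Hc : ℕ) (hle : ∀ i, |c.coeff i| ≤ (Hc : ℤ))
    (a N : ℕ) (ha : 1 ≤ a) (hN : (Hc + 2) * a ≤ N) :
    ((gN d m (af (fsc f a)) N).map (Int.castRingHom ℂ)).Separable := by
  have hNpos : 0 < N := lt_of_lt_of_le (Nat.mul_pos (by omega) (by omega)) hN
  refine sep_at (fsc_monic hf a) ((fsc_deg hf a).trans hd) (fsc_mdeg hm a) _ _ _
    (fsc_bez hbez a) hNpos ?_
  have h2 := near_zero_bd hc Hc hle a N ha hN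
  have h3 : (sca a c).eval₂ (Int.castRingHom ℂ) ((N : ℂ))⁻¹ =
      c.eval₂ (Int.castRingHom ℂ) ((a : ℂ) * ((N : ℂ))⁻¹) := by
    rw [sca_apply, eval₂_comp, eval₂_mul, eval₂_C, eval₂_X]
    simp
  rw [h3]
  exact h2

end Pool.Agent.H97.XC
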