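import Pool.Agent.H97.XC.Pdx
import Pool.Agent.H97.XC.Disc
import Pool.Agent.H97.XC.Near
import Pool.Agent.H87.SA2.FINQ

/-! # [XC-FINX] Effective Siegel theorem over one-parameter families: explicit constants -/

namespace Pool.Agent.H97.XC

open Finset Polynomial Pool.Agent.H72.ES Pool.Agent.H8.KF Pool.Agent.H8.NoPt Pool.Agent.H87.SA
  Pool.Agent.H97.GA Pool.Agent.H97.AN Pool.Agent.H87.SA2

/-- the order up to which coefficients are used -/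
def sz (d m : ℕ) : ℕ := d.factorial * (2 * d * m + m)

/-- the height of the discriminant -/
def hc (d m B : ℕ) : ℕ := (2 * d).factorial * ((m + 1) * (d * B)) ^ (2 * d)

def K0x (d m : ℕ) : ℕ := KK (d.factorial * d.factorial) (kapR d m d.factorial)

def Kx (n d m : ℕ) : ℕ := 10 ^ 5 * n ^ 4 * K0x d m

def gx (d m : ℕ) : ℕ := gexR d m d.factorial (sz d m)

def Tx (n d m B : ℕ) : ℕ :=
  4 * CC d m B (sz d m) + (d * d.factorial + 1) + (sz d m * d.factorial + sz d m + 1) +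
    (16 * CC d m B (sz d m)) ^ Kx n d m

def C1x (n d m : ℕ) : ℕ :=
  2 * (n + 1) + ((2 * gx d m + 14 * n ^ 2 * (n + 1)) * (10 ^ 6 * n ^ 3 * K0x d m) +
    2 * (10 ^ 6 * n ^ 6 * K0x d m ^ 2))

theorem kapR_mono {d m e e' : ℕ} (h : e ≤ e') : kapR d m e ≤ kapR d m e' := by
  unfold kapR
  gcongr

theorem gexR_mono {d m e e' s : ℕ} (h : e ≤ e') : gexR d m e s ≤ gexR d m e' s := by
  unfold gexR
  have := kapR_mono (d := d) (m := m) h
  gcongr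

theorem KK_mono {D D' k k' : ℕ} (h : D ≤ D') (h' : k ≤ k') : KK D k ≤ KK D' k' := by
  unfold KK
  gcongr

/-- the case of arrays -/
theorem one_sqfx (f : ℤ[X][X]) (hf : f.Monic) {d m B : ℕ} (hd : f.natDegree = d) (hd1 : 1 ≤ d)
    (hB : Bd f m B) (hB1 : 1 ≤ B) (hsq : Squarefree f) (n nu : ℕ) (hn : 4 ≤ n)
    (hnu : ∀ g : (PowerSeries ℚ)[X], g.Monic → Irreducible g → g ∣ fQ f → RealRoot g →
      3 * g.natDegree ≤ nu)
    (a N : ℕ) (ha : 1 ≤ a) (hNa : (hc d m B + 2) * a ≤ N)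
    (hNq : CC d m B (sz d m) ≤ N) (hN2 : 2 ≤ N)
    (hNT : (Tx n d m B * a ^ (Kx n d m + 1)) ^ d.factorial ≤ N)
    (G : ℕ → ℕ → ℤ) (haG : G 0 n ≠ 0) (hirr : Irreducible (leadQ n G))
    (hγ : ∃ γ : AdjoinRoot (leadQ n G), aeval γ (fiba f a N) = 0 ∧ nu ≤ (minpoly ℚ γ).natDegree)
    (H : ℕ) (hH1 : 1 ≤ H) (hGH : ∀ i j, i + j ≤ n → |G i j| ≤ (H : ℤ)) (x y : ℤ)
    (hz : ev n G x y = 0) : ((max |x| |y| : ℤ) : ℝ) ≤ ((N : ℝ) * H) ^ C1x n d m := by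
  obtain ⟨b1, b2, c, hc0, hbez, hcdeg, hcle⟩ := disc_bd hf hd hd1 hB hB1 hsq
  obtain ⟨pd, hpe, hpq, hpR, hps⟩ := exists_pdata_bd f hf (s := sz d m) hd hd1 hB hB1 b1 b2 c hc0
    hbez (by unfold sz; gcongr)
  have he := pd.e_pos
  have hq := pd.q_pos
  have hR := pd.R_ge
  obtain ⟨K0, hK0⟩ : ∃ K0, K0 = KK (pd.e * d.factorial) (kapR d m pd.e) := ⟨_, rfl⟩
  have hK0x : K0 ≤ K0x d m := by
    rw [hK0]
    exact KK_mono (Nat.mul_le_mul_right _ hpe) (kapR_mono hpe)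
  obtain ⟨g0, hg0⟩ : ∃ g0, g0 = gexR d m pd.e (sz d m) := ⟨_, rfl⟩
  have hg0x : g0 ≤ gx d m := by
    rw [hg0]
    exact gexR_mono hpe
  obtain ⟨K, hK⟩ : ∃ K : ℕ, K = 10 ^ 5 * n ^ 4 * K0 := ⟨_, rfl⟩
  have hKx : K ≤ Kx n d m := by
    rw [hK]
    exact Nat.mul_le_mul_left _ hK0x
  obtain ⟨T, hT⟩ : ∃ T : ℕ, T = Tx n d m B := ⟨_, rfl⟩
  have hqN : pd.q ≤ N := by
    have h1 : pd.q ≤ CC d m B (sz d m) := by exact_mod_cast hpq
    exact h1.trans hNq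
  obtain ⟨γ, hγ0, hγ3⟩ := hγ
  have hN1 : 1 ≤ N := by omega
  have hN1R : (1 : ℝ) ≤ N := by exact_mod_cast hN1
  have haR : (1 : ℝ) ≤ a := by exact_mod_cast ha
  have hq1R : (1 : ℝ) ≤ pd.q := by exact_mod_cast hq
  have hT1 : 1 ≤ T := by
    rw [hT]
    unfold Tx
    omega
  have hTR : (1 : ℝ) ≤ T := by exact_mod_cast hT1
  have hTN : (T * a ^ (Kx n d m + 1)) ^ pd.e ≤ N := by
    rw [hT]
    refine le_trans (Nat.pow_le_pow_right ?_ hpe) hNT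
    rw [← hT]
    exact Nat.mul_pos hT1 (Nat.pow_pos ha)
  obtain ⟨pd', he', hq', hR', hs'⟩ := exists_scale pd ha
  obtain ⟨X0, hX0def⟩ : ∃ X0 : ℝ, X0 = (pd.q : ℝ) * (N : ℝ) ^ ((pd.e : ℝ)⁻¹) := ⟨_, rfl⟩
  have hroot : (1 : ℝ) ≤ (N : ℝ) ^ ((pd.e : ℝ)⁻¹) := Real.one_le_rpow hN1R (by positivity)
  have hX1 : 1 ≤ X0 := by
    rw [hX0def]
    exact one_le_mul_of_one_le_of_one_le hq1R hroot
  have hpow : X0 ^ pd.e = ((pd.q ^ pd.e * N : ℕ) : ℝ) := by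
    rw [hX0def, mul_pow, Real.rpow_inv_natCast_pow (by positivity) (by omega)]
    push_cast
    ring
  have hXT : (T : ℝ) * (a : ℝ) ^ (Kx n d m + 1) ≤ X0 := by
    refine le_of_pow_le_pow_left₀ (n := pd.e) (by omega) (by positivity) ?_
    rw [hpow]
    have h1 : (T * a ^ (Kx n d m + 1)) ^ pd.e ≤ pd.q ^ pd.e * N :=
      hTN.trans (Nat.le_mul_of_pos_left _ (by positivity))
    exact_mod_cast h1
  have hXN : X0 ≤ (N : ℝ) ^ 2 := by
    refine le_of_pow_le_pow_left₀ (n := pd.e) (by omega) (by positivity) ?_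
    rw [hpow]
    have h1 : pd.q ^ pd.e * N ≤ (N ^ 2) ^ pd.e := by
      calc pd.q ^ pd.e * N ≤ N ^ pd.e * N ^ pd.e :=
            Nat.mul_le_mul (Nat.pow_le_pow_left hqN _) (Nat.le_self_pow (by omega) N)
        _ = (N ^ 2) ^ pd.e := by rw [← mul_pow, sq]
    exact_mod_cast h1
  have hCC0 : (0 : ℝ) ≤ (CC d m B (sz d m) : ℝ) := Nat.cast_nonneg _
  have hRC : (16 * pd.R) ^ K ≤ ((16 : ℝ) * (CC d m B (sz d m) : ℝ)) ^ Kx n d m := by
    calc (16 * pd.R) ^ K ≤ (16 * (CC d m B (sz d m) : ℝ)) ^ K := by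
          refine pow_le_pow_left₀ (by linarith) (by linarith) _
      _ ≤ _ := pow_le_pow_right₀ (by linarith) hKx
  have hTsum : 4 * pd.R + ((d * d.factorial + 1 : ℕ) : ℝ) +
      ((sz d m * d.factorial + sz d m + 1 : ℕ) : ℝ) + (16 * pd.R) ^ K ≤ (T : ℝ) := by
    have h1 : (T : ℝ) = 4 * (CC d m B (sz d m) : ℝ) + ((d * d.factorial + 1 : ℕ) : ℝ) +
        ((sz d m * d.factorial + sz d m + 1 : ℕ) : ℝ) +
          (16 * (CC d m B (sz d m) : ℝ)) ^ Kx n d m := by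
      rw [hT]
      unfold Tx
      push_cast
      ring
    rw [h1]
    linarith
  have hR0 : (0 : ℝ) ≤ (16 * pd.R) ^ K := by positivity
  have hn1 : (0 : ℝ) ≤ ((d * d.factorial + 1 : ℕ) : ℝ) := Nat.cast_nonneg _
  have hn2 : (0 : ℝ) ≤ ((sz d m * d.factorial + sz d m + 1 : ℕ) : ℝ) := Nat.cast_nonneg _
  have haK : (1 : ℝ) ≤ (a : ℝ) ^ (Kx n d m + 1) := one_le_pow₀ haR
  have hT0 : (0 : ℝ) ≤ T := Nat.cast_nonneg _
  have hTX : (T : ℝ) ≤ X0 := by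
    calc (T : ℝ) = T * 1 := (mul_one _).symm
      _ ≤ T * (a : ℝ) ^ (Kx n d m + 1) := by gcongr
      _ ≤ X0 := hXT
  have haT : (a : ℝ) * T ≤ X0 := by
    calc (a : ℝ) * T = T * (a : ℝ) ^ 1 := by ring
      _ ≤ T * (a : ℝ) ^ (Kx n d m + 1) :=
          mul_le_mul_of_nonneg_left (pow_le_pow_right₀ haR (by omega)) hT0
      _ ≤ X0 := hXT
  have haKT : (a : ℝ) ^ K * T ≤ X0 := by
    calc (a : ℝ) ^ K * T = T * (a : ℝ) ^ K := by ring
      _ ≤ T * (a : ℝ) ^ (Kx n d m + 1) :=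
          mul_le_mul_of_nonneg_left (pow_le_pow_right₀ haR (by omega)) hT0
      _ ≤ X0 := hXT
  have hyp : RHyp (fsc f a) d m pd' N X0 :=
    { monic := fsc_monic hf a
      deg := (fsc_deg hf a).trans hd
      d1 := hd1
      mdeg := fsc_mdeg hB.deg a
      N1 := hN1
      X1 := hX1
      pow := by rw [he', hq']; exact hpow
      big := by
        rw [hR']
        have h1 : 4 * pd.R ≤ T := by linarith
        calc 4 * ((a : ℝ) * pd.R) = (a : ℝ) * (4 * pd.R) := by ring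
          _ ≤ (a : ℝ) * T := by gcongr
          _ ≤ X0 := haT
      sep := exists_sepa_bd hf hd hB.deg b1 b2 c hc0 hbez (hc d m B) (fun i => hcle i) a N ha hNa }
  have hXR' : (16 * pd'.R) ^ (10 ^ 5 * n ^ 4 * KK (pd'.e * d.factorial) (kapR d m pd'.e)) ≤ X0 := by
    rw [he', hR', ← hK0, ← hK]
    have h1 : (16 * pd.R) ^ K ≤ T := by linarith
    calc (16 * ((a : ℝ) * pd.R)) ^ K = (a : ℝ) ^ K * (16 * pd.R) ^ K := by
          rw [← mul_pow]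
          congr 1
          ring
      _ ≤ (a : ℝ) ^ K * T := by gcongr
      _ ≤ X0 := haKT
  set H' := max 2 H with hH'
  have hmain := one_array hn hyp (hs' (sz d m) hps) (by linarith) (by linarith) hXR'
    (hnu_fsc hnu ha) G haG hirr γ (by rw [fsc_fib]; exact hγ0)
    hγ3 H' (le_max_left _ _) (fun i j hij => (hGH i j hij).trans (by exact_mod_cast le_max_right 2 H))
    x y hz
  rw [he', ← hK0, ← hg0] at hmain
  have hP1 : 1 ≤ N * H := Nat.mul_pos hN1 hH1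
  have hH'P : H' ≤ N * H := by
    refine max_le ?_ ?_
    · exact hN2.trans (Nat.le_mul_of_pos_right _ hH1)
    · exact Nat.le_mul_of_pos_left _ hN1
  have hNP : (N : ℝ) ≤ ((N * H : ℕ) : ℝ) := by exact_mod_cast Nat.le_mul_of_pos_right _ hH1
  have hXP : X0 ≤ (((N * H : ℕ) : ℝ)) ^ 2 := hXN.trans (pow_le_pow_left₀ (by positivity) hNP 2)
  have hnum := one_num (n := n) (K0 := K0) (gx := g0) hX1 hXP hP1 hH'P (le_max_left 2 H)
  refine hmain.trans (hnum.trans ?_)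
  have hP1R : (1 : ℝ) ≤ ((N * H : ℕ) : ℝ) := by exact_mod_cast hP1
  have h3 : ((N * H : ℕ) : ℝ) = (N : ℝ) * H := by push_cast; ring
  rw [← h3]
  refine pow_le_pow_right₀ hP1R ?_
  unfold C1x
  gcongr

end Pool.Agent.H97.XC
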