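import Pool.Agent.H97.XC.Defs
import Pool.Agent.H87.SA2.PERM

/-! # [XC-EQVA] The leading coefficients are permuted by the embeddings

Proof. `gk_map`: `taylor`, `trunc` (`PowerSeries.trunc_map`), `coeff`, products commute with ring
homomorphisms (`Polynomial.map_taylor` or `taylor_apply` and `Polynomial.map_comp`).
`SS_map`: `τ` is injective. `leadc_map`: by both.
`perm_xi`: `Pool.Agent.H87.SA2.perm_aux` (`Pool/Agent/H87/SA2/PERM.lean`) with `φ = tKq K e q`,
`τ = PowerSeries.map τ`, `ι = PowerSeries.map σ0` (`(PowerSeries.map τ).comp (tKq K e q) =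
tKq ℂ e q`: `Polynomial.ringHom_ext`). `eqv_leadc`: for `τ` take this `π`:
`τ (leadc P k (ξ i)) = leadc (P.map τ) k (ξ i mapped by τ) = leadc (P.map σ0) k (ξ (π i) mapped by
σ0) = σ0 (leadc P k (ξ (π i)))`, since `P.map (PowerSeries.map τ) = P.map (PowerSeries.map σ0)` for
`P = f.map (tKq K e q)`. -/

namespace Pool.Agent.H97.XC

open Finset Polynomial

theorem gk_map {K L : Type*} [CommRing K] [CommRing L] (τ : K →+* L) (P : (PowerSeries K)[X])
    (k : ℕ) (x : PowerSeries K) (μ j : ℕ) :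
    τ (gk P k x μ j) = gk (P.map (PowerSeries.map τ)) k (PowerSeries.map τ x) μ j := by
  unfold gk
  have h1 : ((PowerSeries.trunc k (PowerSeries.map τ x) : L[X]) : PowerSeries L) =
      PowerSeries.map τ ((PowerSeries.trunc k x : K[X]) : PowerSeries K) := by
    ext n
    rw [Polynomial.coeff_coe, PowerSeries.coeff_trunc, PowerSeries.coeff_map,
      PowerSeries.coeff_map, Polynomial.coeff_coe, PowerSeries.coeff_trunc]
    split_ifs
    · rfl
    · rw [map_zero]
  have h2 : taylor (PowerSeries.map τ ((PowerSeries.trunc k x : K[X]) : PowerSeries K))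
      (P.map (PowerSeries.map τ)) =
      (taylor ((PowerSeries.trunc k x : K[X]) : PowerSeries K) P).map (PowerSeries.map τ) := by
    rw [taylor_apply, taylor_apply, Polynomial.map_comp, Polynomial.map_add, Polynomial.map_X,
      Polynomial.map_C]
  rw [h1, h2, Polynomial.coeff_map, ← PowerSeries.coeff_map, map_mul, map_pow, PowerSeries.map_X]

theorem SS_map {K L : Type*} [Field K] [Field L] (τ : K →+* L) (P : (PowerSeries K)[X])
    (k : ℕ) (x : PowerSeries K) :
    SS (P.map (PowerSeries.map τ)) k (PowerSeries.map τ x) = SS P k x := by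
  ext p
  unfold SS
  show gk (P.map (PowerSeries.map τ)) k (PowerSeries.map τ x) p.1 p.2 ≠ 0 ↔ gk P k x p.1 p.2 ≠ 0
  rw [← gk_map]
  exact (map_ne_zero τ)

theorem leadc_map {K L : Type*} [Field K] [Field L] (τ : K →+* L) (P : (PowerSeries K)[X])
    (k : ℕ) (x : PowerSeries K) :
    τ (leadc P k x) = leadc (P.map (PowerSeries.map τ)) k (PowerSeries.map τ x) := by
  unfold leadc
  rw [gk_map, SS_map]

theorem map_tKq {K L : Type*} [CommRing K] [CommRing L] (τ : K →+* L) (e q : ℕ) :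
    (PowerSeries.map τ).comp (tKq K e q) = tKq L e q := by
  apply Polynomial.ringHom_ext
  · intro a
    simp [tKq]
  · simp [tKq]

/-- the embeddings permute the expansions -/
theorem perm_xi {K : Type*} [Field K] (σ0 : K →+* ℂ) {d : ℕ} (f : ℤ[X][X]) (e q : ℕ)
    (ξ : Fin d → PowerSeries K) (hξ : Function.Injective ξ)
    (hs : f.map (tKq K e q) = ∏ i, (X - C (ξ i))) (τ : K →+* ℂ) :
    ∃ π : Equiv.Perm (Fin d), ∀ i, PowerSeries.map τ (ξ i) = PowerSeries.map σ0 (ξ (π i)) :=
  Pool.Agent.H87.SA2.perm_aux (tKq K e q) (PowerSeries.map τ) (PowerSeries.map σ0)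
    (by rw [map_tKq, map_tKq]) (PowerSeries.map_injective τ τ.injective) ξ hξ f hs

theorem eqv_leadc {K : Type*} [Field K] (σ0 : K →+* ℂ) {d : ℕ} (f : ℤ[X][X]) (e q : ℕ)
    (ξ : Fin d → PowerSeries K) (hξ : Function.Injective ξ)
    (hs : f.map (tKq K e q) = ∏ i, (X - C (ξ i))) (k : ℕ) :
    Eqv σ0 (fun i => leadc (f.map (tKq K e q)) k (ξ i)) := by
  intro τ
  obtain ⟨π, hπ⟩ := perm_xi σ0 f e q ξ hξ hs τ
  refine ⟨π, fun i => ?_⟩
  show τ (leadc (f.map (tKq K e q)) k (ξ i)) = σ0 (leadc (f.map (tKq K e q)) k (ξ (π i)))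
  rw [leadc_map, leadc_map, hπ, Polynomial.map_map, Polynomial.map_map, map_tKq, map_tKq]

end Pool.Agent.H97.XC
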