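import Pool.Agent.H97.XC.Defs

/-! # [XC-TAYB] Bounds and integrality of the Taylor coefficients of a polynomial over power series

Proof. `tb_pow`: induction on `n`: `coeff μ (p * p^n) = ∑_(a + b = μ) p_a (p^n)_b`
(`PowerSeries.coeff_mul`, antidiagonal), only `a < k` contribute, each `≤ H (k H)^n`.
`n = 0`: the coefficients of `1` are `0` or `1`.
`(taylor p P).coeff j = ∑_(l ≤ d) P_l * (p ^ (l - j) * (l.choose j))` (`taylor_coeff`,
`hasseDeriv`, or `taylor p P = ∑ C (P_l) (X + C p)^l` and `Polynomial.coeff_X_add_C_pow`); this is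
`taylor_coeff_sum` below. `tb_taylor`: `coeff μ (P_l * r)` has at most `M + 1` terms, each
`≤ B * 2^d * (k H)^(l - j) ≤ B * (2 (1 + k H))^d`.
`ti_taylor`: `q^d * (P_l p^(l - j)) = P_l q^(d - (l - j)) (q p)^(l - j)`; the power series with
integral coefficients are closed under sums and products (`IsIntegral.add`, `IsIntegral.mul`,
`IsIntegral.sum`, `PowerSeries.coeff_mul`). -/

namespace Pool.Agent.H97.XC

open Finset Polynomial Pool.Agent.H72.ES

theorem sm_sum {R : Type*} [CommRing R] {ν : R → ℝ} (hν : SubMul ν) {ι : Type*} (s : Finset ι)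
    (f : ι → R) : ν (∑ i ∈ s, f i) ≤ ∑ i ∈ s, ν (f i) := by
  classical
  induction s using Finset.induction_on with
  | empty => simp [hν.zero]
  | insert a s ha ih =>
    rw [sum_insert ha, sum_insert ha]
    exact (hν.add _ _).trans (by linarith)

theorem tb_pow {R : Type*} [CommRing R] {ν : R → ℝ} (hν : SubMul ν) (p : PowerSeries R) (k : ℕ)
    {H : ℝ} (hH : 0 ≤ H) (hp0 : ∀ j, k ≤ j → PowerSeries.coeff j p = 0)
    (hp : ∀ j, ν (PowerSeries.coeff j p) ≤ H) (n μ : ℕ) :
    ν (PowerSeries.coeff μ (p ^ n)) ≤ (k * H) ^ n := by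
  induction n generalizing μ with
  | zero =>
    rw [pow_zero, pow_zero, PowerSeries.coeff_one]
    split_ifs
    · exact hν.one
    · rw [hν.zero]; exact zero_le_one
  | succ n ih =>
    rw [pow_succ', PowerSeries.coeff_mul]
    refine (sm_sum hν _ _).trans ?_
    have hkH : 0 ≤ ((k : ℝ) * H) ^ n := by positivity
    have h1 : ∀ x ∈ antidiagonal μ, ν (PowerSeries.coeff x.1 p * PowerSeries.coeff x.2 (p ^ n)) ≤
        if x.1 < k then H * ((k : ℝ) * H) ^ n else 0 := by
      intro x _
      split_ifs with hx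
      · exact (hν.mul _ _).trans (mul_le_mul (hp _) (ih _) (hν.nonneg _) hH)
      · rw [hp0 _ (by omega), zero_mul, hν.zero]
    refine (sum_le_sum h1).trans ?_
    rw [← sum_filter, sum_const, nsmul_eq_mul]
    have h2 : (((antidiagonal μ).filter fun x => x.1 < k).card : ℝ) ≤ k := by
      have : ((antidiagonal μ).filter fun x => x.1 < k).card ≤ (range k).card := by
        refine card_le_card_of_injOn (fun x => x.1) ?_ ?_
        · intro x hx
          simp only [coe_filter, HasAntidiagonal.mem_antidiagonal, Set.mem_ofPred_eq] at hx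
          simpa using hx.2
        · intro x hx y hy hxy
          simp only [coe_filter, HasAntidiagonal.mem_antidiagonal, Set.mem_ofPred_eq] at hx hy
          simp only at hxy
          ext
          · exact hxy
          · omega
      rw [card_range] at this
      exact_mod_cast this
    calc (((antidiagonal μ).filter fun x => x.1 < k).card : ℝ) * (H * ((k : ℝ) * H) ^ n)
        ≤ k * (H * ((k : ℝ) * H) ^ n) := mul_le_mul_of_nonneg_right h2 (by positivity)
      _ = ((k : ℝ) * H) ^ (n + 1) := by ring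

theorem taylor_coeff_sum {R : Type*} [CommRing R] (P : R[X]) (d : ℕ) (hd : P.natDegree ≤ d)
    (p : R) (j : ℕ) :
    (taylor p P).coeff j = ∑ l ∈ range (d + 1), P.coeff l * (p ^ (l - j) * (l.choose j : R)) := by
  have h0 : taylor p P = ∑ l ∈ range (d + 1), C (P.coeff l) * (X + C p) ^ l := by
    rw [taylor_apply, Polynomial.comp, eval₂_eq_sum_range' C (Nat.lt_succ_of_le hd)]
  rw [h0, finsetSum_coeff]
  refine sum_congr rfl fun l _ => ?_
  rw [coeff_C_mul, coeff_X_add_C_pow]

theorem tb_taylor {R : Type*} [CommRing R] {ν : R → ℝ} (hν : SubMul ν) (P : (PowerSeries R)[X])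
    (d M : ℕ) (hd : P.natDegree ≤ d) {B : ℝ} (hB : 0 ≤ B)
    (hP0 : ∀ j i, M < i → PowerSeries.coeff i (P.coeff j) = 0)
    (hP : ∀ j i, ν (PowerSeries.coeff i (P.coeff j)) ≤ B)
    (p : PowerSeries R) (k : ℕ) {H : ℝ} (hH : 0 ≤ H)
    (hp0 : ∀ j, k ≤ j → PowerSeries.coeff j p = 0)
    (hp : ∀ j, ν (PowerSeries.coeff j p) ≤ H) (j μ : ℕ) :
    ν (PowerSeries.coeff μ ((taylor p P).coeff j)) ≤
      ((d : ℝ) + 1) * (M + 1) * B * (2 * (1 + k * H)) ^ d := by
  rw [taylor_coeff_sum P d hd p j, map_sum]
  refine (sm_sum hν _ _).trans ?_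
  have hkH : (0 : ℝ) ≤ k * H := by positivity
  have hterm : ∀ l ∈ range (d + 1), ν (PowerSeries.coeff μ
      (P.coeff l * (p ^ (l - j) * (l.choose j : PowerSeries R)))) ≤
      ((M : ℝ) + 1) * (B * (2 * (1 + k * H)) ^ d) := by
    intro l hl
    rw [mem_range] at hl
    have hr : ∀ i, ν (PowerSeries.coeff i (p ^ (l - j) * (l.choose j : PowerSeries R))) ≤
        (2 * (1 + k * H)) ^ d := by
      intro i
      have e1 : PowerSeries.coeff i (p ^ (l - j) * (l.choose j : PowerSeries R)) =
          PowerSeries.coeff i (p ^ (l - j)) * (l.choose j : R) := by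
        rw [← map_natCast (PowerSeries.C (R := R)), PowerSeries.coeff_mul_C]
      rw [e1]
      refine (hν.mul_natCast _ _).trans ?_
      have h1 := tb_pow hν p k hH hp0 hp (l - j) i
      have h2 : ((l.choose j : ℕ) : ℝ) ≤ 2 ^ d := by
        have : l.choose j ≤ 2 ^ l := Nat.choose_le_two_pow l j
        have h3 : 2 ^ l ≤ 2 ^ d := Nat.pow_le_pow_right (by norm_num) (by omega)
        exact_mod_cast this.trans h3
      have h4 : ((k : ℝ) * H) ^ (l - j) ≤ (1 + k * H) ^ d := by
        calc ((k : ℝ) * H) ^ (l - j) ≤ (1 + k * H) ^ (l - j) :=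
              pow_le_pow_left₀ hkH (by linarith) _
          _ ≤ (1 + k * H) ^ d := pow_le_pow_right₀ (by linarith) (by omega)
      calc ((l.choose j : ℕ) : ℝ) * ν (PowerSeries.coeff i (p ^ (l - j)))
          ≤ 2 ^ d * (1 + k * H) ^ d :=
            mul_le_mul h2 (h1.trans h4) (hν.nonneg _) (by positivity)
        _ = (2 * (1 + k * H)) ^ d := by rw [mul_pow]
    rw [PowerSeries.coeff_mul]
    refine (sm_sum hν _ _).trans ?_
    have h1 : ∀ x ∈ antidiagonal μ, ν (PowerSeries.coeff x.1 (P.coeff l) *
        PowerSeries.coeff x.2 (p ^ (l - j) * (l.choose j : PowerSeries R))) ≤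
        if x.1 < M + 1 then B * (2 * (1 + k * H)) ^ d else 0 := by
      intro x _
      split_ifs with hx
      · exact (hν.mul _ _).trans (mul_le_mul (hP _ _) (hr _) (hν.nonneg _) hB)
      · rw [hP0 _ _ (by omega), zero_mul, hν.zero]
    refine (sum_le_sum h1).trans ?_
    rw [← sum_filter, sum_const, nsmul_eq_mul]
    have h2 : (((antidiagonal μ).filter fun x => x.1 < M + 1).card : ℝ) ≤ (M : ℝ) + 1 := by
      have : ((antidiagonal μ).filter fun x => x.1 < M + 1).card ≤ (range (M + 1)).card := by
        refine card_le_card_of_injOn (fun x => x.1) ?_ ?_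
        · intro x hx
          simp only [coe_filter, HasAntidiagonal.mem_antidiagonal, Set.mem_ofPred_eq] at hx
          simpa using hx.2
        · intro x hx y hy hxy
          simp only [coe_filter, HasAntidiagonal.mem_antidiagonal, Set.mem_ofPred_eq] at hx hy
          simp only at hxy
          ext
          · exact hxy
          · omega
      rw [card_range] at this
      exact_mod_cast this
    exact mul_le_mul_of_nonneg_right h2 (by positivity)
  refine (sum_le_sum hterm).trans ?_
  rw [sum_const, card_range, nsmul_eq_mul]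
  push_cast
  exact le_of_eq (by ring)

/-- all coefficients are integral -/
def CI {K : Type*} [CommRing K] (r : PowerSeries K) : Prop := ∀ i, IsIntegral ℤ (PowerSeries.coeff i r)

theorem CI.mul {K : Type*} [CommRing K] {r s : PowerSeries K} (hr : CI r) (hs : CI s) :
    CI (r * s) := by
  intro i
  rw [PowerSeries.coeff_mul]
  exact IsIntegral.sum _ fun x _ => (hr _).mul (hs _)

theorem CI.one {K : Type*} [CommRing K] : CI (1 : PowerSeries K) := by
  intro i
  rw [PowerSeries.coeff_one]
  split_ifs
  · exact isIntegral_one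
  · exact isIntegral_zero

theorem CI.pow {K : Type*} [CommRing K] {r : PowerSeries K} (hr : CI r) (n : ℕ) : CI (r ^ n) := by
  induction n with
  | zero => rw [pow_zero]; exact CI.one
  | succ n ih => rw [pow_succ]; exact ih.mul hr

theorem CI.natCast {K : Type*} [CommRing K] (n : ℕ) : CI (n : PowerSeries K) := by
  intro i
  rw [← map_natCast (PowerSeries.C (R := K)), PowerSeries.coeff_C]
  split_ifs
  · exact_mod_cast isIntegral_algebraMap (R := ℤ) (A := K) (x := (n : ℤ))
  · exact isIntegral_zero

theorem CI.sum {K : Type*} [CommRing K] {ι : Type*} (s : Finset ι) (f : ι → PowerSeries K)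
    (h : ∀ i ∈ s, CI (f i)) : CI (∑ i ∈ s, f i) := by
  intro i
  rw [map_sum]
  exact IsIntegral.sum _ fun x hx => h x hx i

theorem ti_taylor {K : Type*} [CommRing K] (P : (PowerSeries K)[X]) (d : ℕ)
    (hd : P.natDegree ≤ d) (hP : ∀ j i, IsIntegral ℤ (PowerSeries.coeff i (P.coeff j)))
    (p : PowerSeries K) (q : ℕ) (hp : ∀ j, IsIntegral ℤ ((q : K) * PowerSeries.coeff j p))
    (j μ : ℕ) :
    IsIntegral ℤ ((q : K) ^ d * PowerSeries.coeff μ ((taylor p P).coeff j)) := by
  have e0 : (q : K) ^ d * PowerSeries.coeff μ ((taylor p P).coeff j) =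
      PowerSeries.coeff μ ((q : PowerSeries K) ^ d * (taylor p P).coeff j) := by
    rw [← map_natCast (PowerSeries.C (R := K)), ← map_pow, PowerSeries.coeff_C_mul]
  rw [e0, taylor_coeff_sum P d hd p j, mul_sum]
  have hqp : CI ((q : PowerSeries K) * p) := by
    intro i
    rw [← map_natCast (PowerSeries.C (R := K)), PowerSeries.coeff_C_mul]
    exact hp i
  refine CI.sum _ _ (fun l hl => ?_) μ
  rw [mem_range] at hl
  have e1 : (q : PowerSeries K) ^ d * (P.coeff l * (p ^ (l - j) * (l.choose j : PowerSeries K))) =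
      P.coeff l * ((q : PowerSeries K) ^ (d - (l - j)) * (((q : PowerSeries K) * p) ^ (l - j) *
        (l.choose j : PowerSeries K))) := by
    have h2 : (q : PowerSeries K) ^ d = (q : PowerSeries K) ^ (d - (l - j)) *
        (q : PowerSeries K) ^ (l - j) := by
      rw [← pow_add]
      congr 1
      omega
    rw [h2, mul_pow]
    ring
  rw [e1]
  exact CI.mul (fun i => hP l i) ((CI.natCast q).pow _ |>.mul ((hqp.pow _).mul (CI.natCast _)))

end Pool.Agent.H97.XC
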