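import Pool.Agent.H97.XC.Defs

/-! # [XC-TQ] The coefficients of `f(t, X)`, `t = (q T)^e`

Proof. `tKq K e q p = ∑_i p_i q^(e i) T^(e i)` (`eval₂_eq_sum_range`). -/

namespace Pool.Agent.H97.XC

open Finset Polynomial

theorem tq_pow {K : Type*} [CommRing K] (e q i : ℕ) :
    ((PowerSeries.C (q : K) * PowerSeries.X) ^ e) ^ i =
      PowerSeries.C ((q : K) ^ (e * i)) * (PowerSeries.X : PowerSeries K) ^ (e * i) := by
  rw [← pow_mul, mul_pow, map_pow]

theorem tq_monomial {K : Type*} [CommRing K] (e q : ℕ) (he : 1 ≤ e) (i : ℕ) (a : ℤ) (k : ℕ) :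
    PowerSeries.coeff k (tKq K e q (monomial i a)) =
      if e ∣ k then (q : K) ^ k * ((monomial i a : ℤ[X]).coeff (k / e) : K) else 0 := by
  have h1 : tKq K e q (monomial i a) =
      PowerSeries.C ((a : K) * (q : K) ^ (e * i)) * (PowerSeries.X : PowerSeries K) ^ (e * i) := by
    unfold tKq
    rw [coe_eval₂RingHom, eval₂_monomial, tq_pow, map_mul, ← mul_assoc]
    congr 2
    simp
  rw [h1, PowerSeries.coeff_C_mul, PowerSeries.coeff_X_pow, coeff_monomial]
  by_cases hk : k = e * i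
  · subst hk
    have h2 : e * i / e = i := Nat.mul_div_cancel_left i (by omega)
    rw [if_pos rfl, if_pos (Dvd.intro i rfl), h2, if_pos rfl]
    ring
  · rw [if_neg hk, mul_zero]
    split_ifs with h3 h4
    · exfalso
      apply hk
      rw [h4, Nat.mul_div_cancel' h3]
    · simp
    · rfl

theorem tKq_coeff {K : Type*} [CommRing K] (e q : ℕ) (he : 1 ≤ e) (p : ℤ[X]) (k : ℕ) :
    PowerSeries.coeff k (tKq K e q p) =
      if e ∣ k then (q : K) ^ k * (p.coeff (k / e) : K) else 0 := by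
  induction p using Polynomial.induction_on' with
  | add p r hp hr =>
    rw [map_add, map_add, hp, hr, coeff_add]
    split_ifs
    · push_cast
      ring
    · ring
  | monomial i a => exact tq_monomial e q he i a k

/-- degree in `T` -/
theorem tKq_zero {K : Type*} [CommRing K] {f : ℤ[X][X]} {m B e q : ℕ} (hB : Bd f m B)
    (he : 1 ≤ e) (j i : ℕ) (hi : e * m < i) :
    PowerSeries.coeff i ((f.map (tKq K e q)).coeff j) = 0 := by
  rw [coeff_map, tKq_coeff e q he]
  split_ifs with h1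
  · obtain ⟨c, rfl⟩ := h1
    have h2 : m < c := lt_of_mul_lt_mul_left hi (Nat.zero_le e)
    rw [Nat.mul_div_cancel_left c (by omega : 0 < e),
      coeff_eq_zero_of_natDegree_lt (lt_of_le_of_lt (hB.deg j) h2)]
    simp
  · rfl

/-- integrality -/
theorem tKq_int {K : Type*} [CommRing K] (f : ℤ[X][X]) (e q : ℕ) (he : 1 ≤ e) (j i : ℕ) :
    IsIntegral ℤ (PowerSeries.coeff i ((f.map (tKq K e q)).coeff j)) := by
  rw [coeff_map, tKq_coeff e q he]
  split_ifs with h1
  · have h2 : (q : K) ^ i * ((f.coeff j).coeff (i / e) : K) =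
        algebraMap ℤ K ((q : ℤ) ^ i * (f.coeff j).coeff (i / e)) := by
      rw [eq_intCast]
      push_cast
      rfl
    rw [h2]
    exact isIntegral_algebraMap
  · exact isIntegral_zero

/-- size -/
theorem tKq_le {f : ℤ[X][X]} {m B e q : ℕ} (hB : Bd f m B) (he : 1 ≤ e) (hq : 1 ≤ q)
    {K : Type*} [Field K] (σ0 : K →+* ℂ) (j i : ℕ) :
    ‖σ0 (PowerSeries.coeff i ((f.map (tKq K e q)).coeff j))‖ ≤ (B : ℝ) * (q : ℝ) ^ (e * m) := by
  have h0 : (0 : ℝ) ≤ (B : ℝ) * (q : ℝ) ^ (e * m) := by positivity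
  by_cases hi : e * m < i
  · rw [tKq_zero hB he j i hi, map_zero, norm_zero]
    exact h0
  · rw [coeff_map, tKq_coeff e q he]
    split_ifs with h1
    · have h2 : σ0 ((q : K) ^ i * ((f.coeff j).coeff (i / e) : K)) =
          (q : ℂ) ^ i * (((f.coeff j).coeff (i / e) : ℤ) : ℂ) := by
        rw [map_mul, map_pow, map_natCast, map_intCast]
      have h3 : ‖(((f.coeff j).coeff (i / e) : ℤ) : ℂ)‖ ≤ (B : ℝ) := by
        rw [Complex.norm_intCast]
        exact_mod_cast hB.le j (i / e)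
      have h4 : (q : ℝ) ^ i ≤ (q : ℝ) ^ (e * m) :=
        pow_le_pow_right₀ (by exact_mod_cast hq) (by omega)
      rw [h2, norm_mul, norm_pow, Complex.norm_natCast, mul_comm]
      exact mul_le_mul h3 h4 (by positivity) (by positivity)
    · rw [map_zero, norm_zero]
      exact h0

end Pool.Agent.H97.XC
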