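import Pool.Agent.H97.XC.Liou
import Pool.Agent.H97.XC.TayB
import Pool.Agent.H97.XC.EqvA
import Pool.Agent.H97.XC.Tq

/-! # [XC-DEL] The leading coefficient of the derivative at the roots

Proof. `P = f.map (tKq K e q)`, `Dv i = P'(ξ i)` (`derivative P` evaluated at `ξ i`). Put
`S i = {k | coeff k (Dv i) ≠ 0}` and let `mn S` be its least element (`sInf`; `Nat.sInf_mem`);
`os i = sInf (S i) ≤ s`, `dl i = coeff (os i) (Dv i)`.
Equivariance: `PowerSeries.map τ (Dv i) = (P mapped by τ)'(τ ξ i) = PowerSeries.map σ0 (Dv (π i))`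
(`perm_xi`, `P` is mapped to the same polynomial by `τ` and `σ0`), so `S (π i) = S i` (`τ`, `σ0`
injective), `os (π i) = os i`, `τ (dl i) = σ0 (dl (π i))`.
Integrality and size: with `p = trunc (s + 1) (ξ i)`, `T^(s+1) ∣ P'(ξ i) - P'(p)`
(`Polynomial.sub_dvd_eval_sub`, `T^(s+1) ∣ ξ i - p`), so `dl i = coeff (os i) (P'(p))` and
`P'(p) = (taylor p P).coeff 1` (`taylor_coeff_one`). Apply `ti_taylor` with `q := 1` and
`tb_taylor` with `ν a = ‖σ0 a‖`, `M = e m`, `B := B q^(e m)`, `k := s + 1`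
(`tKq_zero`, `tKq_int`, `tKq_le`). Then `fam_liou` (`1 ≤ A2`). -/

namespace Pool.Agent.H97.XC

open Finset Polynomial Pool.Agent.H72.ES

/-- the value of the derivative at a root, mapped by an embedding -/
theorem del_map {K : Type*} [Field K] (τ : K →+* ℂ) (f : ℤ[X][X]) (e q : ℕ) (x : PowerSeries K) :
    PowerSeries.map τ ((derivative (f.map (tKq K e q))).eval x) =
      (derivative (f.map (tKq ℂ e q))).eval (PowerSeries.map τ x) := by
  have h1 : (derivative (f.map (tKq K e q))).map (PowerSeries.map τ) =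
      derivative (f.map (tKq ℂ e q)) := by
    rw [← Polynomial.derivative_map, Polynomial.map_map, map_tKq]
  rw [← h1, Polynomial.eval_map_apply]

theorem del_trunc {K : Type*} [Field K] (P : (PowerSeries K)[X]) (x : PowerSeries K) (s k : ℕ)
    (hk : k ≤ s) :
    PowerSeries.coeff k ((derivative P).eval x) =
      PowerSeries.coeff k ((taylor ((PowerSeries.trunc (s + 1) x : K[X]) : PowerSeries K) P).coeff
        1) := by
  rw [taylor_coeff_one]
  have h1 : (PowerSeries.X : PowerSeries K) ^ (s + 1) ∣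
      x - ((PowerSeries.trunc (s + 1) x : K[X]) : PowerSeries K) := by
    rw [PowerSeries.X_pow_dvd_iff]
    intro j hj
    rw [map_sub, Polynomial.coeff_coe, PowerSeries.coeff_trunc, if_pos hj, sub_self]
  have h2 := h1.trans (Polynomial.sub_dvd_eval_sub x
    ((PowerSeries.trunc (s + 1) x : K[X]) : PowerSeries K) (derivative P))
  rw [PowerSeries.X_pow_dvd_iff] at h2
  have h3 := h2 k (by omega)
  rw [map_sub, sub_eq_zero] at h3
  exact h3

theorem del_submul {K : Type*} [Field K] (σ0 : K →+* ℂ) : SubMul (fun a : K => ‖σ0 a‖) where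
  nonneg := fun a => norm_nonneg _
  zero := by rw [map_zero, norm_zero]
  neg := fun a => by rw [map_neg, norm_neg]
  add := fun a b => by rw [map_add]; exact norm_add_le _ _
  mul := fun a b => by rw [map_mul, norm_mul]
  one := by rw [map_one, norm_one]

theorem exists_delta {K : Type*} [Field K] [CharZero K] {σ0 : K →+* ℂ} (hfix : Fixd σ0)
    {f : ℤ[X][X]} {d m B e q : ℕ} {ξ : Fin d → PowerSeries K} (D : Dat σ0 f d m B e q ξ)
    (hB : 1 ≤ B) (s : ℕ)
    (hord : ∀ i, ∃ k ≤ s, PowerSeries.coeff k ((derivative (f.map (tKq K e q))).eval (ξ i)) ≠ 0)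
    {H : ℝ} (hH : 1 ≤ H) (hint : ∀ i, ∀ j ≤ s, IsIntegral ℤ (PowerSeries.coeff j (ξ i)))
    (hle : ∀ i, ∀ j ≤ s, ‖σ0 (PowerSeries.coeff j (ξ i))‖ ≤ H) {A2 : ℝ}
    (hA2 : A2 = ((d : ℝ) + 1) * (((e * m : ℕ) : ℝ) + 1) * (B * (q : ℝ) ^ (e * m)) *
      (2 * (1 + ((s + 1 : ℕ) : ℝ) * H)) ^ d) :
    ∃ (os : Fin d → ℕ) (N : ℕ), 1 ≤ N ∧ (N : ℝ) ≤ A2 ^ d ∧ ∀ i, os i ≤ s ∧
      (∀ k < os i, PowerSeries.coeff k ((derivative (f.map (tKq K e q))).eval (ξ i)) = 0) ∧
      PowerSeries.coeff (os i) ((derivative (f.map (tKq K e q))).eval (ξ i)) ≠ 0 ∧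
      IsIntegral ℤ ((N : K) *
        (PowerSeries.coeff (os i) ((derivative (f.map (tKq K e q))).eval (ξ i)))⁻¹) ∧
      ‖σ0 (PowerSeries.coeff (os i) ((derivative (f.map (tKq K e q))).eval (ξ i)))‖ ≤ A2 ∧
      ‖(σ0 (PowerSeries.coeff (os i) ((derivative (f.map (tKq K e q))).eval (ξ i))))⁻¹‖ ≤
        A2 ^ d := by
  classical
  have hex : ∀ i, ∃ k, PowerSeries.coeff k ((derivative (f.map (tKq K e q))).eval (ξ i)) ≠ 0 :=
    fun i => by
      obtain ⟨k, _, hk⟩ := hord i
      exact ⟨k, hk⟩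
  have hspec : ∀ i, PowerSeries.coeff (Nat.find (hex i))
      ((derivative (f.map (tKq K e q))).eval (ξ i)) ≠ 0 := fun i => Nat.find_spec (hex i)
  have hmin : ∀ i k, PowerSeries.coeff k ((derivative (f.map (tKq K e q))).eval (ξ i)) ≠ 0 →
      Nat.find (hex i) ≤ k := fun i k hk => Nat.find_min' (hex i) hk
  have hos : ∀ i, Nat.find (hex i) ≤ s := by
    intro i
    obtain ⟨k, hk, hk'⟩ := hord i
    exact (hmin i k hk').trans hk
  -- the embeddings permute the leading coefficients
  have heqv : Eqv σ0 (fun i => PowerSeries.coeff (Nat.find (hex i))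
      ((derivative (f.map (tKq K e q))).eval (ξ i))) := by
    intro τ
    obtain ⟨π, hπ⟩ := perm_xi σ0 f e q ξ D.inj D.split τ
    refine ⟨π, fun i => ?_⟩
    have h1 : ∀ k, τ (PowerSeries.coeff k ((derivative (f.map (tKq K e q))).eval (ξ i))) =
        σ0 (PowerSeries.coeff k ((derivative (f.map (tKq K e q))).eval (ξ (π i)))) := by
      intro k
      have h2 := del_map τ f e q (ξ i)
      have h3 := del_map σ0 f e q (ξ (π i))
      rw [hπ i, ← h3] at h2
      have h4 := congrArg (PowerSeries.coeff k) h2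
      rw [PowerSeries.coeff_map, PowerSeries.coeff_map] at h4
      exact h4
    have h2 : Nat.find (hex (π i)) = Nat.find (hex i) := by
      apply le_antisymm
      · apply hmin
        intro h3
        have h4 := h1 (Nat.find (hex i))
        rw [h3, map_zero] at h4
        exact hspec i ((map_eq_zero τ).1 h4)
      · apply hmin
        intro h3
        have h4 := h1 (Nat.find (hex (π i)))
        rw [h3, map_zero] at h4
        exact hspec (π i) ((map_eq_zero σ0).1 h4.symm)
    change τ (PowerSeries.coeff (Nat.find (hex i))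
      ((derivative (f.map (tKq K e q))).eval (ξ i))) =
      σ0 (PowerSeries.coeff (Nat.find (hex (π i)))
        ((derivative (f.map (tKq K e q))).eval (ξ (π i))))
    rw [h2]
    exact h1 _
  have hdeg : (f.map (tKq K e q)).natDegree ≤ d := by
    rw [← D.deg]
    exact natDegree_map_le
  have hpc : ∀ i j, PowerSeries.coeff j
      ((PowerSeries.trunc (s + 1) (ξ i) : K[X]) : PowerSeries K) =
      if j < s + 1 then PowerSeries.coeff j (ξ i) else 0 := by
    intro i j
    rw [Polynomial.coeff_coe, PowerSeries.coeff_trunc]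
  -- integrality
  have hI : ∀ i, IsIntegral ℤ (PowerSeries.coeff (Nat.find (hex i))
      ((derivative (f.map (tKq K e q))).eval (ξ i))) := by
    intro i
    rw [del_trunc _ _ s _ (hos i)]
    have h1 := ti_taylor (f.map (tKq K e q)) d hdeg (fun j k => tKq_int f e q D.e1 j k)
      ((PowerSeries.trunc (s + 1) (ξ i) : K[X]) : PowerSeries K) 1
      (by
        intro j
        rw [hpc i j, Nat.cast_one, one_mul]
        split_ifs with hj
        · exact hint i j (by omega)
        · exact isIntegral_zero) 1 (Nat.find (hex i))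
    rwa [Nat.cast_one, one_pow, one_mul] at h1
  -- size
  have hS : ∀ i, ‖σ0 (PowerSeries.coeff (Nat.find (hex i))
      ((derivative (f.map (tKq K e q))).eval (ξ i)))‖ ≤ A2 := by
    intro i
    rw [del_trunc _ _ s _ (hos i), hA2]
    exact tb_taylor (del_submul σ0) (f.map (tKq K e q)) d (e * m) hdeg (by positivity)
      (fun j k hk => tKq_zero D.bd D.e1 j k hk) (fun j k => tKq_le D.bd D.e1 D.q1 σ0 j k)
      ((PowerSeries.trunc (s + 1) (ξ i) : K[X]) : PowerSeries K) (s + 1) (by linarith)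
      (by
        intro j hj
        rw [hpc i j, if_neg (by omega)])
      (by
        intro j
        change ‖σ0 (PowerSeries.coeff j
          ((PowerSeries.trunc (s + 1) (ξ i) : K[X]) : PowerSeries K))‖ ≤ H
        rw [hpc i j]
        split_ifs with hj
        · exact hle i j (by omega)
        · rw [map_zero, norm_zero]
          linarith) 1 (Nat.find (hex i))
  have hA1 : 1 ≤ A2 := by
    have h1 : (1 : ℝ) ≤ (d : ℝ) + 1 := by
      have : (0 : ℝ) ≤ d := Nat.cast_nonneg d
      linarith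
    have h2 : (1 : ℝ) ≤ ((e * m : ℕ) : ℝ) + 1 := by
      have : (0 : ℝ) ≤ ((e * m : ℕ) : ℝ) := Nat.cast_nonneg _
      linarith
    have h3 : (1 : ℝ) ≤ B * (q : ℝ) ^ (e * m) := by
      have hB' : (1 : ℝ) ≤ B := by exact_mod_cast hB
      have hq' : (1 : ℝ) ≤ q := by exact_mod_cast D.q1
      exact one_le_mul_of_one_le_of_one_le hB' (one_le_pow₀ hq')
    have h4 : (1 : ℝ) ≤ (2 * (1 + ((s + 1 : ℕ) : ℝ) * H)) ^ d := by
      apply one_le_pow₀
      have : (0 : ℝ) ≤ ((s + 1 : ℕ) : ℝ) * H :=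
        mul_nonneg (Nat.cast_nonneg _) (by linarith)
      linarith
    rw [hA2]
    exact one_le_mul_of_one_le_of_one_le (one_le_mul_of_one_le_of_one_le
      (one_le_mul_of_one_le_of_one_le h1 h2) h3) h4
  obtain ⟨N, hN1, hN2, hN3, hN4⟩ := fam_liou σ0 hfix _ hspec hI heqv hA1 hS
  refine ⟨fun i => Nat.find (hex i), N, hN1, hN2, fun i => ⟨hos i, ?_, hspec i, hN3 i, hS i,
    hN4 i⟩⟩
  intro k hk
  by_contra h
  exact absurd (hmin i k h) (not_le.2 hk)

end Pool.Agent.H97.XC
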