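import Pool.Agent.H97.XC.Defs
import Mathlib.FieldTheory.Galois.Infinite
import Mathlib.FieldTheory.IsAlgClosed.AlgebraicClosure
import Mathlib.Analysis.Complex.Polynomial.Basic

/-! # [XC-FIX] The elements of the algebraic closure of `ℚ` fixed by all embeddings

Proof. `K = AlgebraicClosure ℚ` is Galois over `ℚ` (characteristic `0`, normal; instance
`IsAlgClosure.isGalois` or similar). For `g : K ≃ₐ[ℚ] K` the embedding `τ = σ0 ∘ g` gives
`σ0 (g z) = σ0 z`, so `g z = z`; `InfiniteGalois.mem_bot_iff_fixed` (or the fixing subgroup) gives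
`z ∈ ⊥`, i.e. `z = algebraMap ℚ K r` (`IntermediateField.mem_bot`).
The general field `k` avoids the two `ℚ`-algebra structures on the algebraic closure. -/

namespace Pool.Agent.H97.XC

theorem fix_gen (k : Type*) [Field k] [CharZero k] (σ0 : AlgebraicClosure k →+* ℂ)
    (z : AlgebraicClosure k) (hz : ∀ τ : AlgebraicClosure k →+* ℂ, τ z = σ0 z) :
    ∃ r : k, algebraMap k (AlgebraicClosure k) r = z := by
  have hfix : ∀ g : Gal(AlgebraicClosure k/k), g z = z := fun g =>
    σ0.injective (hz (σ0.comp (g : AlgebraicClosure k →+* AlgebraicClosure k)))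
  exact (InfiniteGalois.mem_range_algebraMap_iff_fixed (k := k) z).2 hfix

theorem fix_qbar (σ0 : AlgebraicClosure ℚ →+* ℂ) : Fixd σ0 := by
  intro z hz
  obtain ⟨r, hr⟩ := fix_gen ℚ σ0 z hz
  exact ⟨r, by rw [← hr]; exact eq_ratCast _ r⟩

end Pool.Agent.H97.XC
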