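import Pool.Agent.H97.XC.Step

/-! # [XC-IND] Explicit bounds for the first coefficients

Proof. Induction on `k ≤ s + 1`. `k = 0`: `q = 1`. Step: `q` and `H = S = L^(E_k)`,
`L = LL d m B e s`, `E_k = (14 d^2)^k`, from the induction hypothesis; `step` gives `N`; the new
denominator is `q N` (all old multiples stay integral). Sizes: `(d + 1)(e m + 1) B ≤ L`,
`2 (1 + k H) ≤ 4 (s + 1) S ≤ L S` (as `k ≤ s`, `1 ≤ S`), so
`A1 ≤ S^d L (L S)^d ≤ (L S)^(2 d + 1) ≤ (L S)^(3 d)`,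
`q N ≤ S (L S)^(3 d^2) ≤ (L S)^(7 d^2)`, `1 + d A1^(d + 1) ≤ 2 d (L S)^(6 d^2) ≤ (L S)^(7 d^2)`,
and `(L S)^(7 d^2) = L^((1 + E_k) 7 d^2) ≤ L^(14 d^2 E_k) = L^(E_(k+1))`. -/

namespace Pool.Agent.H97.XC

open Finset Polynomial Pool.Agent.H72.ES

/-- the numerics of one step -/
theorem ind_num {d k s q : ℕ} {L S A1 w : ℝ} (hd : 1 ≤ d) (hk : k ≤ s) (hL1 : 1 ≤ L)
    (hS : 1 ≤ S) (hqS : (q : ℝ) ≤ S) (hw0 : 0 ≤ w) (hw : w ≤ L) (hs : 2 * ((s : ℝ) + 1) ≤ L)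
    (hd2 : 2 * (d : ℝ) ≤ L) (hA1 : A1 = (q : ℝ) ^ d * (w * (2 * (1 + k * S)) ^ d)) :
    (∀ N : ℕ, (N : ℝ) ≤ A1 ^ d → (q : ℝ) * N ≤ (L * S) ^ (7 * d ^ 2)) ∧
      1 + d * A1 ^ (d + 1) ≤ (L * S) ^ (7 * d ^ 2) := by
  have hq0 : (0 : ℝ) ≤ q := Nat.cast_nonneg q
  have hk0 : (0 : ℝ) ≤ k := Nat.cast_nonneg k
  have hd1 : (1 : ℝ) ≤ d := by exact_mod_cast hd
  have hks : (k : ℝ) ≤ s := by exact_mod_cast hk
  have hLS : 1 ≤ L * S := one_le_mul_of_one_le_of_one_le hL1 hS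
  have hL0 : 0 ≤ L := by linarith
  have hS0 : 0 ≤ S := by linarith
  have hLLS : L ≤ L * S := le_mul_of_one_le_right hL0 hS
  have hSLS : S ≤ L * S := le_mul_of_one_le_left hS0 hL1
  have hkS : 2 * (1 + k * S) ≤ L * S := by
    have h1 : 2 * (1 + k * S) ≤ 2 * ((s : ℝ) + 1) * S := by nlinarith
    exact h1.trans (mul_le_mul_of_nonneg_right hs hS0)
  have hkS0 : 0 ≤ 2 * (1 + k * S) := by positivity
  have hA0 : 0 ≤ A1 := by rw [hA1]; positivity
  have hA : A1 ≤ (L * S) ^ (3 * d) := by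
    calc A1 ≤ S ^ d * (L * (L * S) ^ d) := by
          rw [hA1]
          refine mul_le_mul (pow_le_pow_left₀ hq0 hqS d) ?_ (by positivity) (by positivity)
          exact mul_le_mul hw (pow_le_pow_left₀ hkS0 hkS d) (by positivity) hL0
      _ ≤ (L * S) ^ d * ((L * S) * (L * S) ^ d) := by
          refine mul_le_mul (pow_le_pow_left₀ hS0 hSLS d) ?_ (by positivity) (by positivity)
          exact mul_le_mul_of_nonneg_right hLLS (by positivity)
      _ = (L * S) ^ (2 * d + 1) := by ring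
      _ ≤ (L * S) ^ (3 * d) := pow_le_pow_right₀ hLS (by omega)
  have hdd : d ≤ d ^ 2 := by nlinarith
  have hdd1 : 1 ≤ d ^ 2 := Nat.one_le_pow _ _ hd
  constructor
  · intro N hN
    have h1 : (N : ℝ) ≤ (L * S) ^ (3 * d ^ 2) := by
      refine hN.trans ?_
      refine (pow_le_pow_left₀ hA0 hA d).trans (le_of_eq ?_)
      rw [← pow_mul]
      congr 1
      ring
    calc (q : ℝ) * N ≤ (L * S) * (L * S) ^ (3 * d ^ 2) :=
          mul_le_mul (hqS.trans hSLS) h1 (Nat.cast_nonneg N) (by positivity)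
      _ = (L * S) ^ (3 * d ^ 2 + 1) := by ring
      _ ≤ _ := pow_le_pow_right₀ hLS (by omega)
  · have h1 : A1 ^ (d + 1) ≤ (L * S) ^ (6 * d ^ 2) := by
      refine (pow_le_pow_left₀ hA0 hA (d + 1)).trans ?_
      rw [← pow_mul]
      refine pow_le_pow_right₀ hLS ?_
      nlinarith
    have h2 : 1 ≤ (L * S) ^ (6 * d ^ 2) := one_le_pow₀ hLS
    calc 1 + d * A1 ^ (d + 1) ≤ 2 * d * (L * S) ^ (6 * d ^ 2) := by nlinarith
      _ ≤ (L * S) * (L * S) ^ (6 * d ^ 2) :=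
          mul_le_mul_of_nonneg_right (hd2.trans hLLS) (by positivity)
      _ = (L * S) ^ (6 * d ^ 2 + 1) := by ring
      _ ≤ _ := pow_le_pow_right₀ hLS (by omega)

/-- the exponents of one step -/
theorem ind_exp {d k : ℕ} {L : ℝ} (hd : 1 ≤ d) (hL1 : 1 ≤ L) :
    (L * L ^ ((14 * d ^ 2) ^ k)) ^ (7 * d ^ 2) ≤ L ^ ((14 * d ^ 2) ^ (k + 1)) := by
  have h1 : 1 ≤ (14 * d ^ 2) ^ k := by
    refine Nat.one_le_pow _ _ ?_
    positivity
  rw [← pow_succ', ← pow_mul]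
  refine pow_le_pow_right₀ hL1 ?_
  calc ((14 * d ^ 2) ^ k + 1) * (7 * d ^ 2) ≤
      ((14 * d ^ 2) ^ k + (14 * d ^ 2) ^ k) * (7 * d ^ 2) :=
        Nat.mul_le_mul_right _ (Nat.add_le_add_left h1 _)
    _ = (14 * d ^ 2) ^ (k + 1) := by
        rw [pow_succ (14 * d ^ 2) k]
        ring

/-- the size of `LL` -/
theorem ind_LL {d m B e s : ℕ} (hd : 1 ≤ d) :
    1 ≤ LL d m B e s ∧ (d + 1) * (e * m + 1) * B ≤ LL d m B e s ∧
      2 * (s + 1) ≤ LL d m B e s ∧ 2 * d ≤ LL d m B e s := by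
  unfold LL
  have a1 : 1 ≤ (e * m + 1) := by omega
  have a2 : 1 ≤ B + 1 := by omega
  have a3 : 1 ≤ s + 1 := by omega
  have a4 : 1 ≤ d + 1 := by omega
  refine ⟨?_, ?_, ?_, ?_⟩
  · exact Nat.succ_le_of_lt (by positivity)
  · calc (d + 1) * (e * m + 1) * B ≤ (d + 1) * (e * m + 1) * (B + 1) :=
          Nat.mul_le_mul_left _ (by omega)
      _ = 1 * ((d + 1) * (e * m + 1) * (B + 1)) * 1 := by ring
      _ ≤ (4 * d) * ((d + 1) * (e * m + 1) * (B + 1)) * (s + 1) :=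
          Nat.mul_le_mul (Nat.mul_le_mul_right _ (by omega)) a3
      _ = _ := by ring
  · calc 2 * (s + 1) = 2 * 1 * (s + 1) := by ring
      _ ≤ (4 * d) * ((d + 1) * (e * m + 1) * (B + 1)) * (s + 1) := by
          refine Nat.mul_le_mul_right _ (Nat.mul_le_mul (by omega) ?_)
          exact Nat.succ_le_of_lt (by positivity)
      _ = _ := by ring
  · calc 2 * d = 2 * d * 1 := by ring
      _ ≤ (4 * d) * ((d + 1) * (e * m + 1) * (B + 1) * (s + 1)) := by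
          refine Nat.mul_le_mul (by omega) ?_
          exact Nat.succ_le_of_lt (by positivity)
      _ = _ := by ring

theorem coef_bd {K : Type*} [Field K] [CharZero K] {σ0 : K →+* ℂ} (hfix : Fixd σ0)
    {f : ℤ[X][X]} {d m B e : ℕ} {ξ : Fin d → PowerSeries K} (D : Dat σ0 f d m B e 1 ξ)
    (hB : 1 ≤ B) (s k : ℕ) (hk : k ≤ s + 1) :
    ∃ q : ℕ, 1 ≤ q ∧ (q : ℝ) ≤ (LL d m B e s : ℝ) ^ ((14 * d ^ 2) ^ k) ∧
      (∀ i, ∀ j < k, IsIntegral ℤ ((q : K) * PowerSeries.coeff j (ξ i))) ∧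
      ∀ i, ∀ j < k, ‖σ0 (PowerSeries.coeff j (ξ i))‖ ≤
        (LL d m B e s : ℝ) ^ ((14 * d ^ 2) ^ k) := by
  have hd := D.d1
  obtain ⟨l1, l2, l3, l4⟩ := ind_LL (m := m) (B := B) (e := e) (s := s) hd
  set Ln := LL d m B e s with hLn
  have hL1 : (1 : ℝ) ≤ (Ln : ℝ) := by exact_mod_cast l1
  induction k with
  | zero =>
    refine ⟨1, le_rfl, ?_, fun i j hj => absurd hj (Nat.not_lt_zero j),
      fun i j hj => absurd hj (Nat.not_lt_zero j)⟩
    rw [pow_zero, pow_one, Nat.cast_one]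
    exact hL1
  | succ k ih =>
    obtain ⟨q, hq1, hqle, hint, hle⟩ := ih (by omega)
    set S : ℝ := (Ln : ℝ) ^ ((14 * d ^ 2) ^ k) with hS
    have hS1 : 1 ≤ S := one_le_pow₀ hL1
    obtain ⟨N, hN1, hNle, hNint, hNnorm⟩ := step hfix D hB k q hq1 hS1 hint hle rfl
    have hnum := ind_num (d := d) (k := k) (s := s) (q := q) (L := (Ln : ℝ)) (S := S)
      (w := ((d : ℝ) + 1) * (((e * m : ℕ) : ℝ) + 1) * B) hd (by omega) hL1 hS1 hqle
      (by positivity) (by exact_mod_cast l2) (by exact_mod_cast l3) (by exact_mod_cast l4) rfl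
    have hexp := ind_exp (d := d) (k := k) (L := (Ln : ℝ)) hd hL1
    have hSS : S ≤ (Ln : ℝ) ^ ((14 * d ^ 2) ^ (k + 1)) := by
      rw [hS]
      refine pow_le_pow_right₀ hL1 (Nat.pow_le_pow_right ?_ (Nat.le_succ k))
      positivity
    refine ⟨q * N, Nat.mul_pos hq1 hN1, ?_, ?_, ?_⟩
    · rw [Nat.cast_mul]
      exact (hnum.1 N hNle).trans hexp
    · intro i j hj
      rw [Nat.cast_mul]
      rcases Nat.lt_succ_iff_lt_or_eq.1 hj with h | h
      · have h1 : (q : K) * (N : K) * PowerSeries.coeff j (ξ i) =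
            (N : K) * ((q : K) * PowerSeries.coeff j (ξ i)) := by ring
        rw [h1]
        exact (isIntegral_algebraMap (R := ℤ) (A := K) (x := (N : ℤ)) |> fun h => by
          simpa using h : IsIntegral ℤ (N : K)).mul (hint i j h)
      · have h1 : (q : K) * (N : K) * PowerSeries.coeff j (ξ i) =
            (q : K) * ((N : K) * PowerSeries.coeff j (ξ i)) := by ring
        rw [h1, h]
        exact (isIntegral_algebraMap (R := ℤ) (A := K) (x := (q : ℤ)) |> fun h => by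
          simpa using h : IsIntegral ℤ (q : K)).mul (hNint i)
    · intro i j hj
      rcases Nat.lt_succ_iff_lt_or_eq.1 hj with h | h
      · exact (hle i j h).trans hSS
      · rw [h]
        exact (hNnorm i).trans (hnum.2.trans hexp)

end Pool.Agent.H97.XC
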