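import Pool.Agent.H97.XC.Tq

/-! # [XC-ORD] The order of the derivative at the roots

Proof. `P = f.map (tKq K e q)`, `P.eval (ξ i) = 0` (`D.split`). Map `hbez` by `tKq K e q` and
evaluate at `ξ i`: `b(ξ i) * P'(ξ i) = tKq K e q c`, whose coefficient at `e * c.natDegree` is
`q^(..) * c.leadingCoeff ≠ 0` (`tKq_coeff`); if all `coeff k (P'(ξ i))`, `k ≤ e * c.natDegree`, were
`0`, this coefficient would be `0` (`PowerSeries.coeff_mul`, or `X_pow_dvd_iff`).
`sep_bd`: if `i ≠ j`: `ξ i - ξ j ∣ P'(ξ i)` (`P = (X - C (ξ i)) * R`, `P'(ξ i) = R(ξ i)`,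
`(ξ i - ξ j) ∣ R(ξ i)`); if `ξ i ≡ ξ j` modulo `T^(e c.natDegree + 1)`, then `T^(..) ∣ P'(ξ i)`,
contradiction to `ord_bd`. `ξ_alg0`: the constant coefficient is a root of the monic integer
polynomial `f(0, X)`. -/

namespace Pool.Agent.H97.XC

open Finset Polynomial

variable {K : Type*} [Field K] [CharZero K] {σ0 : K →+* ℂ} {f : ℤ[X][X]} {d m B e q : ℕ}
  {ξ : Fin d → PowerSeries K}

omit [CharZero K] in
theorem ord_root (D : Dat σ0 f d m B e q ξ) (i : Fin d) :
    (f.map (tKq K e q)).eval (ξ i) = 0 := by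
  rw [D.split, eval_prod]
  exact Finset.prod_eq_zero (Finset.mem_univ i) (by simp)

theorem ord_bd (D : Dat σ0 f d m B e q ξ) (a b : ℤ[X][X]) (c : ℤ[X]) (hc : c ≠ 0)
    (hbez : a * f + b * derivative f = C c) (i : Fin d) :
    ∃ k ≤ e * c.natDegree,
      PowerSeries.coeff k ((derivative (f.map (tKq K e q))).eval (ξ i)) ≠ 0 := by
  by_contra hcon
  push Not at hcon
  have h1 := congrArg (fun p => (p.map (tKq K e q)).eval (ξ i)) hbez
  simp only [Polynomial.map_add, Polynomial.map_mul, map_C, eval_add, eval_mul, eval_C,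
    ← derivative_map, ord_root D i, mul_zero, zero_add] at h1
  have h2 := congrArg (PowerSeries.coeff (e * c.natDegree)) h1
  rw [tKq_coeff e q D.e1, if_pos (dvd_mul_right e c.natDegree),
    Nat.mul_div_cancel_left _ (by have := D.e1; omega : 0 < e), PowerSeries.coeff_mul,
    Finset.sum_eq_zero] at h2
  · have hq : (q : K) ^ (e * c.natDegree) ≠ 0 := by
      apply pow_ne_zero
      have := D.q1
      exact_mod_cast (by omega : q ≠ 0)
    have hl : (c.coeff c.natDegree : K) ≠ 0 := by
      have : c.coeff c.natDegree ≠ 0 := by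
        rw [coeff_natDegree]
        exact leadingCoeff_ne_zero.2 hc
      exact_mod_cast this
    exact mul_ne_zero hq hl h2.symm
  · intro p hp
    rw [HasAntidiagonal.mem_antidiagonal] at hp
    rw [hcon p.2 (by omega), mul_zero]

theorem sep_bd (D : Dat σ0 f d m B e q ξ) (a b : ℤ[X][X]) (c : ℤ[X]) (hc : c ≠ 0)
    (hbez : a * f + b * derivative f = C c) (i j : Fin d)
    (h : ∀ k ≤ e * c.natDegree, PowerSeries.coeff k (ξ i) = PowerSeries.coeff k (ξ j)) :
    i = j := by
  by_contra hij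
  obtain ⟨k, hk, hk2⟩ := ord_bd D a b c hc hbez i
  apply hk2
  have h2 : f.map (tKq K e q) = (X - C (ξ i)) * ((X - C (ξ j)) *
      ∏ k ∈ (Finset.univ.erase i).erase j, (X - C (ξ k))) := by
    rw [D.split, ← Finset.mul_prod_erase Finset.univ _ (Finset.mem_univ i),
      ← Finset.mul_prod_erase (Finset.univ.erase i) _
        (Finset.mem_erase.mpr ⟨fun h => hij h.symm, Finset.mem_univ j⟩)]
  have h3 : (derivative (f.map (tKq K e q))).eval (ξ i) = (ξ i - ξ j) *
      (∏ k ∈ (Finset.univ.erase i).erase j, (X - C (ξ k))).eval (ξ i) := by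
    rw [h2]
    simp [derivative_mul]
  rw [h3, PowerSeries.coeff_mul]
  apply Finset.sum_eq_zero
  intro p hp
  rw [HasAntidiagonal.mem_antidiagonal] at hp
  rw [map_sub, h p.1 (by omega), sub_self, zero_mul]

theorem xi_zero (D : Dat σ0 f d m B e q ξ) (i : Fin d) :
    IsIntegral ℤ (PowerSeries.coeff 0 (ξ i)) := by
  have hcst : (PowerSeries.constantCoeff (R := K)).comp (tKq K e q) =
      (Int.castRingHom K).comp (evalRingHom (0 : ℤ)) := by
    apply Polynomial.ringHom_ext
    · intro a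
      simp [tKq]
    · have : e ≠ 0 := by have := D.e1; omega
      simp [tKq, this]
  refine ⟨f.map (evalRingHom (0 : ℤ)), D.monic.map _, ?_⟩
  have h1 := congrArg (PowerSeries.constantCoeff (R := K)) (ord_root D i)
  rw [map_zero, eval_map, Polynomial.hom_eval₂, hcst] at h1
  rw [Polynomial.eval₂_map, PowerSeries.coeff_zero_eq_constantCoeff]
  exact h1

end Pool.Agent.H97.XC
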