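import Pool.Agent.H97.XC.EisC
import Pool.Agent.H97.XC.Ord

/-! # [XC-ROOT] One root: integrality and growth after the truncation

Proof. `S' = integralClosure ℤ ℂ = eisb_S`. Let `x1 = PowerSeries.map σ0 (ξ i) ∈ ℂ⟦T⟧`,
`s = os`, `p ∈ eisb_S[X]` the polynomial with coefficients `coeff j x1`, `j ≤ s` (integral: images of
integral elements), `v = PowerSeries.mk fun k => if k = 0 then 0 else coeff (s + k) x1`, so
`T^s v + p = x1` (as in `Pool.Agent.H87.SA2.eisenstein`, `Pool/Agent/H87/SA2/EISB.lean`, copy this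
part). `P1 = f.map ψ ∈ eisb_S[X][X]`, `ψ : ℤ[X] →+* eisb_S[X]` the substitution `t ↦ (q T)^e`
(`eval₂RingHom (Int.castRingHom _) ((C (q : eisb_S) * X) ^ e)`), `eisb_i.comp ψ = tKq ℂ e q =
(PowerSeries.map σ0).comp (tKq K e q)`, so `P1.map eisb_i = (f.map (tKq K e q)).map (map σ0)` has the
root `x1`, and its derivative at `x1` is the image of the derivative at `ξ i`. Coefficients of `P1`:
`(P1.coeff j).coeff i` is mapped by `eisb_i` (injective) to the coefficient of `tKq`: zero for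
`i > e m` and of norm `≤ B q^(e m)` (`tKq_zero`, `tKq_le` for `K`, or directly for `ℂ`).
Apply `eisc_core` with `M = e m`, `B1 = B q^(e m)`, `δ = σ0 (coeff os (P'(ξ i)))`. -/

namespace Pool.Agent.H97.XC

open Finset Polynomial Pool.Agent.H87.SA2 Pool.Agent.H72.ES

/-- the substitution `t ↦ (q T)^e` -/
noncomputable def root_s (e q : ℕ) : ℤ[X] →+* eisb_S[X] :=
  eval₂RingHom (Int.castRingHom eisb_S[X]) ((C (q : eisb_S) * X) ^ e)

theorem root_comp (e q : ℕ) : eisb_i.comp (root_s e q) = tKq ℂ e q := by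
  apply Polynomial.ringHom_ext
  · intro a
    simp
  · unfold root_s tKq
    rw [RingHom.comp_apply, coe_eval₂RingHom, coe_eval₂RingHom, eval₂_X, eval₂_X, map_pow, map_mul,
      eisb_X, eisb_C]
    simp

theorem root_comp2 {K : Type*} [Field K] (σ0 : K →+* ℂ) (e q : ℕ) :
    (PowerSeries.map σ0).comp (tKq K e q) = tKq ℂ e q := by
  apply Polynomial.ringHom_ext
  · intro a
    simp
  · unfold tKq
    rw [RingHom.comp_apply, coe_eval₂RingHom, coe_eval₂RingHom, eval₂_X, eval₂_X, map_pow, map_mul,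
      PowerSeries.map_C, PowerSeries.map_X, map_natCast]

theorem root_bd {K : Type*} [Field K] [CharZero K] {σ0 : K →+* ℂ} {f : ℤ[X][X]}
    {d m B e q : ℕ} {ξ : Fin d → PowerSeries K} (D : Dat σ0 f d m B e q ξ) (hB : 1 ≤ B) (i : Fin d)
    (os : ℕ) {δ : K}
    (hδ : δ = PowerSeries.coeff os ((derivative (f.map (tKq K e q))).eval (ξ i))) (hδ0 : δ ≠ 0)
    (hlow : ∀ k < os,
      PowerSeries.coeff k ((derivative (f.map (tKq K e q))).eval (ξ i)) = 0)
    {H Δ : ℝ} (hH : 1 ≤ H) (hint : ∀ j ≤ os, IsIntegral ℤ (PowerSeries.coeff j (ξ i)))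
    (hle : ∀ j ≤ os, ‖σ0 (PowerSeries.coeff j (ξ i))‖ ≤ H) (hΔ : 1 ≤ Δ)
    (hδ1 : ‖σ0 δ‖ ≤ Δ) (hδ2 : ‖(σ0 δ)⁻¹‖ ≤ Δ) {C : ℝ}
    (hC : C = ((d : ℝ) + 1) * (((e * m : ℕ) : ℝ) + 1) * (B * (q : ℝ) ^ (e * m)) *
      (2 * (1 + ((os + 1 : ℕ) : ℝ) * H)) ^ d) :
    (∀ k, 1 ≤ k → IsIntegral ℤ (σ0 δ ^ (2 * k) * σ0 (PowerSeries.coeff (os + k) (ξ i)))) ∧
      ∀ k, 1 ≤ k → ‖σ0 (PowerSeries.coeff (os + k) (ξ i))‖ ≤ RR d (e * m) os C Δ ^ (k + 1) := by
  obtain ⟨F, hF⟩ : ∃ F, F = f.map (tKq K e q) := ⟨_, rfl⟩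
  rw [← hF] at hδ hlow
  have hroot : F.eval (ξ i) = 0 := by
    rw [hF, D.split, eval_prod]
    exact prod_eq_zero (mem_univ i) (by simp)
  have hyex : ∀ k, ∃ y : eisb_S, (y : ℂ) =
      if k ≤ os then σ0 (PowerSeries.coeff k (ξ i)) else 0 := by
    intro k
    by_cases hk : k ≤ os
    · rw [if_pos hk]
      exact ⟨⟨_, map_isIntegral_int σ0 (hint k hk)⟩, rfl⟩
    · rw [if_neg hk]
      exact ⟨0, rfl⟩
  choose y hy using hyex
  obtain ⟨p, hp⟩ : ∃ p : eisb_S[X], p = ∑ k ∈ range (os + 1), Polynomial.C (y k) * X ^ k :=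
    ⟨_, rfl⟩
  have hpc' : ∀ k, p.coeff k = if k ≤ os then y k else 0 := by
    intro k
    rw [hp, finsetSum_coeff]
    simp only [coeff_C_mul, coeff_X_pow]
    by_cases hk : k ≤ os
    · rw [if_pos hk, sum_eq_single k]
      · rw [if_pos rfl, mul_one]
      · intro b _ hb
        rw [if_neg (fun h => hb h.symm), mul_zero]
      · intro h
        exact absurd (mem_range.2 (by omega)) h
    · rw [if_neg hk]
      refine sum_eq_zero fun b hb => ?_
      rw [mem_range] at hb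
      rw [if_neg (by omega), mul_zero]
  have hpc : ∀ k, ((p.coeff k : eisb_S) : ℂ) =
      if k ≤ os then σ0 (PowerSeries.coeff k (ξ i)) else 0 := by
    intro k
    rw [hpc' k]
    by_cases hk : k ≤ os
    · rw [if_pos hk, hy, if_pos hk]
    · rw [if_neg hk, if_neg hk]
      rfl
  obtain ⟨x1, hx1⟩ : ∃ x1, x1 = PowerSeries.map σ0 (ξ i) := ⟨_, rfl⟩
  have hx1c : ∀ k, PowerSeries.coeff k x1 = σ0 (PowerSeries.coeff k (ξ i)) := by
    intro k
    rw [hx1, PowerSeries.coeff_map]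
  obtain ⟨v, hv⟩ : ∃ v : PowerSeries ℂ, v = PowerSeries.mk fun k =>
    if k = 0 then 0 else PowerSeries.coeff (os + k) x1 := ⟨_, rfl⟩
  have hvc : ∀ k, PowerSeries.coeff k v = if k = 0 then 0 else PowerSeries.coeff (os + k) x1 := by
    intro k
    rw [hv, PowerSeries.coeff_mk]
  have hv0 : PowerSeries.constantCoeff v = 0 := by
    rw [← PowerSeries.coeff_zero_eq_constantCoeff_apply, hvc, if_pos rfl]
  have hxe : PowerSeries.X ^ os * v + eisb_i p = x1 := by
    ext k
    rw [map_add, PowerSeries.coeff_X_pow_mul', eisb_coeff, hpc, hx1c]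
    rcases lt_trichotomy k os with hk | hk | hk
    · rw [if_neg (by omega), if_pos (by omega), zero_add]
    · rw [if_pos (by omega), if_pos (by omega), hvc, if_pos (by omega), zero_add]
    · rw [if_pos (by omega), if_neg (by omega), hvc, if_neg (by omega), hx1c, add_zero]
      have h1 : os + (k - os) = k := by omega
      rw [h1]
  have hPm0 : (f.map (root_s e q)).map eisb_i = f.map (tKq ℂ e q) := by
    rw [Polynomial.map_map, root_comp]
  have hPm1 : F.map (PowerSeries.map σ0) = f.map (tKq ℂ e q) := by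
    rw [hF, Polynomial.map_map, root_comp2]
  have hPm : (f.map (root_s e q)).map eisb_i = F.map (PowerSeries.map σ0) := by
    rw [hPm0, hPm1]
  have hx2 : ((f.map (root_s e q)).map eisb_i).eval (PowerSeries.X ^ os * v + eisb_i p) = 0 := by
    rw [hxe, hPm, hx1, eval_map, eval₂_at_apply, hroot, map_zero]
  have hD1 : (derivative ((f.map (root_s e q)).map eisb_i)).eval
      (PowerSeries.X ^ os * v + eisb_i p) =
      PowerSeries.map σ0 ((derivative F).eval (ξ i)) := by
    rw [hxe, hPm, hx1, derivative_map, eval_map, eval₂_at_apply]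
  have hco : ∀ j k, ((((f.map (root_s e q)).coeff j).coeff k : eisb_S) : ℂ) =
      PowerSeries.coeff k ((f.map (tKq ℂ e q)).coeff j) := by
    intro j k
    rw [← eisb_coeff, ← Polynomial.coeff_map, hPm0]
  have hB1 : (1 : ℝ) ≤ (B : ℝ) * (q : ℝ) ^ (e * m) := by
    have h1 : (1 : ℝ) ≤ (q : ℝ) := by exact_mod_cast D.q1
    have h2 : (1 : ℝ) ≤ (B : ℝ) := by exact_mod_cast hB
    exact one_le_mul_of_one_le_of_one_le h2 (one_le_pow₀ h1)
  have hmain := eisc_core (f.map (root_s e q)) p os d (e * m) v hv0 hx2 (by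
      intro k hk
      rw [hD1, PowerSeries.coeff_map, hlow k hk, map_zero]) (δ := σ0 δ) (by
      rw [hD1, PowerSeries.coeff_map, hδ]) (by
      rw [Ne, map_eq_zero]
      exact hδ0) (natDegree_map_le.trans D.deg.le) hB1 hH hΔ (by
      intro j k hk
      apply Subtype.ext
      rw [hco, tKq_zero D.bd D.e1 j k hk]
      rfl) (by
      intro j k
      rw [hco, ← hPm1, Polynomial.coeff_map, PowerSeries.coeff_map, hF]
      exact tKq_le D.bd D.e1 D.q1 σ0 j k) (by
      intro j hj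
      rw [hpc' j, if_neg (by omega)]) (by
      intro j
      rw [hpc j]
      by_cases hj : j ≤ os
      · rw [if_pos hj]
        exact hle j hj
      · rw [if_neg hj, norm_zero]
        linarith) hδ1 hδ2 hC
  obtain ⟨h1, h2⟩ := hmain
  constructor
  · intro k hk
    have h3 := h1 k
    rw [hvc, if_neg (by omega), hx1c] at h3
    exact h3
  · intro k hk
    have h3 := h2 k
    rw [hvc, if_neg (by omega), hx1c] at h3
    exact h3

end Pool.Agent.H97.XC
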