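import Pool.Agent.H97.XC.Tq

/-! # [XC-SCAL] Rescaling the expansions

Proof. `ξ' i = rescale q (ξ i)` has the coefficients `q^k coeff k (ξ i)`; `rescale q` is injective
(`PowerSeries.rescale_injective`), `tKq K e (q' q) = (rescale q).comp (tKq K e q')`
(`Polynomial.ringHom_ext`), so `split` is mapped (`Polynomial.map_prod`, `Polynomial.map_map`). -/

namespace Pool.Agent.H97.XC

open Finset Polynomial

theorem scal_C {K : Type*} [CommRing K] (a b : K) :
    PowerSeries.rescale a (PowerSeries.C b) = PowerSeries.C b := by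
  ext n
  rw [PowerSeries.coeff_rescale, PowerSeries.coeff_C]
  split_ifs with h
  · rw [h, pow_zero, one_mul]
  · rw [mul_zero]

theorem tKq_rescale {K : Type*} [CommRing K] (e q' q : ℕ) :
    (PowerSeries.rescale (q : K)).comp (tKq K e q') = tKq K e (q' * q) := by
  refine Polynomial.ringHom_ext (fun a => ?_) ?_
  · rw [RingHom.comp_apply]
    unfold tKq
    rw [coe_eval₂RingHom, coe_eval₂RingHom, eval₂_C, eval₂_C, eq_intCast, map_intCast]
  · rw [RingHom.comp_apply]
    unfold tKq
    rw [coe_eval₂RingHom, coe_eval₂RingHom, eval₂_X, eval₂_X, map_pow, map_mul, scal_C,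
      PowerSeries.rescale_X, Nat.cast_mul, map_mul, mul_assoc]

theorem dat_rescale {K : Type*} [Field K] [CharZero K] {σ0 : K →+* ℂ} {f : ℤ[X][X]}
    {d m B e q' : ℕ} {ξ : Fin d → PowerSeries K} (D : Dat σ0 f d m B e q' ξ) {q : ℕ}
    (hq : 1 ≤ q) :
    Dat σ0 f d m B e (q' * q) (fun i => PowerSeries.rescale (q : K) (ξ i)) where
  monic := D.monic
  deg := D.deg
  d1 := D.d1
  e1 := D.e1
  q1 := Nat.mul_pos D.q1 hq
  bd := D.bd
  inj := by
    have hq0 : (q : K) ≠ 0 := Nat.cast_ne_zero.2 (by omega)
    have h : Function.Injective (PowerSeries.rescale (q : K)) := by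
      intro x y hxy
      ext n
      have h1 := congrArg (PowerSeries.coeff n) hxy
      rw [PowerSeries.coeff_rescale, PowerSeries.coeff_rescale] at h1
      exact mul_left_cancel₀ (pow_ne_zero n hq0) h1
    exact h.comp D.inj
  split := by
    have h1 := congrArg (Polynomial.map (PowerSeries.rescale (q : K))) D.split
    rw [Polynomial.map_map, tKq_rescale, Polynomial.map_prod] at h1
    rw [h1]
    refine Finset.prod_congr rfl fun i _ => ?_
    rw [Polynomial.map_sub, Polynomial.map_X, Polynomial.map_C]

end Pool.Agent.H97.XC
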