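import Pool.Agent.H97.XC.Num
import Pool.Agent.H97.XC.Ind
import Pool.Agent.H97.XC.Del
import Pool.Agent.H97.XC.Scal
import Pool.Agent.H97.XC.Root
import Pool.Agent.H97.XC.Fix
import Pool.Agent.H87.SA2.PDE

/-! # [XC-PDX] Puiseux data with explicit constants -/

namespace Pool.Agent.H97.XC

open Finset Polynomial Pool.Agent.H87.SA2 Pool.Agent.H72.ES

/-- existence of the expansions over the algebraic closure of `ℚ` (see the first half of the proof
of `Pool.Agent.H87.SA2.exists_pdata`) -/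
theorem exists_dat (f : ℤ[X][X]) (hf : f.Monic) {d m B : ℕ} (hd : f.natDegree = d) (hd1 : 1 ≤ d)
    (hB : Bd f m B) (a b : ℤ[X][X]) (c : ℤ[X]) (hc : c ≠ 0)
    (hbez : a * f + b * derivative f = C c) :
    ∃ (σ0 : AlgebraicClosure ℚ →+* ℂ) (e : ℕ) (ξ : Fin d → PowerSeries (AlgebraicClosure ℚ)),
      e ≤ d.factorial ∧ Dat σ0 f d m B e 1 ξ := by
  classical
  have := pd_qbar_alg
  obtain ⟨σ⟩ : Nonempty (AlgebraicClosure ℚ →ₐ[ℚ] ℂ) := ⟨IsAlgClosed.lift⟩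
  obtain ⟨τ, hτ⟩ : ∃ τ : ℤ[X] →+* PowerSeries (AlgebraicClosure ℚ),
      τ = eval₂RingHom (Int.castRingHom _) PowerSeries.X := ⟨_, rfl⟩
  obtain ⟨e, he, hed, hs⟩ := newton_puiseux f.natDegree (f.map τ) (hf.map τ) (hf.natDegree_map τ)
  have he1 : 1 ≤ e := Nat.one_le_iff_ne_zero.mpr he
  have hcomp : (exr (AlgebraicClosure ℚ) e he).comp τ = tKq (AlgebraicClosure ℚ) e 1 := by
    apply Polynomial.ringHom_ext
    · intro a
      simp [tKq, hτ]
    · simp [tKq, hτ, exr_X]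
  obtain ⟨ξ, hξ⟩ := pd_splits_fin ((f.map τ).map (exr (AlgebraicClosure ℚ) e he))
    ((hf.map τ).map _) hs d (by rw [(hf.map τ).natDegree_map, hf.natDegree_map, hd])
  have hP : f.map (tKq (AlgebraicClosure ℚ) e 1) = ∏ i, (X - C (ξ i)) := by
    rw [← hcomp, ← Polynomial.map_map, hξ]
  have hroot : ∀ i, (f.map (tKq (AlgebraicClosure ℚ) e 1)).eval (ξ i) = 0 := by
    intro i
    rw [hP, eval_prod]
    exact Finset.prod_eq_zero (Finset.mem_univ i) (by simp)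
  have hinjt : Function.Injective (tKq (AlgebraicClosure ℚ) e 1) := by
    have h1 : (PowerSeries.map (σ : AlgebraicClosure ℚ →+* ℂ)).comp
        (tKq (AlgebraicClosure ℚ) e 1) = tq e 1 := map_tKq _ e 1
    have h2 := tq_injective (e := e) (q := 1) he1 le_rfl
    rw [← h1, RingHom.coe_comp] at h2
    exact Function.Injective.of_comp h2
  have hder : ∀ i, (derivative (f.map (tKq (AlgebraicClosure ℚ) e 1))).eval (ξ i) ≠ 0 := by
    intro i h0
    have h1 := congrArg (fun p => (p.map (tKq (AlgebraicClosure ℚ) e 1)).eval (ξ i)) hbez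
    simp only [Polynomial.map_add, Polynomial.map_mul, map_C, eval_add, eval_mul, eval_C,
      ← derivative_map, hroot i, h0, mul_zero, add_zero] at h1
    exact hc (hinjt (by rw [← h1, map_zero]))
  have hinj : Function.Injective ξ := by
    intro i j hij
    by_contra hne
    apply hder i
    have h2 : f.map (tKq (AlgebraicClosure ℚ) e 1) = (X - C (ξ i)) * ((X - C (ξ i)) *
        ∏ k ∈ (Finset.univ.erase i).erase j, (X - C (ξ k))) := by
      rw [hP, ← Finset.mul_prod_erase Finset.univ _ (Finset.mem_univ i),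
        ← Finset.mul_prod_erase (Finset.univ.erase i) _
          (Finset.mem_erase.mpr ⟨fun h => hne h.symm, Finset.mem_univ j⟩), ← hij]
    rw [h2]
    simp [derivative_mul]
  exact ⟨(σ : AlgebraicClosure ℚ →+* ℂ), e, ξ, by rw [← hd]; exact hed,
    { monic := hf, deg := hd, d1 := hd1, e1 := he1, q1 := le_rfl, bd := hB, inj := hinj,
      split := hP }⟩

/-- the image of an integral element -/
theorem int_map {K : Type*} [Field K] (σ0 : K →+* ℂ) {z : K} (hz : IsIntegral ℤ z) :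
    IsIntegral ℤ (σ0 z) := by
  have h1 := hz.map (σ0.toIntAlgHom)
  exact h1

theorem nat_int {K : Type*} [CommRing K] (q : ℕ) : IsIntegral ℤ (q : K) := by
  have := isIntegral_algebraMap (R := ℤ) (A := K) (x := (q : ℤ))
  simpa using this

theorem exists_pdata_bd (f : ℤ[X][X]) (hf : f.Monic) {d m B s : ℕ} (hd : f.natDegree = d)
    (hd1 : 1 ≤ d) (hB : Bd f m B) (hB1 : 1 ≤ B) (a b : ℤ[X][X]) (c : ℤ[X]) (hc : c ≠ 0)
    (hbez : a * f + b * derivative f = C c) (hs : d.factorial * (c.natDegree + m) ≤ s) :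
    ∃ pd : PData f d, pd.e ≤ d.factorial ∧ (pd.q : ℝ) ≤ (CC d m B s : ℝ) ∧
      pd.R ≤ (CC d m B s : ℝ) ∧
      ∀ i j, (∀ k ≤ s, PowerSeries.coeff k (pd.x i) = PowerSeries.coeff k (pd.x j)) → i = j := by
  obtain ⟨σ0, e, ξ, hed, D⟩ := exists_dat f hf hd hd1 hB a b c hc hbez
  have hfix := fix_qbar σ0
  have he1 := D.e1
  have hem : e * m ≤ s := by
    calc e * m ≤ d.factorial * (c.natDegree + m) := Nat.mul_le_mul hed (Nat.le_add_left _ _)
      _ ≤ s := hs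
  have hec : e * c.natDegree ≤ s := by
    calc e * c.natDegree ≤ d.factorial * (c.natDegree + m) :=
          Nat.mul_le_mul hed (Nat.le_add_right _ _)
      _ ≤ s := hs
  obtain ⟨q1, hq11, hq1S, hq1i, hq1b⟩ := coef_bd hfix D hB1 s (s + 1) le_rfl
  obtain ⟨S, hSd⟩ : ∃ S : ℝ, S = (LL d m B e s : ℝ) ^ ((14 * d ^ 2) ^ (s + 1)) := ⟨_, rfl⟩
  rw [← hSd] at hq1S hq1b
  have hq1R : (1 : ℝ) ≤ q1 := by exact_mod_cast hq11
  have hS1 : 1 ≤ S := hq1R.trans hq1S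
  -- rescaled data
  obtain ⟨ξ1, hξ1⟩ : ∃ ξ1 : Fin d → PowerSeries (AlgebraicClosure ℚ),
      ξ1 = fun i => PowerSeries.rescale (q1 : AlgebraicClosure ℚ) (ξ i) := ⟨_, rfl⟩
  have D1 : Dat σ0 f d m B e q1 ξ1 := by
    have h1 := dat_rescale D hq11
    rw [one_mul, ← hξ1] at h1
    exact h1
  have hξ1c : ∀ i k, PowerSeries.coeff k (ξ1 i) =
      (q1 : AlgebraicClosure ℚ) ^ k * PowerSeries.coeff k (ξ i) := by
    intro i k
    rw [hξ1]
    exact PowerSeries.coeff_rescale _ _ _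
  have hint : ∀ i, ∀ j ≤ s, IsIntegral ℤ (PowerSeries.coeff j (ξ1 i)) := by
    intro i j hj
    rw [hξ1c]
    rcases j with _ | j
    · rw [pow_zero, one_mul]
      exact xi_zero D i
    · have h1 := hq1i i (j + 1) (by omega)
      have h2 : (q1 : AlgebraicClosure ℚ) ^ (j + 1) * PowerSeries.coeff (j + 1) (ξ i) =
          (q1 : AlgebraicClosure ℚ) ^ j * ((q1 : AlgebraicClosure ℚ) *
            PowerSeries.coeff (j + 1) (ξ i)) := by ring
      rw [h2]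
      exact ((nat_int q1).pow j).mul h1
  obtain ⟨H1, hH1d⟩ : ∃ H1 : ℝ, H1 = S ^ (s + 1) := ⟨_, rfl⟩
  have hH11 : 1 ≤ H1 := by
    rw [hH1d]
    exact one_le_pow₀ hS1
  have hle : ∀ i, ∀ j ≤ s, ‖σ0 (PowerSeries.coeff j (ξ1 i))‖ ≤ H1 := by
    intro i j hj
    rw [hξ1c, map_mul, map_pow, map_natCast, norm_mul, norm_pow, Complex.norm_natCast, hH1d]
    calc (q1 : ℝ) ^ j * ‖σ0 (PowerSeries.coeff j (ξ i))‖ ≤ S ^ j * S := by
          refine mul_le_mul (pow_le_pow_left₀ (by positivity) hq1S _) (hq1b i j (by omega))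
            (norm_nonneg _) (by positivity)
      _ = S ^ (j + 1) := by ring
      _ ≤ S ^ (s + 1) := pow_le_pow_right₀ hS1 (by omega)
  have hord : ∀ i, ∃ k ≤ s,
      PowerSeries.coeff k ((derivative (f.map (tKq (AlgebraicClosure ℚ) e q1))).eval (ξ1 i)) ≠
        0 := by
    intro i
    obtain ⟨k, hk, h1⟩ := ord_bd D1 a b c hc hbez i
    exact ⟨k, hk.trans hec, h1⟩
  obtain ⟨A2, hA2d⟩ : ∃ A2 : ℝ, A2 = ((d : ℝ) + 1) * (((e * m : ℕ) : ℝ) + 1) *
      (B * (q1 : ℝ) ^ (e * m)) * (2 * (1 + ((s + 1 : ℕ) : ℝ) * H1)) ^ d := ⟨_, rfl⟩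
  obtain ⟨os, N, hN1, hNA, hos⟩ := exists_delta hfix D1 hB1 s hord hH11 hint hle hA2d
  obtain ⟨hA21, hA2⟩ := a2_le hd1 hB1 hem hS1 hq1S hq11 hH11 (le_of_eq hH1d) hA2d
  have hA2Δ : A2 ≤ A2 ^ d := le_self_pow₀ hA21 (by omega)
  have hΔ1 : 1 ≤ A2 ^ d := one_le_pow₀ hA21
  have hA20 : 0 ≤ A2 := by linarith
  have hNR : (1 : ℝ) ≤ N := by exact_mod_cast hN1
  -- the roots
  obtain ⟨RH, hRH⟩ : ∃ RH : ℝ, RH = RR d (e * m) s A2 (A2 ^ d) := ⟨_, rfl⟩
  have hroot : ∀ i, (∀ k, 1 ≤ k → IsIntegral ℤ (σ0 (PowerSeries.coeff (os i)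
        ((derivative (f.map (tKq (AlgebraicClosure ℚ) e q1))).eval (ξ1 i))) ^ (2 * k) *
          σ0 (PowerSeries.coeff (os i + k) (ξ1 i)))) ∧
      ∀ k, 1 ≤ k → ‖σ0 (PowerSeries.coeff (os i + k) (ξ1 i))‖ ≤ RH ^ (k + 1) := by
    intro i
    obtain ⟨h1, h2, h3, h4, h5, h6⟩ := hos i
    obtain ⟨h7, h8⟩ := root_bd D1 hB1 i (os i) rfl h3 h2 hH11
      (fun j hj => hint i j (hj.trans h1)) (fun j hj => hle i j (hj.trans h1)) hΔ1
      (h5.trans hA2Δ) h6 rfl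
    refine ⟨h7, fun k hk => (h8 k hk).trans ?_⟩
    have hC0 : 0 ≤ ((d : ℝ) + 1) * (((e * m : ℕ) : ℝ) + 1) * (B * (q1 : ℝ) ^ (e * m)) *
        (2 * (1 + ((os i + 1 : ℕ) : ℝ) * H1)) ^ d := by positivity
    have hCle : ((d : ℝ) + 1) * (((e * m : ℕ) : ℝ) + 1) * (B * (q1 : ℝ) ^ (e * m)) *
        (2 * (1 + ((os i + 1 : ℕ) : ℝ) * H1)) ^ d ≤ A2 := by
      rw [hA2d]
      have h9 : ((os i + 1 : ℕ) : ℝ) ≤ ((s + 1 : ℕ) : ℝ) := by exact_mod_cast (by omega)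
      gcongr
    have hRR0 : 0 ≤ RR d (e * m) (os i) (((d : ℝ) + 1) * (((e * m : ℕ) : ℝ) + 1) *
        (B * (q1 : ℝ) ^ (e * m)) * (2 * (1 + ((os i + 1 : ℕ) : ℝ) * H1)) ^ d) (A2 ^ d) := by
      unfold RR
      positivity
    rw [hRH]
    exact pow_le_pow_left₀ hRR0 (RR_mono h1 hC0 hCle hΔ1) _
  have hRH0 : 0 ≤ RH := by
    rw [hRH]
    unfold RR
    positivity
  have hRH1 : 1 ≤ RH := by
    rw [hRH]
    unfold RR
    have h1 : 0 ≤ ((((2 * s * d + e * m + d + 2 : ℕ) : ℝ) + 1) ^ 2 *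
      (A2 * (A2 ^ d) ^ (3 * (2 * s * d + e * m + d + 2)))) ^ 2 * (A2 ^ d) ^ 2 := by positivity
    nlinarith
  -- the final series
  have hN2 : 1 ≤ N ^ 2 := Nat.one_le_pow _ _ hN1
  have D2 := dat_rescale D1 hN2
  obtain ⟨ξ2, hξ2⟩ : ∃ ξ2 : Fin d → PowerSeries (AlgebraicClosure ℚ),
      ξ2 = fun i => PowerSeries.rescale ((N ^ 2 : ℕ) : AlgebraicClosure ℚ) (ξ1 i) := ⟨_, rfl⟩
  rw [← hξ2] at D2
  have hξ2c : ∀ i k, PowerSeries.coeff k (ξ2 i) =
      ((N ^ 2 : ℕ) : AlgebraicClosure ℚ) ^ k * PowerSeries.coeff k (ξ1 i) := by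
    intro i k
    rw [hξ2]
    exact PowerSeries.coeff_rescale _ _ _
  obtain ⟨RF, hRF⟩ : ∃ RF : ℝ, RF = 2 + ((N ^ 2 : ℕ) : ℝ) * (S ^ (s + 1) + RH) := ⟨_, rfl⟩
  have hN2R : (1 : ℝ) ≤ ((N ^ 2 : ℕ) : ℝ) := by exact_mod_cast hN2
  have hfin := fin_le (q1 := q1) (N := N) hd1 hed hem hSd hq1S hA21 hA2 hNA
  refine ⟨{ e := e
            q := q1 * N ^ 2
            e_pos := he1
            q_pos := Nat.mul_pos hq11 hN2
            x := fun i => PowerSeries.map σ0 (ξ2 i)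
            x_inj := ?_
            split := ?_
            integral := ?_
            R := RF
            R_ge := ?_
            growth := ?_ }, hed, hfin.1, ?_, ?_⟩
  · intro i j hij
    exact D2.inj (PowerSeries.map_injective σ0 σ0.injective hij)
  · have h1 := congrArg (Polynomial.map (PowerSeries.map σ0)) D2.split
    rw [Polynomial.map_map, map_tKq, Polynomial.map_prod] at h1
    have h2 : tq e (q1 * N ^ 2) = tKq ℂ e (q1 * N ^ 2) := rfl
    rw [h2, h1]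
    refine Finset.prod_congr rfl fun i _ => ?_
    rw [Polynomial.map_sub, map_X, map_C]
  · intro i k
    rw [PowerSeries.coeff_map, hξ2c]
    obtain ⟨h1, h2, h3, h4, h5, h6⟩ := hos i
    obtain ⟨h7, h8⟩ := hroot i
    by_cases hk : k ≤ os i
    · exact int_map σ0 (((nat_int _).pow k).mul (hint i k (hk.trans h1)))
    · obtain ⟨j, hj, rfl⟩ : ∃ j, 1 ≤ j ∧ k = os i + j := ⟨k - os i, by omega, by omega⟩
      obtain ⟨δ, hδ⟩ : ∃ δ, δ = PowerSeries.coeff (os i)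
        ((derivative (f.map (tKq (AlgebraicClosure ℚ) e q1))).eval (ξ1 i)) := ⟨_, rfl⟩
      rw [← hδ] at h3 h4
      have h9 := h7 j hj
      rw [← hδ] at h9
      have hδ0 : σ0 δ ≠ 0 := fun h => h3 (σ0.injective (by rw [h, map_zero]))
      have h10 : σ0 (((N ^ 2 : ℕ) : AlgebraicClosure ℚ) ^ (os i + j) *
          PowerSeries.coeff (os i + j) (ξ1 i)) = ((N : ℂ) ^ 2) ^ os i *
            ((((N : ℂ) * (σ0 δ)⁻¹) ^ 2) ^ j * (σ0 δ ^ (2 * j) *
              σ0 (PowerSeries.coeff (os i + j) (ξ1 i)))) := by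
        rw [map_mul, map_pow, map_natCast, pow_add]
        have h11 : (((N : ℂ) * (σ0 δ)⁻¹) ^ 2) ^ j * σ0 δ ^ (2 * j) = ((N : ℂ) ^ 2) ^ j := by
          rw [← pow_mul, ← mul_pow, mul_assoc, inv_mul_cancel₀ hδ0, mul_one, pow_mul]
        push_cast
        calc ((N : ℂ) ^ 2) ^ os i * ((N : ℂ) ^ 2) ^ j * σ0 (PowerSeries.coeff (os i + j) (ξ1 i)) =
            ((N : ℂ) ^ 2) ^ os i * ((((N : ℂ) * (σ0 δ)⁻¹) ^ 2) ^ j * σ0 δ ^ (2 * j)) *
              σ0 (PowerSeries.coeff (os i + j) (ξ1 i)) := by rw [h11]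
          _ = _ := by ring
      rw [h10]
      have h12 : IsIntegral ℤ ((N : ℂ) * (σ0 δ)⁻¹) := by
        have h13 := int_map σ0 h4
        rw [map_mul, map_natCast, map_inv₀] at h13
        exact h13
      exact (((nat_int N).pow 2).pow _).mul (((h12.pow 2).pow j).mul h9)
  · have h1 : 0 ≤ ((N ^ 2 : ℕ) : ℝ) * (S ^ (s + 1) + RH) := by positivity
    rw [hRF]
    linarith
  · intro i k
    rw [PowerSeries.coeff_map, hξ2c, map_mul, map_pow, map_natCast, norm_mul, norm_pow,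
      Complex.norm_natCast]
    obtain ⟨h1, h2, h3, h4, h5, h6⟩ := hos i
    obtain ⟨h7, h8⟩ := hroot i
    have hb : ‖σ0 (PowerSeries.coeff k (ξ1 i))‖ ≤ (S ^ (s + 1) + RH) ^ (k + 1) := by
      have hS' : 1 ≤ S ^ (s + 1) := one_le_pow₀ hS1
      have hbase : 1 ≤ S ^ (s + 1) + RH := by linarith
      by_cases hk : k ≤ os i
      · calc ‖σ0 (PowerSeries.coeff k (ξ1 i))‖ ≤ H1 := hle i k (hk.trans h1)
          _ ≤ S ^ (s + 1) + RH := by rw [hH1d]; linarith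
          _ ≤ _ := le_self_pow₀ hbase (by omega)
      · obtain ⟨j, hj, rfl⟩ : ∃ j, 1 ≤ j ∧ k = os i + j := ⟨k - os i, by omega, by omega⟩
        calc ‖σ0 (PowerSeries.coeff (os i + j) (ξ1 i))‖ ≤ RH ^ (j + 1) := h8 j hj
          _ ≤ (S ^ (s + 1) + RH) ^ (j + 1) := pow_le_pow_left₀ hRH0 (by linarith) _
          _ ≤ _ := pow_le_pow_right₀ hbase (by omega)
    have hbase0 : 0 ≤ S ^ (s + 1) + RH := by positivity
    calc (((N ^ 2 : ℕ) : ℝ)) ^ k * ‖σ0 (PowerSeries.coeff k (ξ1 i))‖ ≤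
          (((N ^ 2 : ℕ) : ℝ)) ^ (k + 1) * (S ^ (s + 1) + RH) ^ (k + 1) := by
          refine mul_le_mul (pow_le_pow_right₀ hN2R (by omega)) hb (norm_nonneg _) (by positivity)
      _ = (((N ^ 2 : ℕ) : ℝ) * (S ^ (s + 1) + RH)) ^ (k + 1) := by rw [mul_pow]
      _ ≤ RF ^ (k + 1) := by
          refine pow_le_pow_left₀ (by positivity) ?_ _
          rw [hRF]
          linarith
  · show RF ≤ _
    rw [hRF, hRH]
    exact hfin.2
  · intro i j hij
    refine sep_bd D2 a b c hc hbez i j fun k hk => ?_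
    have h1 := hij k (hk.trans hec)
    have h2 : σ0 (PowerSeries.coeff k (ξ2 i)) = σ0 (PowerSeries.coeff k (ξ2 j)) := by
      have h3 : PowerSeries.coeff k (PowerSeries.map σ0 (ξ2 i)) =
          PowerSeries.coeff k (PowerSeries.map σ0 (ξ2 j)) := h1
      rwa [PowerSeries.coeff_map, PowerSeries.coeff_map] at h3
    exact σ0.injective h2

end Pool.Agent.H97.XC
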