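import Pool.Agent.H87.SA2.Defs

/-!
# MP_821da1_nt: explicit constants for the Puiseux data -- definitions

`f ∈ ℤ[t][X]` monic of degree `d` in `X`, of degree `≤ m` in `t`, coefficients `≤ B`.
`tKq K e q`: the substitution `t ↦ (q T)^e`.
`gk P k x μ j`: the coefficient of `T^μ Y^j` in `P(T, p + T^k Y)`, `p = x mod T^k`.
`pos S`: for a set `S` of pairs `(μ, j)` the pair with smallest `μ` and, for this `μ`, largest `j`.
`leadc P k x`: the coefficient of `T^μ Y^j` in `P(T, p + T^k Y)` at the position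
`pos {(μ, j) | gk P k x μ j ≠ 0}`.
-/

namespace Pool.Agent.H97.XC

open Finset Polynomial Pool.Agent.H72.ES

/-- bounds for the coefficients of `f ∈ ℤ[t][X]` -/
structure Bd (f : ℤ[X][X]) (m B : ℕ) : Prop where
  deg : ∀ j, (f.coeff j).natDegree ≤ m
  le : ∀ j i, |(f.coeff j).coeff i| ≤ (B : ℤ)

/-- the substitution `t ↦ (q T)^e` -/
noncomputable def tKq (K : Type*) [CommRing K] (e q : ℕ) : ℤ[X] →+* PowerSeries K :=
  eval₂RingHom (Int.castRingHom (PowerSeries K))
    ((PowerSeries.C (q : K) * PowerSeries.X) ^ e)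

/-- the coefficient of `T^μ Y^j` in `P(T, p + T^k Y)`, `p` the truncation of `x` modulo `T^k` -/
noncomputable def gk {K : Type*} [CommRing K] (P : (PowerSeries K)[X]) (k : ℕ) (x : PowerSeries K)
    (μ j : ℕ) : K :=
  PowerSeries.coeff μ (PowerSeries.X ^ (k * j) *
    (taylor ((PowerSeries.trunc k x : K[X]) : PowerSeries K) P).coeff j)

/-- the nonvanishing coefficients of `P(T, p + T^k Y)` -/
def SS {K : Type*} [CommRing K] (P : (PowerSeries K)[X]) (k : ℕ) (x : PowerSeries K) :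
    Set (ℕ × ℕ) := {p | gk P k x p.1 p.2 ≠ 0}

open Classical in
/-- the pair in `S` with smallest first and then largest second component -/
noncomputable def pos (S : Set (ℕ × ℕ)) : ℕ × ℕ :=
  if h : ∃ p : ℕ × ℕ, p ∈ S ∧ (∀ p' ∈ S, p.1 ≤ p'.1) ∧ ∀ j, (p.1, j) ∈ S → j ≤ p.2
  then h.choose else (0, 0)

/-- the leading coefficient of the first nonzero coefficient of `P(T, p + T^k Y)` -/
noncomputable def leadc {K : Type*} [CommRing K] (P : (PowerSeries K)[X]) (k : ℕ)
    (x : PowerSeries K) : K :=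
  gk P k x (pos (SS P k x)).1 (pos (SS P k x)).2

/-- a family indexed by `Fin d` whose conjugates are permutations of it -/
def Eqv {K : Type*} [Field K] (σ0 : K →+* ℂ) {d : ℕ} (a : Fin d → K) : Prop :=
  ∀ τ : K →+* ℂ, ∃ π : Equiv.Perm (Fin d), ∀ i, τ (a i) = σ0 (a (π i))

/-- the elements fixed by all embeddings are rational -/
def Fixd {K : Type*} [Field K] [CharZero K] (σ0 : K →+* ℂ) : Prop :=
  ∀ z : K, (∀ τ : K →+* ℂ, τ z = σ0 z) → ∃ r : ℚ, z = (r : K)

/-- the data: all roots of `f` are power series in `T`, `t = (q T)^e` -/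
structure Dat {K : Type*} [Field K] (σ0 : K →+* ℂ) (f : ℤ[X][X]) (d m B e q : ℕ)
    (ξ : Fin d → PowerSeries K) : Prop where
  monic : f.Monic
  deg : f.natDegree = d
  d1 : 1 ≤ d
  e1 : 1 ≤ e
  q1 : 1 ≤ q
  bd : Bd f m B
  inj : Function.Injective ξ
  split : f.map (tKq K e q) = ∏ i, (X - C (ξ i))

/-- the base of all bounds -/
def LL (d m B e s : ℕ) : ℕ := 4 * d * (d + 1) * (e * m + 1) * (B + 1) * (s + 1)

/-- the bound for all constants of the Puiseux data -/
def CC (d m B s : ℕ) : ℕ :=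
  LL d m B d.factorial s ^ (600 * d ^ 3 * (s + 1) ^ 2 * (14 * d ^ 2) ^ (s + 1))

end Pool.Agent.H97.XC
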