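import Pool.Agent.H97.XC.EisH
import Pool.Agent.H97.XC.TayB
import Pool.Agent.H87.SA2.EISB

/-! # [XC-EISC] Explicit Eisenstein theorem after a truncation

Proof. Copy the proof of `Pool.Agent.H87.SA2.eisb_core` (`Pool/Agent/H87/SA2/EISB.lean`).
There `U.coeff 0 = coeff s (P1'(x))` (first lines of `hU0`). Use
`n = 2 s d + M + d + 2` instead of the `n` there: `natDegree (Q.coeff j) ≤ M + s d`
(`taylor_coeff_sum`: `Q.coeff j = ∑_(l ≤ d) P1.coeff l * (p^(l - j) * choose)`), `Q.coeff j = 0` for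
`j > d`; `B 0 = X * A` with `X^(2s+1) * A = Q.coeff 0`, `B 1 = U` with `X^s * U = Q.coeff 1`,
`B (j+2) = X^(s j) * Q.coeff (j+2)`, so all `natDegree (B j) ≤ n` (a zero polynomial is no problem)
and all coefficients of the `B j` are coefficients of `Q.coeff j` or `0`, so of norm
`≤ C = (d+1)(M+1) B1 (2 (1 + (s+1) H))^d` by `tb_taylor` (applied in `PowerSeries ℂ`, `ν = norm`,
to `P1.map eisb_i` and `eisb_i p`, `k = s + 1`, using `Q.map eisb_i = taylor (eisb_i p) (P1.map
eisb_i)`, or directly). Then `eish_bd` instead of `eis_hens`. -/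

namespace Pool.Agent.H97.XC

open Finset Polynomial Pool.Agent.H87.SA2 Pool.Agent.H72.ES

/-- the growth constant -/
noncomputable def RR (d M s : ℕ) (C Δ : ℝ) : ℝ :=
  2 * Δ * (1 + ((((2 * s * d + M + d + 2 : ℕ) : ℝ) + 1) ^ 2 *
    (C * Δ ^ (3 * (2 * s * d + M + d + 2)))) ^ 2 * Δ ^ 2)

theorem eisc_subMul : SubMul (fun z : ℂ => ‖z‖) where
  nonneg := fun a => norm_nonneg a
  zero := norm_zero
  neg := fun a => norm_neg a
  add := fun a b => norm_add_le a b
  mul := fun a b => (norm_mul a b).le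
  one := norm_one.le

/-- degrees of the Taylor coefficients -/
theorem eisc_deg (P1 : eisb_S[X][X]) (p : eisb_S[X]) (s d M : ℕ) (hd : P1.natDegree ≤ d)
    (hM : ∀ j i, M < i → (P1.coeff j).coeff i = 0) (hps : ∀ j, s < j → p.coeff j = 0)
    (j μ : ℕ) (hμ : M + s * d < μ) : ((taylor p P1).coeff j).coeff μ = 0 := by
  rw [taylor_coeff_sum P1 d hd p j, finsetSum_coeff]
  refine sum_eq_zero fun l hl => ?_
  rw [mem_range] at hl
  apply coeff_eq_zero_of_natDegree_lt
  have h1 : (P1.coeff l).natDegree ≤ M := by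
    rw [natDegree_le_iff_coeff_eq_zero]
    intro i hi
    exact hM l i hi
  have h2 : p.natDegree ≤ s := by
    rw [natDegree_le_iff_coeff_eq_zero]
    intro i hi
    exact hps i hi
  have h3 : (p ^ (l - j)).natDegree ≤ d * s :=
    natDegree_pow_le.trans (Nat.mul_le_mul (by omega) h2)
  have h4 : (P1.coeff l * (p ^ (l - j) * (l.choose j : eisb_S[X]))).natDegree ≤
      M + (d * s + 0) := by
    refine natDegree_mul_le.trans (Nat.add_le_add h1 ?_)
    refine natDegree_mul_le.trans (Nat.add_le_add h3 ?_)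
    rw [natDegree_natCast]
  have h5 : d * s = s * d := Nat.mul_comm _ _
  omega

theorem eisc_core (P1 : eisb_S[X][X]) (p : eisb_S[X]) (s d M : ℕ) (v : PowerSeries ℂ)
    (hv0 : PowerSeries.constantCoeff v = 0)
    (hx : (P1.map eisb_i).eval (PowerSeries.X ^ s * v + eisb_i p) = 0)
    (hD : ∀ k < s, PowerSeries.coeff k
      ((derivative (P1.map eisb_i)).eval (PowerSeries.X ^ s * v + eisb_i p)) = 0)
    {δ : ℂ} (hδ : δ = PowerSeries.coeff s
      ((derivative (P1.map eisb_i)).eval (PowerSeries.X ^ s * v + eisb_i p))) (hδ0 : δ ≠ 0)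
    (hd : P1.natDegree ≤ d) {B1 H Δ : ℝ} (hB1 : 1 ≤ B1) (hH : 1 ≤ H) (hΔ : 1 ≤ Δ)
    (hM : ∀ j i, M < i → (P1.coeff j).coeff i = 0)
    (hP1 : ∀ j i, ‖(((P1.coeff j).coeff i : eisb_S) : ℂ)‖ ≤ B1)
    (hps : ∀ j, s < j → p.coeff j = 0) (hp : ∀ j, ‖((p.coeff j : eisb_S) : ℂ)‖ ≤ H)
    (hδ1 : ‖δ‖ ≤ Δ) (hδ2 : ‖δ⁻¹‖ ≤ Δ) {C : ℝ}
    (hC : C = ((d : ℝ) + 1) * (M + 1) * B1 * (2 * (1 + ((s + 1 : ℕ) : ℝ) * H)) ^ d) :
    (∀ k, IsIntegral ℤ (δ ^ (2 * k) * PowerSeries.coeff k v)) ∧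
      ∀ k, ‖PowerSeries.coeff k v‖ ≤ RR d M s C Δ ^ (k + 1) := by
  obtain ⟨Q, hQ⟩ : ∃ Q : eisb_S[X][X], Q = taylor p P1 := ⟨_, rfl⟩
  have hQmap : Q.map eisb_i = taylor (eisb_i p) (P1.map eisb_i) := by
    rw [hQ, taylor_apply, taylor_apply, Polynomial.map_comp, Polynomial.map_add, Polynomial.map_X,
      Polynomial.map_C]
  have hQd : Q.natDegree ≤ d := by
    rw [hQ, natDegree_taylor]
    exact hd
  have hQeval : ∑ j ∈ range (Q.natDegree + 2),
      eisb_i (Q.coeff j) * (PowerSeries.X ^ s * v) ^ j = 0 := by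
    have h1 : (Q.map eisb_i).eval (PowerSeries.X ^ s * v) = 0 := by
      rw [hQmap, taylor_eval, hx]
    rw [eval_eq_sum_range' (n := Q.natDegree + 2)
      (lt_of_le_of_lt natDegree_map_le (by omega))] at h1
    rw [← h1]
    refine sum_congr rfl fun j _ => ?_
    rw [Polynomial.coeff_map]
  have hvX : PowerSeries.X ∣ v := PowerSeries.X_dvd_iff.2 hv0
  have hP1' : eisb_i (Q.coeff 1) = (derivative (P1.map eisb_i)).eval (eisb_i p) := by
    rw [← Polynomial.coeff_map, hQmap, taylor_coeff_one]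
  have hdiff : PowerSeries.X ^ (s + 1) ∣
      (derivative (P1.map eisb_i)).eval (PowerSeries.X ^ s * v + eisb_i p) -
        (derivative (P1.map eisb_i)).eval (eisb_i p) := by
    refine Dvd.dvd.trans ?_ (Polynomial.sub_dvd_eval_sub _ _ _)
    rw [add_sub_cancel_right, pow_succ]
    exact mul_dvd_mul_left _ hvX
  have hc : ∀ k ≤ s, PowerSeries.coeff k (eisb_i (Q.coeff 1)) =
      PowerSeries.coeff k
        ((derivative (P1.map eisb_i)).eval (PowerSeries.X ^ s * v + eisb_i p)) := by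
    intro k hk
    have h1 := PowerSeries.X_pow_dvd_iff.1 hdiff k (by omega)
    rw [map_sub, sub_eq_zero] at h1
    rw [hP1', h1]
  obtain ⟨U, hU⟩ : X ^ s ∣ Q.coeff 1 := by
    rw [Polynomial.X_pow_dvd_iff]
    intro d hd
    have h1 := hc d hd.le
    rw [hD d hd, eisb_coeff] at h1
    exact Subtype.ext h1
  have hUδ : ((U.coeff 0 : eisb_S) : ℂ) = δ := by
    have h1 := hc s le_rfl
    rw [eisb_coeff, hU] at h1
    have h2 := Polynomial.coeff_X_pow_mul U s 0
    rw [zero_add] at h2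
    rw [h2] at h1
    rw [h1, hδ]
  obtain ⟨A, hA⟩ : X ^ (2 * s + 1) ∣ Q.coeff 0 := by
    apply eisb_dvd
    rw [sum_range_succ'] at hQeval
    rw [pow_zero, mul_one] at hQeval
    have h1 : PowerSeries.X ^ (2 * s + 1) ∣ ∑ j ∈ range (Q.natDegree + 1),
        eisb_i (Q.coeff (j + 1)) * (PowerSeries.X ^ s * v) ^ (j + 1) := by
      refine dvd_sum fun j _ => ?_
      rcases j with _ | j
      · rw [hU, map_mul, map_pow, eisb_X]
        have h2 : (PowerSeries.X : PowerSeries ℂ) ^ (2 * s + 1) =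
            PowerSeries.X ^ s * (PowerSeries.X ^ s * PowerSeries.X) := by ring
        rw [h2, zero_add, pow_one]
        exact mul_dvd_mul (dvd_mul_right _ _) (mul_dvd_mul_left _ hvX)
      · refine Dvd.dvd.mul_left ?_ _
        have h2 : (PowerSeries.X ^ s * v) ^ (j + 1 + 1) =
            (PowerSeries.X ^ (2 * s) * (v * v)) * (PowerSeries.X ^ s * v) ^ j := by ring
        rw [h2, pow_succ]
        exact (mul_dvd_mul_left _ (hvX.mul_right _)).mul_right _
    exact (dvd_add_right h1).1 (hQeval ▸ dvd_zero _)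
  obtain ⟨B, hB0, hB1', hB2⟩ : ∃ B : ℕ → eisb_S[X], B 0 = X * A ∧ B 1 = U ∧
      ∀ j, B (j + 2) = X ^ (s * j) * Q.coeff (j + 2) :=
    ⟨fun j => match j with
      | 0 => X * A
      | 1 => U
      | (j + 2) => X ^ (s * j) * Q.coeff (j + 2), rfl, rfl, fun _ => rfl⟩
  have hB : ∀ j, PowerSeries.X ^ (2 * s) * (eisb_i (B j) * v ^ j) =
      eisb_i (Q.coeff j) * (PowerSeries.X ^ s * v) ^ j := by
    intro j
    rcases j with _ | _ | j
    · rw [hB0, hA, map_mul, map_mul, map_pow, eisb_X]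
      ring
    · rw [zero_add, hB1', hU, map_mul, map_pow, eisb_X]
      ring
    · have h2 : j + 1 + 1 = j + 2 := rfl
      rw [h2, hB2, map_mul, map_pow, eisb_X]
      ring
  have hsum : ∑ j ∈ range (Q.natDegree + 2), eisb_i (B j) * v ^ j = 0 := by
    have h1 : (PowerSeries.X : PowerSeries ℂ) ^ (2 * s) ≠ 0 := pow_ne_zero _ PowerSeries.X_ne_zero
    apply mul_left_cancel₀ h1
    rw [mul_sum, mul_zero, ← hQeval]
    exact sum_congr rfl fun j _ => hB j
  -- degrees and coefficients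
  have hQdeg : ∀ j μ, M + s * d < μ → (Q.coeff j).coeff μ = 0 := by
    intro j μ hμ
    rw [hQ]
    exact eisc_deg P1 p s d M hd hM hps j μ hμ
  have hC0 : 0 ≤ C := by
    rw [hC]
    have h1 : (0 : ℝ) ≤ ((s + 1 : ℕ) : ℝ) * H := mul_nonneg (Nat.cast_nonneg _) (by linarith)
    have h2 : (0 : ℝ) ≤ 2 * (1 + ((s + 1 : ℕ) : ℝ) * H) := by linarith
    have h3 : (0 : ℝ) ≤ B1 := by linarith
    positivity
  have hC1 : 1 ≤ C := by
    rw [hC]
    have h1 : (0 : ℝ) ≤ ((s + 1 : ℕ) : ℝ) * H := mul_nonneg (Nat.cast_nonneg _) (by linarith)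
    have h2 : (1 : ℝ) ≤ (2 * (1 + ((s + 1 : ℕ) : ℝ) * H)) ^ d := one_le_pow₀ (by linarith)
    have h3 : (1 : ℝ) ≤ (d : ℝ) + 1 := by
      have : (0 : ℝ) ≤ d := Nat.cast_nonneg d
      linarith
    have h4 : (1 : ℝ) ≤ (M : ℝ) + 1 := by
      have : (0 : ℝ) ≤ M := Nat.cast_nonneg M
      linarith
    exact one_le_mul_of_one_le_of_one_le
      (one_le_mul_of_one_le_of_one_le (one_le_mul_of_one_le_of_one_le h3 h4) hB1) h2
  have hQC : ∀ j μ, ‖(((Q.coeff j).coeff μ : eisb_S) : ℂ)‖ ≤ C := by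
    intro j μ
    have h1 := tb_taylor eisc_subMul (P1.map eisb_i) d M (natDegree_map_le.trans hd)
      (B := B1) (by linarith) (by
        intro j i hi
        rw [Polynomial.coeff_map, eisb_coeff, hM j i hi]
        rfl) (by
        intro j i
        rw [Polynomial.coeff_map, eisb_coeff]
        exact hP1 j i) (eisb_i p) (s + 1) (H := H) (by linarith) (by
        intro j hj
        rw [eisb_coeff, hps j (by omega)]
        rfl) (by
        intro j
        rw [eisb_coeff]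
        exact hp j) j μ
    rw [← hQmap, Polynomial.coeff_map, eisb_coeff] at h1
    rw [hC]
    exact h1
  have hBc : ∀ j i, ∃ μ, i ≤ μ + s * d ∧ ((B j).coeff i = (Q.coeff j).coeff μ ∨
      (B j).coeff i = 0) := by
    intro j i
    rcases j with _ | _ | j
    · rcases i with _ | i
      · refine ⟨0, Nat.zero_le _, Or.inr ?_⟩
        rw [hB0, Polynomial.mul_coeff_zero, Polynomial.coeff_X_zero, zero_mul]
      · refine ⟨i + (2 * s + 1), by omega, Or.inl ?_⟩
        rw [hB0, hA, Polynomial.coeff_X_mul, Polynomial.coeff_X_pow_mul]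
    · refine ⟨i + s, by omega, Or.inl ?_⟩
      rw [zero_add, hB1', hU, Polynomial.coeff_X_pow_mul]
    · have h2 : j + 1 + 1 = j + 2 := rfl
      rw [h2, hB2]
      by_cases hj : j + 2 ≤ d
      · by_cases hi : s * j ≤ i
        · refine ⟨i - s * j, ?_, Or.inl ?_⟩
          · have h3 : s * j ≤ s * d := Nat.mul_le_mul_left _ (by omega)
            omega
          · rw [Polynomial.coeff_X_pow_mul', if_pos hi]
        · refine ⟨i, by omega, Or.inr ?_⟩
          rw [Polynomial.coeff_X_pow_mul', if_neg hi]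
      · refine ⟨i, by omega, Or.inr ?_⟩
        rw [coeff_eq_zero_of_natDegree_lt (show Q.natDegree < j + 2 by omega), mul_zero,
          Polynomial.coeff_zero]
  obtain ⟨n, hn⟩ : ∃ n : ℕ, n = 2 * s * d + M + d + 2 := ⟨_, rfl⟩
  have hn2 : 2 * s * d = s * d + s * d := by ring
  have hBz : ∀ j, Q.natDegree + 2 ≤ j → B j = 0 := by
    intro j hj
    obtain ⟨i, rfl⟩ : ∃ i, j = i + 2 := ⟨j - 2, by omega⟩
    rw [hB2, coeff_eq_zero_of_natDegree_lt (by omega), mul_zero]
  have hBn : ∀ j, (B j).natDegree < n + 1 := by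
    intro j
    have h1 : (B j).natDegree ≤ n := by
      rw [natDegree_le_iff_coeff_eq_zero]
      intro i hi
      obtain ⟨μ, hμ, h2 | h2⟩ := hBc j i
      · rw [h2]
        apply hQdeg
        omega
      · exact h2
    omega
  have hBC : ∀ j i, ‖(((B j).coeff i : eisb_S) : ℂ)‖ ≤ C := by
    intro j i
    obtain ⟨μ, hμ, h2 | h2⟩ := hBc j i
    · rw [h2]
      exact hQC j μ
    · rw [h2]
      refine le_trans (le_of_eq ?_) hC0
      exact norm_zero
  have hiB : ∀ j, eisb_i (B j) = ∑ i ∈ range (n + 1),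
      PowerSeries.C (((B j).coeff i : eisb_S) : ℂ) * PowerSeries.X ^ i := by
    intro j
    conv_lhs => rw [Polynomial.as_sum_range_C_mul_X_pow' (B j) (hBn j)]
    rw [map_sum]
    refine sum_congr rfl fun i _ => ?_
    rw [map_mul, map_pow, eisb_X, eisb_C]
  have hfin : ∑ i ∈ range (n + 1), ∑ j ∈ range (n + 1),
      PowerSeries.C (((B j).coeff i : eisb_S) : ℂ) * PowerSeries.X ^ i * v ^ j = 0 := by
    rw [sum_comm]
    have h1 : ∑ j ∈ range (n + 1), ∑ i ∈ range (n + 1),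
        PowerSeries.C (((B j).coeff i : eisb_S) : ℂ) * PowerSeries.X ^ i * v ^ j =
        ∑ j ∈ range (n + 1), eisb_i (B j) * v ^ j := by
      refine sum_congr rfl fun j _ => ?_
      rw [hiB, sum_mul]
    rw [h1, ← hsum]
    symm
    refine sum_subset (fun j hj => ?_) fun j _ hj => ?_
    · rw [mem_range] at hj ⊢
      omega
    · rw [mem_range, not_lt] at hj
      rw [hBz j hj, map_zero, zero_mul]
  have hc01 : (((B 1).coeff 0 : eisb_S) : ℂ) = δ := by
    rw [hB1']
    exact hUδ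
  obtain ⟨h1, h2⟩ := eish_bd n (by omega) (fun i j => (((B j).coeff i : eisb_S) : ℂ))
    (fun i j => ((B j).coeff i).2) (by
      change (((B 0).coeff 0 : eisb_S) : ℂ) = 0
      rw [hB0, Polynomial.mul_coeff_zero, Polynomial.coeff_X_zero, zero_mul]
      rfl) (by
      change (((B 1).coeff 0 : eisb_S) : ℂ) ≠ 0
      rw [hc01]
      exact hδ0) v hv0 hfin hC1 hΔ (fun i _ j _ => hBC j i) (by
      change ‖(((B 1).coeff 0 : eisb_S) : ℂ)‖ ≤ Δ
      rw [hc01]
      exact hδ1) (by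
      change ‖(((B 1).coeff 0 : eisb_S) : ℂ)⁻¹‖ ≤ Δ
      rw [hc01]
      exact hδ2)
  refine ⟨?_, ?_⟩
  · intro k
    have h3 := h1 k
    simp only [hc01] at h3
    exact h3
  · intro k
    have h3 := h2 k
    unfold RR
    rw [hn] at h3
    exact h3

end Pool.Agent.H97.XC
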