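import Pool.Agent.H87.SA2.EISA

/-! # [XC-EISH] Hensel series: explicit growth

Proof. Copy the proof of `Pool.Agent.H87.SA2.eis_hens` (`Pool/Agent/H87/SA2/EISA.lean`), where
`B` is now `C * Δ ^ (3 * n)`: for `i, j ≤ n`, `‖c' i j‖ ≤ ‖c i j‖ ‖δ‖^(2 i + j - 2) ≤ C Δ^(3 n)`
(`2 i + j - 2 ≤ 3 n`), and `1 ≤ C Δ^(3 n)`. Then `‖v_k‖ = ‖δ‖ ‖w_k‖ / ‖δ‖^(2 k)` and
`‖w_k‖ ≤ (b^2)^k`, `b = (n + 1)^2 C Δ^(3 n)`, so
`‖v_k‖ ≤ Δ (b^2 Δ^2)^k ≤ (2 Δ (1 + b^2 Δ^2))^(k + 1)`. -/

namespace Pool.Agent.H97.XC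

open Finset Pool.Agent.H72.ES

theorem eish_bd (n : ℕ) (hn : 1 ≤ n) (c : ℕ → ℕ → ℂ) (hc : ∀ i j, IsIntegral ℤ (c i j))
    (h00 : c 0 0 = 0) (h01 : c 0 1 ≠ 0) (v : PowerSeries ℂ)
    (hv0 : PowerSeries.constantCoeff v = 0)
    (hv : ∑ i ∈ range (n + 1), ∑ j ∈ range (n + 1),
      PowerSeries.C (c i j) * PowerSeries.X ^ i * v ^ j = 0) {C Δ : ℝ} (hC : 1 ≤ C) (hΔ : 1 ≤ Δ)
    (hcC : ∀ i ≤ n, ∀ j ≤ n, ‖c i j‖ ≤ C) (hδ : ‖c 0 1‖ ≤ Δ) (hδ' : ‖(c 0 1)⁻¹‖ ≤ Δ) :
    (∀ k, IsIntegral ℤ (c 0 1 ^ (2 * k) * PowerSeries.coeff k v)) ∧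
      ∀ k, ‖PowerSeries.coeff k v‖ ≤
        (2 * Δ * (1 + (((n : ℝ) + 1) ^ 2 * (C * Δ ^ (3 * n))) ^ 2 * Δ ^ 2)) ^ (k + 1) := by
  set δ : ℂ := c 0 1 with hδdef
  let S : Type := integralClosure ℤ ℂ
  let ν : S → ℝ := fun a => ‖(a : ℂ)‖
  have hν : SubMul ν :=
    { nonneg := fun a => norm_nonneg _
      zero := by simp [ν]
      neg := fun a => norm_neg (a : ℂ)
      add := fun a b => norm_add_le (a : ℂ) (b : ℂ)
      mul := fun a b => norm_mul_le (a : ℂ) (b : ℂ)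
      one := by simp [ν] }
  let C0 : ℕ → ℕ → S := fun i j => ⟨c i j, hc i j⟩
  let D : S := ⟨δ, hc 0 1⟩
  let c' : ℕ → ℕ → S := fun i j =>
    if i = 0 ∧ j ≤ 1 then 0 else - C0 i j * D ^ (2 * i + j - 2)
  set B : ℝ := C * Δ ^ (3 * n) with hBdef
  have hΔ0 : (0 : ℝ) < Δ := by linarith
  have hC0 : (0 : ℝ) < C := by linarith
  have hB1 : 1 ≤ B := by
    have h1 : (1 : ℝ) ≤ Δ ^ (3 * n) := one_le_pow₀ hΔ
    calc (1 : ℝ) = 1 * 1 := by ring
      _ ≤ C * Δ ^ (3 * n) := mul_le_mul hC h1 (by norm_num) (by linarith)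
  have hB : ∀ i j, i ≤ n → j ≤ n → ν (c' i j) ≤ B := by
    intro i j hi hj
    by_cases hij : i = 0 ∧ j ≤ 1
    · have : c' i j = 0 := by simp only [c']; rw [if_pos hij]
      rw [this, hν.zero]
      linarith
    · have h1 : c' i j = - C0 i j * D ^ (2 * i + j - 2) := by simp only [c']; rw [if_neg hij]
      have h2 : ν (c' i j) = ‖c i j‖ * ‖δ‖ ^ (2 * i + j - 2) := by
        rw [h1]
        show ‖((- C0 i j * D ^ (2 * i + j - 2) : S) : ℂ)‖ = _
        have h3 : ((- C0 i j * D ^ (2 * i + j - 2) : S) : ℂ) = - c i j * δ ^ (2 * i + j - 2) := rfl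
        rw [h3, norm_mul, norm_neg, norm_pow]
      rw [h2]
      calc ‖c i j‖ * ‖δ‖ ^ (2 * i + j - 2) ≤ C * Δ ^ (2 * i + j - 2) :=
            mul_le_mul (hcC i hi j hj) (pow_le_pow_left₀ (norm_nonneg _) hδ _) (by positivity)
              (by linarith)
        _ ≤ C * Δ ^ (3 * n) := by
            refine mul_le_mul_of_nonneg_left ?_ (by linarith)
            exact pow_le_pow_right₀ hΔ (by omega)
  obtain ⟨w, hw0, hw, hwb⟩ := Pool.Agent.H87.SA.exists_series_bd hν n c'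
    (by simp [c']) (by simp [c']) hB1 hB
  -- map to ℂ
  let φ : S →+* ℂ := (integralClosure ℤ ℂ).val.toRingHom
  have hφ : ∀ a : S, φ a = (a : ℂ) := fun a => rfl
  set W : PowerSeries ℂ := w.map φ with hW
  have hWc : ∀ k, PowerSeries.coeff k W = ((PowerSeries.coeff k w : S) : ℂ) := by
    intro k
    rw [hW, PowerSeries.coeff_map, hφ]
  have hWeq : W = ∑ i ∈ range (n + 1), ∑ j ∈ range (n + 1),
      PowerSeries.C (φ (c' i j)) * PowerSeries.X ^ i * W ^ j := by
    conv_lhs => rw [hW, hw]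
    rw [map_sum]
    refine sum_congr rfl fun i _ => ?_
    rw [map_sum]
    refine sum_congr rfl fun j _ => ?_
    rw [map_mul, map_mul, map_pow, map_pow, PowerSeries.map_C, PowerSeries.map_X]
  -- the equation for W
  have hW2 : ∑ i ∈ range (n + 1), ∑ j ∈ range (n + 1),
      PowerSeries.C (c i j * δ ^ (2 * i + j)) * PowerSeries.X ^ i * W ^ j = 0 := by
    have h1 : ∀ i j, PowerSeries.C (c i j * δ ^ (2 * i + j)) * PowerSeries.X ^ i * W ^ j =
        (if i = 0 then (if j = 1 then PowerSeries.C (δ ^ 2) * W else 0) else 0) -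
        PowerSeries.C (δ ^ 2) *
          (PowerSeries.C (φ (c' i j)) * PowerSeries.X ^ i * W ^ j) := by
      intro i j
      by_cases hi : i = 0
      · subst hi
        rcases j with _ | j
        · simp [c', h00]
        · rcases j with _ | j
          · have h2 : c' 0 (0 + 1) = 0 := by simp [c']
            have h3 : c 0 (0 + 1) * δ ^ (2 * 0 + (0 + 1)) = δ ^ 2 := by
              show δ * δ ^ 1 = δ ^ 2
              ring
            rw [if_pos rfl, if_pos rfl, h2, h3, map_zero, map_zero]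
            simp only [pow_zero, zero_add, pow_one, mul_one, zero_mul, mul_zero, sub_zero]
          · rw [if_pos rfl, if_neg (by omega)]
            have h2 : c' 0 (j + 1 + 1) = - C0 0 (j + 1 + 1) * D ^ (2 * 0 + (j + 1 + 1) - 2) := by
              simp only [c']
              rw [if_neg (by omega)]
            rw [h2, hφ]
            have h3 : ((- C0 0 (j + 1 + 1) * D ^ (2 * 0 + (j + 1 + 1) - 2) : S) : ℂ) =
                - c 0 (j + 1 + 1) * δ ^ j := by
              have h4 : 2 * 0 + (j + 1 + 1) - 2 = j := by omega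
              rw [h4]
              rfl
            rw [h3]
            have h5 : c 0 (j + 1 + 1) * δ ^ (2 * 0 + (j + 1 + 1)) =
                - (δ ^ 2 * (- c 0 (j + 1 + 1) * δ ^ j)) := by ring
            rw [h5]
            simp only [map_neg, map_mul, pow_zero]
            ring
      · rw [if_neg hi]
        have h2 : c' i j = - C0 i j * D ^ (2 * i + j - 2) := by
          simp only [c']
          rw [if_neg (by omega)]
        rw [h2, hφ]
        have h3 : ((- C0 i j * D ^ (2 * i + j - 2) : S) : ℂ) = - c i j * δ ^ (2 * i + j - 2) := rfl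
        rw [h3]
        obtain ⟨e, he⟩ : ∃ e, 2 * i + j = e + 2 := ⟨2 * i + j - 2, by omega⟩
        rw [he]
        have h5 : c i j * δ ^ (e + 2) = - (δ ^ 2 * (- c i j * δ ^ (e + 2 - 2))) := by
          rw [Nat.add_sub_cancel]
          ring
        rw [h5]
        simp only [map_neg, map_mul]
        ring
    simp_rw [h1]
    simp_rw [Finset.sum_sub_distrib, ← Finset.mul_sum]
    rw [← hWeq]
    rw [Finset.sum_eq_single 0]
    · simp only [if_true]
      rw [Finset.sum_eq_single 1]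
      · simp
      · intro b _ hb
        rw [if_neg hb]
      · intro h
        exact absurd (Finset.mem_range.2 (by omega)) h
    · intro b _ hb
      simp [hb]
    · intro h
      exact absurd (Finset.mem_range.2 (by omega)) h
  have hδ2 : δ ^ 2 ≠ 0 := pow_ne_zero 2 h01
  -- the series v'
  set v' : PowerSeries ℂ := PowerSeries.rescale ((δ ^ 2)⁻¹) (PowerSeries.C δ * W) with hv'
  have hv'c : ∀ k, PowerSeries.coeff k v' = ((δ ^ 2)⁻¹) ^ k * (δ * PowerSeries.coeff k W) := by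
    intro k
    rw [hv', PowerSeries.coeff_rescale, PowerSeries.coeff_C_mul]
  have hv'0 : PowerSeries.constantCoeff v' = 0 := by
    rw [← PowerSeries.coeff_zero_eq_constantCoeff_apply, hv'c, hWc,
      PowerSeries.coeff_zero_eq_constantCoeff_apply, hw0]
    simp
  have hv'eq : ∑ i ∈ range (n + 1), ∑ j ∈ range (n + 1),
      PowerSeries.C (c i j) * PowerSeries.X ^ i * v' ^ j = 0 := by
    have h1 := congrArg (PowerSeries.rescale ((δ ^ 2)⁻¹)) hW2
    rw [map_zero, map_sum] at h1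
    rw [← h1]
    refine sum_congr rfl fun i _ => ?_
    rw [map_sum]
    refine sum_congr rfl fun j _ => ?_
    have hrC : ∀ a : ℂ, PowerSeries.rescale ((δ ^ 2)⁻¹) (PowerSeries.C a) = PowerSeries.C a := by
      intro a
      ext k
      rw [PowerSeries.coeff_rescale, PowerSeries.coeff_C]
      split_ifs with h
      · subst h; simp
      · simp
    have h2 : c i j * δ ^ (2 * i + j) * ((δ ^ 2)⁻¹) ^ i = c i j * δ ^ j := by
      rw [pow_add, pow_mul, inv_pow]
      have h3 : (δ ^ 2) ^ i ≠ 0 := pow_ne_zero i hδ2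
      field_simp
    set V : PowerSeries ℂ := PowerSeries.rescale ((δ ^ 2)⁻¹) W with hV
    have h4 : v' = PowerSeries.C δ * V := by
      rw [hv', map_mul, hrC]
    have h5 : PowerSeries.rescale ((δ ^ 2)⁻¹)
        (PowerSeries.C (c i j * δ ^ (2 * i + j)) * PowerSeries.X ^ i * W ^ j) =
        PowerSeries.C (c i j * δ ^ (2 * i + j)) *
          (PowerSeries.C ((δ ^ 2)⁻¹) * PowerSeries.X) ^ i * V ^ j := by
      rw [map_mul, map_mul, map_pow, map_pow, PowerSeries.rescale_X, hrC]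
    rw [h5, h4]
    calc PowerSeries.C (c i j) * PowerSeries.X ^ i * (PowerSeries.C δ * V) ^ j
        = PowerSeries.C (c i j * δ ^ j) * PowerSeries.X ^ i * V ^ j := by
          rw [map_mul, map_pow, mul_pow]; ring
      _ = PowerSeries.C (c i j * δ ^ (2 * i + j) * ((δ ^ 2)⁻¹) ^ i) * PowerSeries.X ^ i *
          V ^ j := by rw [h2]
      _ = _ := by
          rw [map_mul PowerSeries.C (c i j * δ ^ (2 * i + j)), map_pow PowerSeries.C ((δ ^ 2)⁻¹) i,
            mul_pow]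
          ring
  have hvv : v = v' := Pool.Agent.H87.SA2.hens_unique hn c h01 v v' hv0 hv'0 hv hv'eq
  have hk : ∀ k, PowerSeries.coeff k v = ((δ ^ 2)⁻¹) ^ k * (δ * PowerSeries.coeff k W) := by
    intro k
    rw [hvv, hv'c]
  refine ⟨?_, ?_⟩
  · intro k
    have h1 : δ ^ (2 * k) * PowerSeries.coeff k v = ((D * PowerSeries.coeff k w : S) : ℂ) := by
      rw [hk, hWc, pow_mul]
      have h2 : (δ ^ 2) ^ k * ((δ ^ 2)⁻¹) ^ k = 1 := by
        rw [← mul_pow, mul_inv_cancel₀ hδ2, one_pow]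
      have h3 : ((D * PowerSeries.coeff k w : S) : ℂ) = δ * ((PowerSeries.coeff k w : S) : ℂ) := rfl
      rw [h3, ← mul_assoc, h2, one_mul]
    rw [h1]
    exact (D * PowerSeries.coeff k w : S).2
  · intro k
    set b : ℝ := ((n : ℝ) + 1) ^ 2 * B with hb
    have hb1 : 1 ≤ b := by
      have h1 : (1 : ℝ) ≤ (n : ℝ) + 1 := by
        have : (0 : ℝ) ≤ n := Nat.cast_nonneg n
        linarith
      have h2 : (1 : ℝ) ≤ ((n : ℝ) + 1) ^ 2 := one_le_pow₀ h1
      calc (1 : ℝ) = 1 * 1 := by ring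
        _ ≤ ((n : ℝ) + 1) ^ 2 * B := mul_le_mul h2 hB1 (by norm_num) (by linarith)
    have hδpos : 0 < ‖δ‖ := norm_pos_iff.2 h01
    have h1 : ‖PowerSeries.coeff k v‖ = (‖δ‖ ^ 2)⁻¹ ^ k * (‖δ‖ * ν (PowerSeries.coeff k w)) := by
      rw [hk, hWc, norm_mul, norm_pow, norm_inv, norm_pow, norm_mul]
    have h2 : ν (PowerSeries.coeff k w) ≤ (b ^ 2) ^ k := by
      have h3 := hwb k
      have h4 := hν.nonneg (PowerSeries.coeff k w)
      calc ν (PowerSeries.coeff k w) = ν (PowerSeries.coeff k w) * 1 := by ring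
        _ ≤ ν (PowerSeries.coeff k w) * b := mul_le_mul_of_nonneg_left hb1 h4
        _ ≤ (b ^ 2) ^ k := h3
    have h5 : (‖δ‖ ^ 2)⁻¹ ≤ Δ ^ 2 := by
      rw [← inv_pow, ← norm_inv]
      exact pow_le_pow_left₀ (norm_nonneg _) hδ' 2
    rw [h1]
    calc (‖δ‖ ^ 2)⁻¹ ^ k * (‖δ‖ * ν (PowerSeries.coeff k w))
        ≤ (Δ ^ 2) ^ k * (Δ * (b ^ 2) ^ k) := by
          gcongr
      _ = Δ * (b ^ 2 * Δ ^ 2) ^ k := by rw [mul_pow (b ^ 2) (Δ ^ 2) k]; ring
      _ ≤ (2 * Δ) ^ (k + 1) * (1 + b ^ 2 * Δ ^ 2) ^ (k + 1) := by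
          refine mul_le_mul ?_ ?_ (by positivity) (by positivity)
          · calc Δ ≤ 2 * Δ := by linarith
              _ = (2 * Δ) ^ 1 := by ring
              _ ≤ (2 * Δ) ^ (k + 1) := pow_le_pow_right₀ (by linarith) (by omega)
          · calc (b ^ 2 * Δ ^ 2) ^ k ≤ (1 + b ^ 2 * Δ ^ 2) ^ k :=
                pow_le_pow_left₀ (by positivity) (by linarith) k
              _ ≤ (1 + b ^ 2 * Δ ^ 2) ^ (k + 1) :=
                pow_le_pow_right₀ (by have : 0 ≤ b ^ 2 * Δ ^ 2 := by positivity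
                                      linarith) (by omega)
      _ = (2 * Δ * (1 + b ^ 2 * Δ ^ 2)) ^ (k + 1) := (mul_pow _ _ _).symm

end Pool.Agent.H97.XC
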