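import Pool.Agent.H97.XC.Defs
import Mathlib.RingTheory.IntegralClosure.IntegrallyClosed

/-! # [XC-LIOU] Liouville's inequality for a permuted family

Proof. `z = ∏ a i` satisfies `τ z = ∏ τ (a i) = ∏ σ0 (a (π i)) = σ0 z` for all `τ`, so `z = r` is
rational (`hfix`), integral over `ℤ`, so `r` is an integer (`IsIntegrallyClosed`, as in
`IsIntegral` of a rational: `IsIntegrallyClosed.isIntegral_iff`), not `0`. Put `N = |r|`.
`N ≤ A^d`: `N = ‖σ0 z‖ = ∏ ‖σ0 (a i)‖`. `N / a i = ± ∏_(j ≠ i) a j` is integral.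
`‖(σ0 (a i))⁻¹‖ = ∏_(j ≠ i) ‖σ0 (a j)‖ / N ≤ A ^ (d - 1) ≤ A ^ d`. -/

namespace Pool.Agent.H97.XC

open Finset

theorem fam_liou {K : Type*} [Field K] [CharZero K] (σ0 : K →+* ℂ) (hfix : Fixd σ0) {d : ℕ}
    (a : Fin d → K) (ha : ∀ i, a i ≠ 0) (hint : ∀ i, IsIntegral ℤ (a i)) (heq : Eqv σ0 a)
    {A : ℝ} (hA : 1 ≤ A) (hle : ∀ i, ‖σ0 (a i)‖ ≤ A) :
    ∃ N : ℕ, 1 ≤ N ∧ (N : ℝ) ≤ A ^ d ∧ (∀ i, IsIntegral ℤ ((N : K) * (a i)⁻¹)) ∧
      ∀ i, ‖(σ0 (a i))⁻¹‖ ≤ A ^ d := by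
  classical
  have hA0 : (0 : ℝ) ≤ A := zero_le_one.trans hA
  set z : K := ∏ i, a i with hz
  have hz0 : z ≠ 0 := Finset.prod_ne_zero_iff.2 fun i _ => ha i
  have hzint : IsIntegral ℤ z := IsIntegral.prod _ fun i _ => hint i
  obtain ⟨r, hr⟩ := hfix z (by
    intro τ
    obtain ⟨π, hπ⟩ := heq τ
    rw [hz, map_prod, map_prod]
    calc ∏ i, τ (a i) = ∏ i, σ0 (a (π i)) := Finset.prod_congr rfl fun i _ => hπ i
      _ = ∏ i, σ0 (a i) := Equiv.prod_comp π (fun i => σ0 (a i)))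
  have hrint : IsIntegral ℤ r := by
    have h1 : IsIntegral ℤ (algebraMap ℚ K r) := by
      rw [eq_ratCast, ← hr]
      exact hzint
    exact (isIntegral_algebraMap_iff (algebraMap ℚ K).injective).1 h1
  obtain ⟨n, hn⟩ := IsIntegrallyClosed.isIntegral_iff.1 hrint
  have hzn : z = (n : K) := by
    rw [hr, ← hn]
    simp
  have hn0 : n ≠ 0 := by
    rintro rfl
    exact hz0 (by simpa using hzn)
  have hN1 : 1 ≤ n.natAbs := Int.natAbs_pos.2 hn0
  have hnorm : ‖σ0 z‖ = (n.natAbs : ℝ) := by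
    rw [hzn, map_intCast, Complex.norm_intCast, Nat.cast_natAbs, Int.cast_abs]
  have hprod : ∀ i, z = a i * ∏ j ∈ univ.erase i, a j := fun i =>
    (Finset.mul_prod_erase univ a (mem_univ i)).symm
  refine ⟨n.natAbs, hN1, ?_, ?_, ?_⟩
  · rw [← hnorm, hz, map_prod, norm_prod]
    calc ∏ i, ‖σ0 (a i)‖ ≤ ∏ _i : Fin d, A :=
          Finset.prod_le_prod (fun i _ => norm_nonneg _) fun i _ => hle i
      _ = A ^ d := by simp
  · intro i
    have h1 : IsIntegral ℤ (z * (a i)⁻¹) := by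
      have h2 : z * (a i)⁻¹ = ∏ j ∈ univ.erase i, a j := by
        rw [hprod i]
        field_simp [ha i]
      rw [h2]
      exact IsIntegral.prod _ fun j _ => hint j
    rcases Int.natAbs_eq n with h | h
    · have h3 : ((n.natAbs : ℕ) : K) = z := by
        rw [hzn]
        conv_rhs => rw [h]
        simp
      rw [h3]
      exact h1
    · have h3 : ((n.natAbs : ℕ) : K) = -z := by
        rw [hzn]
        conv_rhs => rw [h]
        simp
      rw [h3, neg_mul]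
      exact h1.neg
  · intro i
    have hσ : σ0 (a i) ≠ 0 := by
      rw [Ne, map_eq_zero]
      exact ha i
    have h1 : ‖σ0 (a i)‖ * ∏ j ∈ univ.erase i, ‖σ0 (a j)‖ = (n.natAbs : ℝ) := by
      rw [← hnorm, hz, map_prod, norm_prod]
      exact Finset.mul_prod_erase univ (fun j => ‖σ0 (a j)‖) (mem_univ i)
    have h2 : ∏ j ∈ univ.erase i, ‖σ0 (a j)‖ ≤ A ^ d := by
      calc ∏ j ∈ univ.erase i, ‖σ0 (a j)‖ ≤ ∏ _j ∈ univ.erase i, A :=
            Finset.prod_le_prod (fun i _ => norm_nonneg _) fun i _ => hle i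
        _ = A ^ (d - 1) := by
            rw [Finset.prod_const, Finset.card_erase_of_mem (mem_univ i), Finset.card_univ,
              Fintype.card_fin]
        _ ≤ A ^ d := pow_le_pow_right₀ hA (Nat.sub_le _ _)
    have hpos : 0 < ‖σ0 (a i)‖ := norm_pos_iff.2 hσ
    have hN : (1 : ℝ) ≤ (n.natAbs : ℝ) := by exact_mod_cast hN1
    rw [norm_inv]
    have h3 : ‖σ0 (a i)‖⁻¹ ≤ ∏ j ∈ univ.erase i, ‖σ0 (a j)‖ := by
      rw [inv_le_iff_one_le_mul₀' hpos, h1]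
      exact hN
    exact h3.trans h2

end Pool.Agent.H97.XC
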