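import Pool.Agent.H97.XC.EisC

/-! # [XC-NUM] The size of the constants

Notation: `L = LL d m B e s`, `S` the bound for `q1` and the coefficients, `n = 2 s d + e m + d + 2`.
Proof of `a2_le`: `(d + 1)(e m + 1) B ≤ L`, `q1^(e m) ≤ S^s` (`e m ≤ s`, `1 ≤ S`),
`2 (1 + (s + 1) H1) ≤ 4 (s + 1) H1 ≤ L S^(s + 1)` (`1 ≤ H1 ≤ S^(s+1)`), so
`A2 ≤ L S^s (L S^(s + 1))^d ≤ (L S)^((d + 1) (s + 2))`.
`rr_le`: `n + 1 ≤ 8 d (s + 1) ≤ L` (`e m ≤ s`), so with `Δ = A2^d`, `C = A2`: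
`RR d (e m) s A2 (A2^d) ≤ 2 A2^d (1 + (L^2 A2 A2^(3 n d))^2 A2^(2 d)) ≤ 4 L^4 A2^(6 n d + 3 d + 2)`,
`A2 ≥ 1`, `4 ≤ L`, so `≤ L^5 (L S)^((6 n d + 3 d + 2)(d + 1)(s + 2)) ≤ (L S)^(217 d^3 (s + 1)^2)`:
`6 n d + 3 d + 2 ≤ 48 d^2 (s + 1) + 5 d ≤ 53 d^2 (s + 1)`, `(d + 1)(s + 2) ≤ 4 d (s + 1)`.
`fin_le`: `2 + A2^(2 d) (S^(s + 1) + RR) ≤ (L S)^(2 + 8 d^2 (s+1) + 217 d^3 (s+1)^2 + ...) ≤
(L S)^(300 d^3 (s+1)^2)` and for `S = L^((14 d^2)^(s+1))`: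
`(L S)^(300 d^3 (s+1)^2) ≤ L^(600 d^3 (s+1)^2 (14 d^2)^(s+1)) ≤ CC d m B s` (`e ≤ d!`). -/

namespace Pool.Agent.H97.XC

open Finset Polynomial

theorem LL_mono {d m B e s : ℕ} (he : e ≤ d.factorial) :
    LL d m B e s ≤ LL d m B d.factorial s := by
  unfold LL
  gcongr

theorem num_LL_ge {d m B e s : ℕ} (hd : 1 ≤ d) : 8 ≤ LL d m B e s := by
  have h1 : 4 * 1 * (1 + 1) * (0 + 1) * (0 + 1) * (0 + 1) ≤ LL d m B e s := by
    unfold LL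
    gcongr <;> omega
  omega

theorem num_le_pow {Y : ℝ} (hY : 1 ≤ Y) {a b : ℕ} (h : a ≤ b) : Y ^ a ≤ Y ^ b :=
  pow_le_pow_right₀ hY h

theorem a2_le {d m B e s q1 : ℕ} (hd : 1 ≤ d) (hB : 1 ≤ B) (hem : e * m ≤ s) {S H1 A2 : ℝ}
    (hS : 1 ≤ S) (hq : (q1 : ℝ) ≤ S) (hq1 : 1 ≤ q1) (hH1 : 1 ≤ H1) (hH : H1 ≤ S ^ (s + 1))
    (hA2 : A2 = ((d : ℝ) + 1) * (((e * m : ℕ) : ℝ) + 1) * (B * (q1 : ℝ) ^ (e * m)) *
      (2 * (1 + ((s + 1 : ℕ) : ℝ) * H1)) ^ d) :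
    1 ≤ A2 ∧ A2 ≤ ((LL d m B e s : ℝ) * S) ^ ((d + 1) * (s + 2)) := by
  have hd' : (1 : ℝ) ≤ d := by exact_mod_cast hd
  have hB' : (1 : ℝ) ≤ B := by exact_mod_cast hB
  have hq1' : (1 : ℝ) ≤ q1 := by exact_mod_cast hq1
  have hs' : (1 : ℝ) ≤ ((s + 1 : ℕ) : ℝ) := by
    exact_mod_cast (by omega : 1 ≤ s + 1)
  have hM0 : (0 : ℝ) ≤ ((e * m : ℕ) : ℝ) := Nat.cast_nonneg _
  have hL8 : (8 : ℝ) ≤ (LL d m B e s : ℝ) := by exact_mod_cast num_LL_ge hd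
  have hL : (1 : ℝ) ≤ (LL d m B e s : ℝ) := by linarith
  have hLS : (1 : ℝ) ≤ (LL d m B e s : ℝ) * S := one_le_mul_of_one_le_of_one_le hL hS
  constructor
  · rw [hA2]
    have h1 : (1 : ℝ) ≤ (q1 : ℝ) ^ (e * m) := one_le_pow₀ hq1'
    have h2 : (1 : ℝ) ≤ (2 * (1 + ((s + 1 : ℕ) : ℝ) * H1)) ^ d := by
      apply one_le_pow₀
      nlinarith
    have h3 : (1 : ℝ) ≤ ((d : ℝ) + 1) * (((e * m : ℕ) : ℝ) + 1) := by nlinarith
    exact one_le_mul_of_one_le_of_one_le (one_le_mul_of_one_le_of_one_le h3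
      (one_le_mul_of_one_le_of_one_le hB' h1)) h2
  · have h1 : ((d : ℝ) + 1) * (((e * m : ℕ) : ℝ) + 1) * B ≤ (LL d m B e s : ℝ) := by
      have h2 : (d + 1) * (e * m + 1) * B ≤ LL d m B e s := by
        unfold LL
        calc (d + 1) * (e * m + 1) * B = 1 * (d + 1) * (e * m + 1) * B * 1 := by ring
          _ ≤ 4 * d * (d + 1) * (e * m + 1) * (B + 1) * (s + 1) := by
            gcongr <;> omega
      exact_mod_cast h2
    have h2 : (q1 : ℝ) ^ (e * m) ≤ S ^ s :=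
      (pow_le_pow_left₀ (by linarith) hq _).trans (num_le_pow hS hem)
    have h3 : 2 * (1 + ((s + 1 : ℕ) : ℝ) * H1) ≤ (LL d m B e s : ℝ) * S ^ (s + 1) := by
      have h4 : 4 * ((s + 1 : ℕ) : ℝ) ≤ (LL d m B e s : ℝ) := by
        have h5 : 4 * (s + 1) ≤ LL d m B e s := by
          unfold LL
          calc 4 * (s + 1) = 4 * 1 * 1 * 1 * 1 * (s + 1) := by ring
            _ ≤ 4 * d * (d + 1) * (e * m + 1) * (B + 1) * (s + 1) := by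
              gcongr <;> omega
        exact_mod_cast h5
      have h6 : 2 * (1 + ((s + 1 : ℕ) : ℝ) * H1) ≤ 4 * ((s + 1 : ℕ) : ℝ) * H1 := by nlinarith
      refine h6.trans ?_
      exact mul_le_mul h4 hH (by linarith) (by linarith)
    have hS0 : (0 : ℝ) ≤ S ^ s := by positivity
    calc A2 = (((d : ℝ) + 1) * (((e * m : ℕ) : ℝ) + 1) * B) * (q1 : ℝ) ^ (e * m) *
        (2 * (1 + ((s + 1 : ℕ) : ℝ) * H1)) ^ d := by rw [hA2]; ring
      _ ≤ (LL d m B e s : ℝ) * S ^ s * ((LL d m B e s : ℝ) * S ^ (s + 1)) ^ d := by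
        gcongr
      _ ≤ ((LL d m B e s : ℝ) * S) ^ (s + 2) * (((LL d m B e s : ℝ) * S) ^ (s + 2)) ^ d := by
        have h7 : (LL d m B e s : ℝ) * S ^ (s + 1) ≤ ((LL d m B e s : ℝ) * S) ^ (s + 2) := by
          rw [mul_pow]
          refine mul_le_mul ?_ (num_le_pow hS (by omega)) (by positivity) (by positivity)
          exact le_self_pow₀ hL (by omega)
        have h8 : (LL d m B e s : ℝ) * S ^ s ≤ ((LL d m B e s : ℝ) * S) ^ (s + 2) := by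
          refine le_trans ?_ h7
          exact mul_le_mul_of_nonneg_left (num_le_pow hS (by omega)) (by linarith)
        gcongr
      _ = ((LL d m B e s : ℝ) * S) ^ ((d + 1) * (s + 2)) := by
        rw [← pow_mul, ← pow_add]
        congr 1
        ring

theorem rr_le {d m B e s : ℕ} (hd : 1 ≤ d) (hem : e * m ≤ s) {S A2 : ℝ}
    (hS : 1 ≤ S) (hA1 : 1 ≤ A2) (hA2 : A2 ≤ ((LL d m B e s : ℝ) * S) ^ ((d + 1) * (s + 2))) :
    RR d (e * m) s A2 (A2 ^ d) ≤ ((LL d m B e s : ℝ) * S) ^ (217 * d ^ 3 * (s + 1) ^ 2) := by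
  have hL8 : (8 : ℝ) ≤ (LL d m B e s : ℝ) := by exact_mod_cast num_LL_ge hd
  have hL : (1 : ℝ) ≤ (LL d m B e s : ℝ) := by linarith
  have hLS : (1 : ℝ) ≤ (LL d m B e s : ℝ) * S := one_le_mul_of_one_le_of_one_le hL hS
  have hLY : (LL d m B e s : ℝ) ≤ (LL d m B e s : ℝ) * S := le_mul_of_one_le_right (by linarith) hS
  have hsd : s ≤ s * d := Nat.le_mul_of_pos_right s hd
  have hn : 2 * s * d + e * m + d + 2 + 1 ≤ LL d m B e s := by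
    have h1 : 4 * d * 2 * 1 * 1 * (s + 1) ≤ LL d m B e s := by
      unfold LL
      gcongr <;> omega
    nlinarith
  set Y : ℝ := (LL d m B e s : ℝ) * S with hY
  set n : ℕ := 2 * s * d + e * m + d + 2 with hn'
  have hn1 : ((n : ℝ) + 1) ≤ Y := by
    refine le_trans ?_ hLY
    exact_mod_cast hn
  have hn0 : (1 : ℝ) ≤ (n : ℝ) + 1 := by
    have : (0 : ℝ) ≤ (n : ℝ) := Nat.cast_nonneg _
    linarith
  have h1 : RR d (e * m) s A2 (A2 ^ d) =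
      2 * A2 ^ d * (1 + ((n : ℝ) + 1) ^ 4 * A2 ^ (2 + 6 * n * d + 2 * d)) := by
    unfold RR
    rw [← hn']
    ring
  have hA0 : 0 ≤ A2 := by linarith
  have h2 : (1 : ℝ) ≤ ((n : ℝ) + 1) ^ 4 * A2 ^ (2 + 6 * n * d + 2 * d) :=
    one_le_mul_of_one_le_of_one_le (one_le_pow₀ hn0) (one_le_pow₀ hA1)
  have h3 : RR d (e * m) s A2 (A2 ^ d) ≤
      4 * ((n : ℝ) + 1) ^ 4 * A2 ^ (6 * n * d + 3 * d + 2) := by
    rw [h1]
    have h4 : 2 * A2 ^ d * (1 + ((n : ℝ) + 1) ^ 4 * A2 ^ (2 + 6 * n * d + 2 * d)) ≤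
        2 * A2 ^ d * (2 * (((n : ℝ) + 1) ^ 4 * A2 ^ (2 + 6 * n * d + 2 * d))) := by
      apply mul_le_mul_of_nonneg_left _ (by positivity)
      linarith
    refine h4.trans (le_of_eq ?_)
    have h5 : A2 ^ (6 * n * d + 3 * d + 2) = A2 ^ d * A2 ^ (2 + 6 * n * d + 2 * d) := by
      rw [← pow_add]
      congr 1
      ring
    rw [h5]
    ring
  refine h3.trans ?_
  have h4 : (4 : ℝ) * ((n : ℝ) + 1) ^ 4 ≤ Y ^ 5 := by
    have h5 : (4 : ℝ) ≤ Y := by linarith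
    calc (4 : ℝ) * ((n : ℝ) + 1) ^ 4 ≤ Y * Y ^ 4 := by gcongr
      _ = Y ^ 5 := by ring
  calc (4 : ℝ) * ((n : ℝ) + 1) ^ 4 * A2 ^ (6 * n * d + 3 * d + 2)
      ≤ Y ^ 5 * (Y ^ ((d + 1) * (s + 2))) ^ (6 * n * d + 3 * d + 2) := by gcongr
    _ = Y ^ (5 + (d + 1) * (s + 2) * (6 * n * d + 3 * d + 2)) := by
      rw [← pow_mul, ← pow_add]
    _ ≤ Y ^ (217 * d ^ 3 * (s + 1) ^ 2) := by
      apply num_le_pow hLS
      have h6 : n ≤ 2 * s * d + s + d + 2 := by omega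
      have h7 : 6 * n * d + 3 * d + 2 ≤ 23 * d ^ 2 * (s + 1) := by
        have h8 : 6 * n * d ≤ 6 * (2 * s * d + s + d + 2) * d := by gcongr
        have h9 : d ≤ d ^ 2 := Nat.le_self_pow (by norm_num) d
        have h10 : 1 ≤ d ^ 2 := Nat.one_le_pow _ _ hd
        have h11 : s * d ≤ s * d ^ 2 := Nat.mul_le_mul_left s h9
        nlinarith
      have h8 : (d + 1) * (s + 2) ≤ 4 * d * (s + 1) := by
        calc (d + 1) * (s + 2) ≤ (2 * d) * (2 * (s + 1)) := by gcongr <;> omega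
          _ = 4 * d * (s + 1) := by ring
      have h9 : (d + 1) * (s + 2) * (6 * n * d + 3 * d + 2) ≤
          (4 * d * (s + 1)) * (23 * d ^ 2 * (s + 1)) := Nat.mul_le_mul h8 h7
      have h10 : (4 * d * (s + 1)) * (23 * d ^ 2 * (s + 1)) = 92 * (d ^ 3 * (s + 1) ^ 2) := by ring
      have h11 : 1 ≤ d ^ 3 * (s + 1) ^ 2 :=
        Nat.one_le_iff_ne_zero.2 (by positivity)
      have h12 : 217 * d ^ 3 * (s + 1) ^ 2 = 217 * (d ^ 3 * (s + 1) ^ 2) := by ring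
      omega

/-- monotonicity in `s` and `C` -/
theorem RR_mono {d M s s' : ℕ} (hs : s ≤ s') {C C' Δ : ℝ} (hC0 : 0 ≤ C) (hC : C ≤ C')
    (hΔ : 1 ≤ Δ) : RR d M s C Δ ≤ RR d M s' C' Δ := by
  unfold RR
  have h1 : 2 * s * d + M + d + 2 ≤ 2 * s' * d + M + d + 2 := by gcongr
  have h2 : ((2 * s * d + M + d + 2 : ℕ) : ℝ) ≤ ((2 * s' * d + M + d + 2 : ℕ) : ℝ) := by
    exact_mod_cast h1
  have h3 : Δ ^ (3 * (2 * s * d + M + d + 2)) ≤ Δ ^ (3 * (2 * s' * d + M + d + 2)) :=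
    num_le_pow hΔ (by omega)
  have h4 : (0 : ℝ) ≤ ((2 * s * d + M + d + 2 : ℕ) : ℝ) := Nat.cast_nonneg _
  have hΔ0 : 0 ≤ Δ := by linarith
  have hC'0 : 0 ≤ C' := hC0.trans hC
  gcongr

theorem fin_le {d m B e s q1 N : ℕ} (hd : 1 ≤ d) (he : e ≤ d.factorial) (hem : e * m ≤ s)
    {S A2 : ℝ} (hSd : S = (LL d m B e s : ℝ) ^ ((14 * d ^ 2) ^ (s + 1)))
    (hq : (q1 : ℝ) ≤ S) (hA1 : 1 ≤ A2)
    (hA2 : A2 ≤ ((LL d m B e s : ℝ) * S) ^ ((d + 1) * (s + 2))) (hN : (N : ℝ) ≤ A2 ^ d) :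
    ((q1 * N ^ 2 : ℕ) : ℝ) ≤ (CC d m B s : ℝ) ∧
      2 + ((N ^ 2 : ℕ) : ℝ) * (S ^ (s + 1) + RR d (e * m) s A2 (A2 ^ d)) ≤ (CC d m B s : ℝ) := by
  have hL8 : (8 : ℝ) ≤ (LL d m B e s : ℝ) := by exact_mod_cast num_LL_ge hd
  have hL : (1 : ℝ) ≤ (LL d m B e s : ℝ) := by linarith
  have hS : 1 ≤ S := by
    rw [hSd]
    exact one_le_pow₀ hL
  have hLS : (1 : ℝ) ≤ (LL d m B e s : ℝ) * S := one_le_mul_of_one_le_of_one_le hL hS
  have hLY : (LL d m B e s : ℝ) ≤ (LL d m B e s : ℝ) * S := le_mul_of_one_le_right (by linarith) hS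
  have hSY : S ≤ (LL d m B e s : ℝ) * S := le_mul_of_one_le_left (by linarith) hL
  have hLL' : (LL d m B e s : ℝ) ≤ (LL d m B d.factorial s : ℝ) := by
    exact_mod_cast LL_mono he
  have hrr := rr_le hd hem hS hA1 hA2
  set Y : ℝ := (LL d m B e s : ℝ) * S with hY
  set L' : ℝ := (LL d m B d.factorial s : ℝ) with hL'
  set K : ℕ := (14 * d ^ 2) ^ (s + 1) with hK
  have hK1 : 1 ≤ K := Nat.one_le_iff_ne_zero.2 (by positivity)
  have hL'1 : 1 ≤ L' := by linarith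
  have hY1 : Y ≤ L' ^ (2 * K) := by
    have h1 : S ≤ L' ^ K := by
      rw [hSd]
      exact pow_le_pow_left₀ (by linarith) hLL' _
    calc Y ≤ L' ^ K * L' ^ K := by
          rw [hY]
          refine mul_le_mul ?_ h1 (by linarith) (by positivity)
          exact hLL'.trans (le_self_pow₀ hL'1 (by omega))
      _ = L' ^ (2 * K) := by
          rw [← pow_add]
          congr 1
          ring
  have hE1 : 1 ≤ d ^ 3 * (s + 1) ^ 2 := Nat.one_le_iff_ne_zero.2 (by positivity)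
  have hCC : Y ^ (300 * (d ^ 3 * (s + 1) ^ 2)) ≤ (CC d m B s : ℝ) := by
    unfold CC
    rw [Nat.cast_pow, ← hL', ← hK]
    calc Y ^ (300 * (d ^ 3 * (s + 1) ^ 2)) ≤ (L' ^ (2 * K)) ^ (300 * (d ^ 3 * (s + 1) ^ 2)) :=
          pow_le_pow_left₀ (by linarith) hY1 _
      _ = L' ^ (600 * d ^ 3 * (s + 1) ^ 2 * K) := by
          rw [← pow_mul]
          congr 1
          ring
  have h8 : (d + 1) * (s + 2) ≤ 4 * d * (s + 1) := by
    calc (d + 1) * (s + 2) ≤ (2 * d) * (2 * (s + 1)) := by gcongr <;> omega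
      _ = 4 * d * (s + 1) := by ring
  have h9 : d ^ 2 * (s + 1) ≤ d ^ 3 * (s + 1) ^ 2 := by
    have h10 : d ^ 2 ≤ d ^ 3 := Nat.pow_le_pow_right hd (by norm_num)
    have h11 : s + 1 ≤ (s + 1) ^ 2 := Nat.le_self_pow (by norm_num) _
    exact Nat.mul_le_mul h10 h11
  have hN2 : ((N ^ 2 : ℕ) : ℝ) ≤ Y ^ (8 * (d ^ 3 * (s + 1) ^ 2)) := by
    have h10 : (N : ℝ) ≤ Y ^ (4 * (d ^ 3 * (s + 1) ^ 2)) := by
      refine hN.trans ((pow_le_pow_left₀ (by linarith) hA2 d).trans ?_)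
      rw [← pow_mul]
      apply num_le_pow hLS
      calc (d + 1) * (s + 2) * d ≤ 4 * d * (s + 1) * d := Nat.mul_le_mul_right d h8
        _ = 4 * (d ^ 2 * (s + 1)) := by ring
        _ ≤ 4 * (d ^ 3 * (s + 1) ^ 2) := Nat.mul_le_mul_left 4 h9
    rw [Nat.cast_pow]
    calc (N : ℝ) ^ 2 ≤ (Y ^ (4 * (d ^ 3 * (s + 1) ^ 2))) ^ 2 :=
          pow_le_pow_left₀ (Nat.cast_nonneg _) h10 2
      _ = Y ^ (8 * (d ^ 3 * (s + 1) ^ 2)) := by
          rw [← pow_mul]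
          congr 1
          ring
  have hY0 : (0 : ℝ) ≤ Y := by linarith
  constructor
  · refine le_trans ?_ hCC
    rw [Nat.cast_mul]
    calc (q1 : ℝ) * ((N ^ 2 : ℕ) : ℝ) ≤ Y ^ 1 * Y ^ (8 * (d ^ 3 * (s + 1) ^ 2)) := by
          rw [pow_one]
          exact mul_le_mul (hq.trans hSY) hN2 (Nat.cast_nonneg _) hY0
      _ = Y ^ (1 + 8 * (d ^ 3 * (s + 1) ^ 2)) := by rw [← pow_add]
      _ ≤ Y ^ (300 * (d ^ 3 * (s + 1) ^ 2)) := num_le_pow hLS (by omega)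
  · refine le_trans ?_ hCC
    have h12 : 217 * d ^ 3 * (s + 1) ^ 2 = 217 * (d ^ 3 * (s + 1) ^ 2) := by ring
    rw [h12] at hrr
    have h13 : S ^ (s + 1) ≤ Y ^ (217 * (d ^ 3 * (s + 1) ^ 2)) := by
      refine (pow_le_pow_left₀ (by linarith) hSY _).trans (num_le_pow hLS ?_)
      have h14 : s + 1 ≤ d ^ 2 * (s + 1) := Nat.le_mul_of_pos_left _ (by positivity)
      omega
    have h15 : (2 : ℝ) ≤ 2 * Y ^ (225 * (d ^ 3 * (s + 1) ^ 2)) := by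
      have := one_le_pow₀ (n := 225 * (d ^ 3 * (s + 1) ^ 2)) hLS
      linarith
    have hRR0 : 0 ≤ RR d (e * m) s A2 (A2 ^ d) := by
      unfold RR
      have : 0 ≤ A2 := by linarith
      positivity
    calc 2 + ((N ^ 2 : ℕ) : ℝ) * (S ^ (s + 1) + RR d (e * m) s A2 (A2 ^ d))
        ≤ 2 * Y ^ (225 * (d ^ 3 * (s + 1) ^ 2)) + Y ^ (8 * (d ^ 3 * (s + 1) ^ 2)) *
          (Y ^ (217 * (d ^ 3 * (s + 1) ^ 2)) + Y ^ (217 * (d ^ 3 * (s + 1) ^ 2))) := by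
          refine add_le_add h15 (mul_le_mul hN2 (add_le_add h13 hrr) ?_ (by positivity))
          have : 0 ≤ S ^ (s + 1) := by positivity
          linarith
      _ = 4 * Y ^ (225 * (d ^ 3 * (s + 1) ^ 2)) := by
          have h16 : Y ^ (225 * (d ^ 3 * (s + 1) ^ 2)) =
              Y ^ (8 * (d ^ 3 * (s + 1) ^ 2)) * Y ^ (217 * (d ^ 3 * (s + 1) ^ 2)) := by
            rw [← pow_add]
            congr 1
            ring
          rw [h16]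
          ring
      _ ≤ Y ^ 1 * Y ^ (225 * (d ^ 3 * (s + 1) ^ 2)) := by
          rw [pow_one]
          apply mul_le_mul_of_nonneg_right _ (by positivity)
          linarith
      _ = Y ^ (1 + 225 * (d ^ 3 * (s + 1) ^ 2)) := by rw [← pow_add]
      _ ≤ Y ^ (300 * (d ^ 3 * (s + 1) ^ 2)) := num_le_pow hLS (by omega)

end Pool.Agent.H97.XC
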