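import Pool.Agent.H97.XC.Defs

/-! # [XC-PAT] The equation of the next coefficient

Proof. `pos_spec`: the first components of the elements of `S` have a minimum `μ` (`Nat.find`), and
the `j` with `(μ, j) ∈ S` are at most `d`, so they have a maximum; so the condition in `pos` holds.
`SS_bdd`: `(taylor p P).coeff j = 0` for `j > d` (`natDegree_taylor`). `SS_nonempty`: the
coefficient of `Y^d` of `taylor p P` is `1` (`P` monic: `taylor_monic` or `leadingCoeff`), so
`gk P k x (k * d) d = 1 ≠ 0`.
`next_root`: `p = trunc k x`, `x = p + T^k y` with `constantCoeff y = coeff k x`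
(`y = PowerSeries.mk fun j => coeff (k + j) x`). `0 = P.eval x = (taylor p P).eval (T^k y) =
∑_j T^(k j) t_j y^j` (`taylor_eval`, `eval_eq_sum_range'`). With `μ = (pos S).1` every
`T^(k j) t_j` is divisible by `T^μ` (its coefficients at `μ' < μ` vanish by minimality), so the
coefficient of `T^μ` of `T^(k j) t_j y^j` is `gk P k x μ j * (constantCoeff y)^j`
(write `T^(k j) t_j = T^μ h_j`), and `gk P k x μ j = 0` for `j > (pos S).2`. -/

namespace Pool.Agent.H97.XC

open Finset Polynomial

theorem pos_spec (S : Set (ℕ × ℕ)) (hS : S.Nonempty) (d : ℕ) (hd : ∀ p ∈ S, p.2 ≤ d) :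
    pos S ∈ S ∧ (∀ p ∈ S, (pos S).1 ≤ p.1) ∧ ∀ j, ((pos S).1, j) ∈ S → j ≤ (pos S).2 := by
  classical
  have hex : ∃ p : ℕ × ℕ, p ∈ S ∧ (∀ p' ∈ S, p.1 ≤ p'.1) ∧ ∀ j, (p.1, j) ∈ S → j ≤ p.2 := by
    have h1 : ∃ μ, ∃ j, (μ, j) ∈ S := by
      obtain ⟨⟨a, b⟩, h⟩ := hS
      exact ⟨a, b, h⟩
    set μ := Nat.find h1 with hμ
    obtain ⟨j₀, hj₀⟩ := Nat.find_spec h1
    set J := (range (d + 1)).filter (fun j => (μ, j) ∈ S) with hJ
    have hJne : J.Nonempty := by
      refine ⟨j₀, ?_⟩
      rw [hJ, mem_filter, mem_range]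
      exact ⟨Nat.lt_succ_of_le (hd _ hj₀), hj₀⟩
    refine ⟨(μ, J.max' hJne), ?_, ?_, ?_⟩
    · exact (mem_filter.1 (J.max'_mem hJne)).2
    · rintro ⟨a, b⟩ hab
      exact Nat.find_min' h1 ⟨b, hab⟩
    · intro j hj
      refine J.le_max' j ?_
      rw [hJ, mem_filter, mem_range]
      exact ⟨Nat.lt_succ_of_le (hd _ hj), hj⟩
  have hpos : pos S = hex.choose := by
    unfold pos
    rw [dif_pos hex]
  rw [hpos]
  exact hex.choose_spec

variable {K : Type*} [Field K]

theorem SS_nonempty (P : (PowerSeries K)[X]) (hP : P.Monic) (k : ℕ) (x : PowerSeries K) :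
    (SS P k x).Nonempty := by
  refine ⟨(k * P.natDegree, P.natDegree), ?_⟩
  show gk P k x (k * P.natDegree) P.natDegree ≠ 0
  unfold gk
  have h1 : (taylor ((PowerSeries.trunc k x : K[X]) : PowerSeries K) P).coeff P.natDegree = 1 := by
    have h2 := leadingCoeff_taylor ((PowerSeries.trunc k x : K[X]) : PowerSeries K) P
    rw [hP.leadingCoeff, leadingCoeff, natDegree_taylor] at h2
    exact h2
  rw [h1, mul_one, PowerSeries.coeff_X_pow_self]
  exact one_ne_zero

theorem SS_bdd (P : (PowerSeries K)[X]) (k : ℕ) (x : PowerSeries K) :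
    ∀ p ∈ SS P k x, p.2 ≤ P.natDegree := by
  rintro ⟨μ, j⟩ h
  by_contra hj
  rw [not_le] at hj
  apply h
  show gk P k x μ j = 0
  unfold gk
  rw [coeff_eq_zero_of_natDegree_lt (by rw [natDegree_taylor]; exact hj), mul_zero, map_zero]

theorem next_root (P : (PowerSeries K)[X]) (hP : P.Monic) (k : ℕ) (x : PowerSeries K)
    (hx : P.eval x = 0) :
    leadc P k x ≠ 0 ∧ (pos (SS P k x)).2 ≤ P.natDegree ∧
      ∑ j ∈ range ((pos (SS P k x)).2 + 1),
        gk P k x (pos (SS P k x)).1 j * PowerSeries.coeff k x ^ j = 0 := by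
  obtain ⟨hmem, hmin, hmax⟩ := pos_spec (SS P k x) (SS_nonempty P hP k x) P.natDegree
    (SS_bdd P k x)
  set μ := (pos (SS P k x)).1 with hμ
  set J := (pos (SS P k x)).2 with hJ
  have hJd : J ≤ P.natDegree := SS_bdd P k x _ hmem
  refine ⟨hmem, hJd, ?_⟩
  set p : PowerSeries K := ((PowerSeries.trunc k x : K[X]) : PowerSeries K) with hp
  set y : PowerSeries K := PowerSeries.mk (fun i => PowerSeries.coeff (i + k) x) with hy
  have hxy : x = PowerSeries.X ^ k * y + p := PowerSeries.eq_X_pow_mul_shift_add_trunc k x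
  have hy0 : PowerSeries.constantCoeff y = PowerSeries.coeff k x := by
    rw [← PowerSeries.coeff_zero_eq_constantCoeff_apply, hy, PowerSeries.coeff_mk, zero_add]
  have h0 : (taylor p P).eval (PowerSeries.X ^ k * y) = 0 := by
    rw [taylor_eval, ← hxy, hx]
  rw [eval_eq_sum_range, natDegree_taylor] at h0
  have hz : ∀ a < μ, ∀ j, gk P k x a j = 0 := by
    intro a ha j
    by_contra hne
    have := hmin (a, j) hne
    simp only at this
    omega
  have hz2 : ∀ j, J < j → gk P k x μ j = 0 := by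
    intro j hj
    by_contra hne
    have := hmax j hne
    omega
  have hterm : ∀ j, PowerSeries.coeff μ ((taylor p P).coeff j * (PowerSeries.X ^ k * y) ^ j) =
      gk P k x μ j * PowerSeries.coeff k x ^ j := by
    intro j
    have h1 : (taylor p P).coeff j * (PowerSeries.X ^ k * y) ^ j =
        (PowerSeries.X ^ (k * j) * (taylor p P).coeff j) * y ^ j := by
      rw [mul_pow, pow_mul]
      ring
    rw [h1, PowerSeries.coeff_mul, Finset.sum_eq_single (μ, 0)]
    · rw [PowerSeries.coeff_zero_eq_constantCoeff_apply, map_pow, hy0]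
      rfl
    · rintro ⟨a, b⟩ hab hne
      rw [HasAntidiagonal.mem_antidiagonal] at hab
      have ha : a < μ := by
        rcases Nat.eq_zero_or_pos b with hb | hb
        · exfalso
          apply hne
          simp only at hab
          rw [Prod.mk.injEq]
          exact ⟨by omega, hb⟩
        · simp only at hab
          omega
      have := hz a ha j
      unfold gk at this
      rw [← hp] at this
      rw [this, zero_mul]
    · intro h
      exact absurd (HasAntidiagonal.mem_antidiagonal.2 (by simp)) h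
  have h2 := congrArg (PowerSeries.coeff μ) h0
  rw [map_sum, map_zero] at h2
  rw [Finset.sum_congr rfl (fun j _ => hterm j)] at h2
  rw [← h2]
  refine Finset.sum_subset (fun j hj => ?_) (fun j hj hj' => ?_)
  · rw [mem_range] at hj ⊢
    omega
  · rw [mem_range, not_lt] at hj'
    rw [hz2 j (by omega), zero_mul]

end Pool.Agent.H97.XC
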