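import Pool.Agent.H97.XC.Defs

/-! # [XC-ROOTB] Integrality and size of a root of a polynomial

Proof. `root_int`: multiply by `g_J^(J-1)`: `u = g_J c` satisfies
`u^J + ∑_(j < J) g_j g_J^(J - 1 - j) u^j = 0`, a monic equation with integral coefficients, so `u` is
integral over the integral closure of `ℤ` in `K`, hence over `ℤ` (`isIntegral_trans`; or
`isIntegral_leadingCoeff_smul` for `R = integralClosure ℤ K`). `J = 0`: `g 0 = 0`.
`root_size`: if `‖c‖ ≤ 1` clear. Otherwise `J ≥ 1` and `‖g_J‖ ‖c‖^J ≤ ∑_(j < J) A ‖c‖^j ≤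
J A ‖c‖^(J - 1)`; divide. -/

namespace Pool.Agent.H97.XC

open Finset Polynomial

theorem root_int {K : Type*} [Field K] (J : ℕ) (g : ℕ → K) (c : K)
    (h : ∑ j ∈ range (J + 1), g j * c ^ j = 0) (hg : ∀ j ≤ J, IsIntegral ℤ (g j)) :
    IsIntegral ℤ (g J * c) := by
  by_cases h0 : g J = 0
  · rw [h0, zero_mul]
    exact isIntegral_zero
  classical
  obtain ⟨a, ha⟩ : ∃ a : ℕ → integralClosure ℤ K, ∀ j ≤ J, (a j : K) = g j :=
    ⟨fun j => if hj : j ≤ J then ⟨g j, hg j hj⟩ else 0, fun j hj => by simp [hj]⟩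
  set q : (integralClosure ℤ K)[X] := ∑ j ∈ range (J + 1), C (a j) * X ^ j with hq
  have hcoeff : q.coeff J = a J := by
    rw [hq, finsetSum_coeff]
    simp only [coeff_C_mul_X_pow]
    rw [sum_ite_eq, if_pos (mem_range.2 (Nat.lt_succ_self J))]
  have haJ : a J ≠ 0 := by
    intro h1
    apply h0
    rw [← ha J le_rfl, h1]
    rfl
  have hdeg : q.natDegree = J := by
    apply le_antisymm
    · rw [hq]
      refine natDegree_sum_le_of_forall_le _ _ fun j hj => ?_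
      rw [mem_range] at hj
      exact (natDegree_C_mul_X_pow_le _ _).trans (by omega)
    · exact le_natDegree_of_ne_zero (by rw [hcoeff]; exact haJ)
  have hroot : aeval c q = 0 := by
    rw [hq, map_sum, ← h]
    refine sum_congr rfl fun j hj => ?_
    rw [mem_range] at hj
    rw [map_mul, aeval_C, map_pow, aeval_X, ← ha j (by omega)]
    rfl
  have h1 := isIntegral_leadingCoeff_smul q c hroot
  rw [leadingCoeff, hdeg, hcoeff] at h1
  have h2 : IsIntegral ℤ (a J • c) := isIntegral_trans (R := ℤ) (A := integralClosure ℤ K) _ h1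
  have h3 : a J • c = g J * c := by
    rw [Algebra.smul_def, ← ha J le_rfl]
    rfl
  rwa [h3] at h2

theorem root_size (J : ℕ) (g : ℕ → ℂ) (c : ℂ) (h : ∑ j ∈ range (J + 1), g j * c ^ j = 0)
    (hJ : g J ≠ 0) {A : ℝ} (hA : ∀ j ≤ J, ‖g j‖ ≤ A) :
    ‖c‖ ≤ 1 + J * A * ‖(g J)⁻¹‖ := by
  have hA0 : 0 ≤ A := (norm_nonneg _).trans (hA 0 (Nat.zero_le _))
  have hp : 0 ≤ (J : ℝ) * A * ‖(g J)⁻¹‖ := by positivity
  rcases le_or_gt ‖c‖ 1 with hc | hc
  · linarith
  have hgJ : 0 < ‖g J‖ := norm_pos_iff.2 hJ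
  rw [sum_range_succ] at h
  have h1 : g J * c ^ J = - ∑ j ∈ range J, g j * c ^ j := by
    linear_combination h
  have h2 : ‖g J‖ * ‖c‖ ^ J ≤ J * A * ‖c‖ ^ (J - 1) := by
    rw [← norm_pow, ← norm_mul, h1, norm_neg]
    refine (norm_sum_le _ _).trans ?_
    have h3 : ∀ j ∈ range J, ‖g j * c ^ j‖ ≤ A * ‖c‖ ^ (J - 1) := by
      intro j hj
      rw [mem_range] at hj
      rw [norm_mul, norm_pow]
      exact mul_le_mul (hA j hj.le) (pow_le_pow_right₀ hc.le (by omega)) (by positivity) hA0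
    refine (sum_le_card_nsmul _ _ _ h3).trans (le_of_eq ?_)
    rw [card_range, nsmul_eq_mul, mul_assoc]
  rcases Nat.eq_zero_or_pos J with hJ0 | hJ0
  · subst hJ0
    simp at h
    exact absurd h hJ
  · obtain ⟨r, rfl⟩ : ∃ r, J = r + 1 := ⟨J - 1, by omega⟩
    rw [Nat.add_sub_cancel, pow_succ, ← mul_assoc, mul_right_comm] at h2
    have h3 : ‖g (r + 1)‖ * ‖c‖ ≤ ((r + 1 : ℕ) : ℝ) * A :=
      le_of_mul_le_mul_right h2 (by positivity)
    have h4 : ‖c‖ ≤ ((r + 1 : ℕ) : ℝ) * A * ‖(g (r + 1))⁻¹‖ := by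
      rw [norm_inv, ← div_eq_mul_inv, le_div_iff₀ hgJ, mul_comm]
      exact h3
    linarith

end Pool.Agent.H97.XC
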