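import Pool.Agent.H97.XC.Liou
import Pool.Agent.H97.XC.TayB
import Pool.Agent.H97.XC.Pat
import Pool.Agent.H97.XC.RootB
import Pool.Agent.H97.XC.EqvA
import Pool.Agent.H97.XC.Tq

/-! # [XC-STEP] The next coefficient

Proof. Put `P = f.map (tKq K e 1)` (monic of degree `d`), `p i = trunc k (ξ i)`, `A1 = q^d A`.
`(P.coeff j)` has integral coefficients `≤ B`, zero beyond `e m` (`tKq_int`, `tKq_le`, `tKq_zero`).
By `tb_taylor` (`ν a = ‖σ0 a‖`, a `SubMul`) and `ti_taylor` every `gk P k (ξ i) μ j` (a coefficient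
of a Taylor coefficient, shifted: `PowerSeries.coeff_X_pow_mul'`) satisfies `‖σ0 _‖ ≤ A` and `q^d * _`
is integral. The family `a i = q^d * leadc P k (ξ i)` satisfies `Eqv` (`eqv_leadc`), is integral,
`≠ 0` (`next_root`), `‖σ0 (a i)‖ ≤ A1`. `fam_liou`: `N`. `next_root` and `root_int` (for
`g j = q^d * gk P k (ξ i) μ j`): `a i * c` is integral, `c = coeff k (ξ i)`, so
`N c = (N (a i)⁻¹) (a i * c)` is integral. `root_size` (for `σ0` of `g`, `J ≤ d`):
`‖σ0 c‖ ≤ 1 + d * A1 * A1^d`. -/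

namespace Pool.Agent.H97.XC

open Finset Polynomial Pool.Agent.H72.ES

theorem subMul_emb {K : Type*} [Field K] (σ0 : K →+* ℂ) : SubMul (fun a : K => ‖σ0 a‖) where
  nonneg _ := norm_nonneg _
  zero := by simp
  neg a := by simp
  add a b := by
    show ‖σ0 (a + b)‖ ≤ ‖σ0 a‖ + ‖σ0 b‖
    rw [map_add]
    exact norm_add_le _ _
  mul a b := by
    show ‖σ0 (a * b)‖ ≤ ‖σ0 a‖ * ‖σ0 b‖
    rw [map_mul, norm_mul]
  one := by simp

theorem coeff_trunc_coe {K : Type*} [CommRing K] (k : ℕ) (x : PowerSeries K) (j : ℕ) :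
    PowerSeries.coeff j ((PowerSeries.trunc k x : K[X]) : PowerSeries K) =
      if j < k then PowerSeries.coeff j x else 0 := by
  rw [Polynomial.coeff_coe, PowerSeries.coeff_trunc]

theorem step {K : Type*} [Field K] [CharZero K] {σ0 : K →+* ℂ} (hfix : Fixd σ0) {f : ℤ[X][X]}
    {d m B e : ℕ} {ξ : Fin d → PowerSeries K} (D : Dat σ0 f d m B e 1 ξ) (hB : 1 ≤ B) (k q : ℕ)
    (hq : 1 ≤ q) {H : ℝ} (hH : 1 ≤ H)
    (hint : ∀ i, ∀ j < k, IsIntegral ℤ ((q : K) * PowerSeries.coeff j (ξ i)))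
    (hle : ∀ i, ∀ j < k, ‖σ0 (PowerSeries.coeff j (ξ i))‖ ≤ H) {A1 : ℝ}
    (hA1 : A1 = (q : ℝ) ^ d * (((d : ℝ) + 1) * (((e * m : ℕ) : ℝ) + 1) * B *
      (2 * (1 + k * H)) ^ d)) :
    ∃ N : ℕ, 1 ≤ N ∧ (N : ℝ) ≤ A1 ^ d ∧
      (∀ i, IsIntegral ℤ ((N : K) * PowerSeries.coeff k (ξ i))) ∧
      ∀ i, ‖σ0 (PowerSeries.coeff k (ξ i))‖ ≤ 1 + d * A1 ^ (d + 1) := by
  classical
  set P : (PowerSeries K)[X] := f.map (tKq K e 1) with hPdef
  have hPm : P.Monic := D.monic.map _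
  have hPd : P.natDegree = d := by
    rw [hPdef, D.monic.natDegree_map, D.deg]
  have hroot : ∀ i, P.eval (ξ i) = 0 := by
    intro i
    rw [hPdef, D.split, eval_prod]
    exact Finset.prod_eq_zero (mem_univ i) (by simp)
  have hq0 : (q : K) ≠ 0 := by exact_mod_cast (Nat.one_le_iff_ne_zero.1 hq)
  have hqd0 : (q : K) ^ d ≠ 0 := pow_ne_zero _ hq0
  have hH0 : (0 : ℝ) ≤ H := zero_le_one.trans hH
  have hqR : (1 : ℝ) ≤ (q : ℝ) := by exact_mod_cast hq
  have hBR : (1 : ℝ) ≤ (B : ℝ) := by exact_mod_cast hB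
  set A : ℝ := ((d : ℝ) + 1) * (((e * m : ℕ) : ℝ) + 1) * B * (2 * (1 + k * H)) ^ d with hAdef
  have hkH : (0 : ℝ) ≤ k * H := mul_nonneg (Nat.cast_nonneg _) hH0
  have hA_one : 1 ≤ A := by
    have h1 : (1 : ℝ) ≤ (d : ℝ) + 1 := by linarith [(Nat.cast_nonneg d : (0 : ℝ) ≤ d)]
    have h2 : (1 : ℝ) ≤ ((e * m : ℕ) : ℝ) + 1 := by
      linarith [(Nat.cast_nonneg (e * m) : (0 : ℝ) ≤ ((e * m : ℕ) : ℝ))]
    have h3 : (1 : ℝ) ≤ (2 * (1 + k * H)) ^ d := one_le_pow₀ (by linarith)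
    have h4 := one_le_mul_of_one_le_of_one_le h1 h2
    have h5 := one_le_mul_of_one_le_of_one_le h4 hBR
    exact one_le_mul_of_one_le_of_one_le h5 h3
  have hA1A : A1 = (q : ℝ) ^ d * A := hA1
  have hA1_one : 1 ≤ A1 := by
    rw [hA1A]
    exact one_le_mul_of_one_le_of_one_le (one_le_pow₀ hqR) hA_one
  have hA1_0 : 0 ≤ A1 := zero_le_one.trans hA1_one
  -- the coefficients of `P(T, p + T^k Y)`
  have hgk_le : ∀ i μ j, ‖σ0 (gk P k (ξ i) μ j)‖ ≤ A := by
    intro i μ j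
    unfold gk
    rw [PowerSeries.coeff_X_pow_mul']
    split_ifs with h
    · refine tb_taylor (subMul_emb σ0) P d (e * m) hPd.le (B := (B : ℝ)) (zero_le_one.trans hBR)
        (fun j i hi => tKq_zero D.bd D.e1 j i hi) (fun j i => ?_) _ k hH0 (fun j hj => ?_)
        (fun j => ?_) j _
      · have h9 := tKq_le D.bd D.e1 (le_refl 1) σ0 j i
        rw [Nat.cast_one, one_pow, mul_one] at h9
        exact h9
      · rw [coeff_trunc_coe, if_neg (by omega)]
      · rw [coeff_trunc_coe]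
        split_ifs with hj
        · exact hle i j hj
        · simpa using hH0
    · rw [map_zero, norm_zero]
      exact zero_le_one.trans hA_one
  have hgk_int : ∀ i μ j, IsIntegral ℤ ((q : K) ^ d * gk P k (ξ i) μ j) := by
    intro i μ j
    unfold gk
    rw [PowerSeries.coeff_X_pow_mul']
    split_ifs with h
    · refine ti_taylor P d hPd.le (fun j i => tKq_int f e 1 D.e1 j i) _ q (fun j => ?_) j _
      rw [coeff_trunc_coe]
      split_ifs with hj
      · exact hint i j hj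
      · rw [mul_zero]
        exact isIntegral_zero
    · rw [mul_zero]
      exact isIntegral_zero
  have hnext := fun i => next_root P hPm k (ξ i) (hroot i)
  set a : Fin d → K := fun i => (q : K) ^ d * leadc P k (ξ i) with ha
  have ha0 : ∀ i, a i ≠ 0 := fun i => mul_ne_zero hqd0 (hnext i).1
  have haint : ∀ i, IsIntegral ℤ (a i) := fun i => hgk_int i _ _
  have heqv : Eqv σ0 a := by
    intro τ
    obtain ⟨π, hπ⟩ := eqv_leadc σ0 f e 1 ξ D.inj D.split k τ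
    refine ⟨π, fun i => ?_⟩
    have h1 : τ (leadc P k (ξ i)) = σ0 (leadc P k (ξ (π i))) := hπ i
    simp only [ha, map_mul, map_pow, map_natCast, h1]
  have hqn : ‖σ0 ((q : K) ^ d)‖ = (q : ℝ) ^ d := by
    rw [map_pow, map_natCast, norm_pow, Complex.norm_natCast]
  have hgA : ∀ i μ j, ‖σ0 ((q : K) ^ d * gk P k (ξ i) μ j)‖ ≤ A1 := by
    intro i μ j
    rw [map_mul, norm_mul, hqn, hA1A]
    exact mul_le_mul_of_nonneg_left (hgk_le i μ j) (by positivity)
  have hale : ∀ i, ‖σ0 (a i)‖ ≤ A1 := fun i => hgA i _ _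
  obtain ⟨N, hN1, hNle, hNint, hNinv⟩ := fam_liou σ0 hfix a ha0 haint heqv hA1_one hale
  refine ⟨N, hN1, hNle, fun i => ?_, fun i => ?_⟩
  · obtain ⟨_, hJ, hsum⟩ := hnext i
    set μ := (pos (SS P k (ξ i))).1 with hμ
    set J := (pos (SS P k (ξ i))).2 with hJdef
    set c := PowerSeries.coeff k (ξ i) with hc
    have h1 : ∑ j ∈ range (J + 1), ((q : K) ^ d * gk P k (ξ i) μ j) * c ^ j = 0 := by
      have h2 : ∑ j ∈ range (J + 1), ((q : K) ^ d * gk P k (ξ i) μ j) * c ^ j =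
          (q : K) ^ d * ∑ j ∈ range (J + 1), gk P k (ξ i) μ j * c ^ j := by
        rw [Finset.mul_sum]
        exact Finset.sum_congr rfl fun j _ => by ring
      rw [h2, hsum, mul_zero]
    have h3 := root_int J (fun j => (q : K) ^ d * gk P k (ξ i) μ j) c h1
      (fun j _ => hgk_int i μ j)
    have h4 : a i = (q : K) ^ d * gk P k (ξ i) μ J := rfl
    have h5 : (N : K) * c = ((N : K) * (a i)⁻¹) * (a i * c) := by
      have := ha0 i
      field_simp
    rw [h5]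
    exact (hNint i).mul (by rw [h4]; exact h3)
  · obtain ⟨_, hJ, hsum⟩ := hnext i
    set μ := (pos (SS P k (ξ i))).1 with hμ
    set J := (pos (SS P k (ξ i))).2 with hJdef
    set c := PowerSeries.coeff k (ξ i) with hc
    have h1 : ∑ j ∈ range (J + 1), σ0 ((q : K) ^ d * gk P k (ξ i) μ j) * (σ0 c) ^ j = 0 := by
      have h2 : ∑ j ∈ range (J + 1), σ0 ((q : K) ^ d * gk P k (ξ i) μ j) * (σ0 c) ^ j =
          σ0 ((q : K) ^ d * ∑ j ∈ range (J + 1), gk P k (ξ i) μ j * c ^ j) := by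
        rw [Finset.mul_sum, map_sum]
        exact Finset.sum_congr rfl fun j _ => by
          rw [← map_pow, ← map_mul]
          congr 1
          ring
      rw [h2, hsum, mul_zero, map_zero]
    have h4 : a i = (q : K) ^ d * gk P k (ξ i) μ J := rfl
    have h6 : σ0 ((q : K) ^ d * gk P k (ξ i) μ J) ≠ 0 := by
      rw [← h4, Ne, map_eq_zero]
      exact ha0 i
    have h3 := root_size J (fun j => σ0 ((q : K) ^ d * gk P k (ξ i) μ j)) (σ0 c) h1 h6
      (A := A1) (fun j _ => hgA i μ j)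
    have h7 : ‖(σ0 ((q : K) ^ d * gk P k (ξ i) μ J))⁻¹‖ ≤ A1 ^ d := by
      rw [← h4]
      exact hNinv i
    have hJd : (J : ℝ) ≤ d := by
      have : J ≤ d := hJ.trans hPd.le
      exact_mod_cast this
    calc ‖σ0 c‖ ≤ 1 + J * A1 * ‖(σ0 ((q : K) ^ d * gk P k (ξ i) μ J))⁻¹‖ := h3
      _ ≤ 1 + d * A1 * A1 ^ d := by
          gcongr
      _ = 1 + d * A1 ^ (d + 1) := by ring

end Pool.Agent.H97.XC
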